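import Pool.Agent.Lib.MP_d57abb_ntW.DDefs

/-!
# Leaf D3: the sum of the totients in a residue class
-/

set_option autoImplicit false

namespace Pool.Agent.Lib.MP_d57abb_ntW

open Finset Filter Topology Pool.Agent.Lib.MP_d57abb_nt Pool.Agent.Lib.MP_d57abb_nt.GA.TA Pool.Agent.Lib.MP_d57abb_nt.GA.TS
  Pool.Agent.Lib.MP_d57abb_nt.GA.TZ

attribute [local instance] GT.lab0

private noncomputable def d3_phi : ArithmeticFunction ℤ := ⟨fun n => (n.totient : ℤ), by simp⟩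

private theorem d3_mul : (ArithmeticFunction.moebius : ArithmeticFunction ℤ) *
    ((ArithmeticFunction.id : ArithmeticFunction ℕ) : ArithmeticFunction ℤ) = d3_phi := by
  have h : ((ArithmeticFunction.zeta : ArithmeticFunction ℕ) : ArithmeticFunction ℤ) * d3_phi =
      ((ArithmeticFunction.id : ArithmeticFunction ℕ) : ArithmeticFunction ℤ) := by
    ext n
    rw [ArithmeticFunction.coe_zeta_mul_apply]
    have h1 : ∀ i ∈ n.divisors, d3_phi i = ((i.totient : ℕ) : ℤ) := fun i _ => rfl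
    rw [Finset.sum_congr rfl h1, ← Nat.cast_sum, Nat.sum_totient]
    simp
  rw [← h, ← mul_assoc, ArithmeticFunction.moebius_mul_coe_zeta, one_mul]

private theorem d3_tot (m : ℕ) : (m.totient : ℝ) =
    ∑ x ∈ m.divisorsAntidiagonal, ((ArithmeticFunction.moebius x.1 : ℤ) : ℝ) * (x.2 : ℝ) := by
  have h : ((m.totient : ℕ) : ℤ) = ∑ x ∈ m.divisorsAntidiagonal, ArithmeticFunction.moebius x.1 *
      ((ArithmeticFunction.id : ArithmeticFunction ℕ) : ArithmeticFunction ℤ) x.2 := by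
    rw [← ArithmeticFunction.mul_apply, d3_mul]
    rfl
  have h2 := congrArg (fun z : ℤ => (z : ℝ)) h
  simp only [Int.cast_sum, Int.cast_mul, ArithmeticFunction.natCoe_apply, ArithmeticFunction.id_apply,
    Int.cast_natCast] at h2
  exact h2

private theorem d3_swap (A : ℕ) (F : ℕ → ℕ → ℝ) : ∑ m ∈ Ioc 0 A, ∑ x ∈ m.divisorsAntidiagonal, F x.1 x.2 =
    ∑ d ∈ Ioc 0 A, ∑ e ∈ Ioc 0 (A / d), F d e := by
  rw [Finset.sum_sigma', Finset.sum_sigma']
  refine Finset.sum_nbij' (fun x => (⟨x.2.1, x.2.2⟩ : (Σ _ : ℕ, ℕ))) (fun y => (⟨y.1 * y.2, (y.1, y.2)⟩ : (Σ _ : ℕ, ℕ × ℕ)))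
    ?_ ?_ ?_ ?_ ?_
  · rintro ⟨m, d, e⟩ h
    simp only [Finset.mem_sigma, Finset.mem_Ioc, Nat.mem_divisorsAntidiagonal] at h ⊢
    obtain ⟨⟨h1, h2⟩, h3, h4⟩ := h
    have hd : 0 < d := by
      rcases Nat.eq_zero_or_pos d with h | h
      · subst h
        simp only [Nat.zero_mul] at h3
        omega
      · exact h
    have he : 0 < e := by
      rcases Nat.eq_zero_or_pos e with h | h
      · subst h
        simp only [Nat.mul_zero] at h3
        omega
      · exact h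
    refine ⟨⟨hd, ?_⟩, he, ?_⟩
    · exact le_trans (Nat.le_mul_of_pos_right d he) (by omega)
    · rw [Nat.le_div_iff_mul_le hd, mul_comm]
      omega
  · rintro ⟨d, e⟩ h
    simp only [Finset.mem_sigma, Finset.mem_Ioc, Nat.mem_divisorsAntidiagonal] at h ⊢
    obtain ⟨⟨h1, h2⟩, h3, h4⟩ := h
    have h5 := (Nat.le_div_iff_mul_le h1).1 h4
    rw [mul_comm] at h5
    have h6 := Nat.mul_pos h1 h3
    exact ⟨⟨h6, h5⟩, trivial, h6.ne'⟩
  · rintro ⟨m, d, e⟩ h
    simp only [Finset.mem_sigma, Finset.mem_Ioc, Nat.mem_divisorsAntidiagonal] at h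
    obtain ⟨-, h3, -⟩ := h
    simp only [h3]
  · rintro ⟨d, e⟩ _
    rfl
  · rintro ⟨m, d, e⟩ _
    rfl

private noncomputable def d3_i (M m0 d e : ℕ) : ℝ := if d * e ≡ m0 [MOD M] then 1 else 0

private noncomputable def d3_S (M m0 d q : ℕ) : ℝ := ∑ e ∈ Ioc 0 q, d3_i M m0 d e * e

private theorem d3_i_nonneg (M m0 d e : ℕ) : 0 ≤ d3_i M m0 d e := by
  unfold d3_i
  split_ifs <;> norm_num

private theorem d3_i_le (M m0 d e : ℕ) : d3_i M m0 d e ≤ 1 := by
  unfold d3_i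
  split_ifs <;> norm_num

private theorem d3_i_per (M m0 d e : ℕ) : d3_i M m0 d (e + M) = d3_i M m0 d e := by
  have h : (d * (e + M) ≡ m0 [MOD M]) ↔ (d * e ≡ m0 [MOD M]) := by
    have h1 : d * (e + M) ≡ d * e [MOD M] := by
      rw [Nat.mul_add]
      exact Nat.modEq_iff_dvd.2 ⟨-(d : ℤ), by push_cast; ring⟩
    exact ⟨fun h => h1.symm.trans h, fun h => h1.trans h⟩
  unfold d3_i
  rw [if_congr h rfl rfl]

private theorem d3_sum (M m0 A : ℕ) : ∑ m ∈ (Icc 1 A).filter (fun m => m ≡ m0 [MOD M]), (m.totient : ℝ) =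
    ∑ d ∈ Ioc 0 A, ((ArithmeticFunction.moebius d : ℤ) : ℝ) * d3_S M m0 d (A / d) := by
  have h0 : Icc 1 A = Ioc 0 A := by
    ext x
    simp only [Finset.mem_Icc, Finset.mem_Ioc]
    omega
  rw [Finset.sum_filter, h0]
  have h1 : ∀ m ∈ Ioc 0 A, (if m ≡ m0 [MOD M] then (m.totient : ℝ) else 0) =
      ∑ x ∈ m.divisorsAntidiagonal, ((ArithmeticFunction.moebius x.1 : ℤ) : ℝ) * (d3_i M m0 x.1 x.2 * (x.2 : ℝ)) := by
    intro m _
    have h2 : ∀ x ∈ m.divisorsAntidiagonal, ((ArithmeticFunction.moebius x.1 : ℤ) : ℝ) *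
        (d3_i M m0 x.1 x.2 * (x.2 : ℝ)) = (if m ≡ m0 [MOD M] then 1 else 0) *
          (((ArithmeticFunction.moebius x.1 : ℤ) : ℝ) * (x.2 : ℝ)) := by
      intro x hx
      rw [Nat.mem_divisorsAntidiagonal] at hx
      unfold d3_i
      rw [hx.1]
      ring
    rw [Finset.sum_congr rfl h2, ← Finset.mul_sum, ← d3_tot]
    split_ifs <;> ring
  rw [Finset.sum_congr rfl h1, d3_swap A fun d e => ((ArithmeticFunction.moebius d : ℤ) : ℝ) * (d3_i M m0 d e * (e : ℝ))]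
  apply Finset.sum_congr rfl
  intro d _
  unfold d3_S
  rw [Finset.mul_sum]

private theorem d3_gauss (q : ℕ) : ∑ e ∈ Ioc 0 q, (e : ℝ) = (q : ℝ) * (q + 1) / 2 := by
  induction q with
  | zero => simp
  | succ q ih =>
    rw [Finset.sum_Ioc_succ_top (Nat.zero_le q), ih]
    push_cast
    ring

private theorem d3_S_nonneg (M m0 d q : ℕ) : 0 ≤ d3_S M m0 d q :=
  Finset.sum_nonneg fun e _ => mul_nonneg (d3_i_nonneg M m0 d e) (Nat.cast_nonneg e)

private theorem d3_S_le (M m0 d q : ℕ) : d3_S M m0 d q ≤ (q : ℝ) ^ 2 := by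
  have h1 : d3_S M m0 d q ≤ ∑ e ∈ Ioc 0 q, (e : ℝ) := by
    apply Finset.sum_le_sum
    intro e _
    have h2 := d3_i_le M m0 d e
    have h3 : (0 : ℝ) ≤ e := Nat.cast_nonneg e
    nlinarith
  rw [d3_gauss] at h1
  rcases Nat.eq_zero_or_pos q with h | h
  · subst h
    simp only [Nat.cast_zero, zero_mul, zero_div] at h1
    simpa using h1
  · have h4 : (1 : ℝ) ≤ q := by exact_mod_cast h
    nlinarith

/-- The partial sums of the oscillating part. -/
private noncomputable def d3_D (M m0 d : ℕ) (c : ℝ) (q : ℕ) : ℝ := ∑ e ∈ Ioc 0 q, (d3_i M m0 d e - c)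

private theorem d3_D_bd (M m0 d : ℕ) (hM : 0 < M) : ∃ c : ℝ, 0 ≤ c ∧ c ≤ 1 ∧ ∀ q, |d3_D M m0 d c q| ≤ M := by
  have hMr : (0 : ℝ) < M := by exact_mod_cast hM
  set C : ℝ := ∑ e ∈ Ioc 0 M, d3_i M m0 d e with hC
  have hC0 : 0 ≤ C := Finset.sum_nonneg fun e _ => d3_i_nonneg M m0 d e
  have hC1 : C ≤ M := by
    have h1 : C ≤ ∑ _e ∈ Ioc 0 M, (1 : ℝ) := Finset.sum_le_sum fun e _ => d3_i_le M m0 d e
    simpa using h1
  have hc0 : 0 ≤ C / M := by positivity
  have hc1 : C / M ≤ 1 := by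
    rw [div_le_one hMr]
    exact hC1
  refine ⟨C / M, hc0, hc1, fun q => ?_⟩
  have hz : d3_D M m0 d (C / M) M = 0 := by
    unfold d3_D
    rw [Finset.sum_sub_distrib, ← hC]
    simp only [Finset.sum_const, Nat.card_Ioc, Nat.sub_zero, nsmul_eq_mul]
    field_simp
    ring
  have hstep : ∀ q, d3_D M m0 d (C / M) (q + 1) = d3_D M m0 d (C / M) q + (d3_i M m0 d (q + 1) - C / M) := by
    intro q
    unfold d3_D
    rw [Finset.sum_Ioc_succ_top (Nat.zero_le q)]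
  have hper : Function.Periodic (d3_D M m0 d (C / M)) M := by
    intro q
    induction q with
    | zero =>
      rw [Nat.zero_add, hz]
      unfold d3_D
      simp
    | succ q ih =>
      have h1 : q + 1 + M = (q + M) + 1 := by ring
      rw [h1, hstep, ih, hstep, ← h1, d3_i_per]
  rw [← hper.map_mod_nat q]
  have hlt := Nat.mod_lt q hM
  have h2 : |d3_D M m0 d (C / M) (q % M)| ≤ ∑ _e ∈ Ioc 0 (q % M), (1 : ℝ) := by
    unfold d3_D
    refine (Finset.abs_sum_le_sum_abs _ _).trans (Finset.sum_le_sum fun e _ => ?_)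
    rw [abs_le]
    have h3 := d3_i_le M m0 d e
    have h4 := d3_i_nonneg M m0 d e
    constructor <;> linarith
  refine h2.trans ?_
  simp only [Finset.sum_const, Nat.card_Ioc, Nat.sub_zero, nsmul_eq_mul, mul_one]
  exact_mod_cast hlt.le

private theorem d3_abel (M m0 d : ℕ) (c : ℝ) (q : ℕ) : d3_S M m0 d q =
    c * ((q : ℝ) * (q + 1) / 2) + (q * d3_D M m0 d c q - ∑ e ∈ range q, d3_D M m0 d c e) := by
  induction q with
  | zero => simp [d3_S]
  | succ q ih =>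
    have h1 : d3_D M m0 d c (q + 1) = d3_D M m0 d c q + (d3_i M m0 d (q + 1) - c) := by
      unfold d3_D
      rw [Finset.sum_Ioc_succ_top (Nat.zero_le q)]
    have h2 : d3_S M m0 d (q + 1) = d3_S M m0 d q + d3_i M m0 d (q + 1) * ((q + 1 : ℕ) : ℝ) := by
      unfold d3_S
      rw [Finset.sum_Ioc_succ_top (Nat.zero_le q)]
    rw [h2, ih, Finset.sum_range_succ, h1]
    push_cast
    ring

private theorem d3_err (M m0 d : ℕ) (hM : 0 < M) : ∃ c : ℝ, 0 ≤ c ∧ c ≤ 1 ∧ ∀ q : ℕ,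
    |d3_S M m0 d q - c * ((q : ℝ) * (q + 1) / 2)| ≤ 2 * M * q := by
  obtain ⟨c, h0, h1, hb⟩ := d3_D_bd M m0 d hM
  refine ⟨c, h0, h1, fun q => ?_⟩
  rw [d3_abel M m0 d c q, add_sub_cancel_left]
  have h2 : |(q : ℝ) * d3_D M m0 d c q| ≤ q * M := by
    rw [abs_mul, abs_of_nonneg (Nat.cast_nonneg q)]
    exact mul_le_mul_of_nonneg_left (hb q) (Nat.cast_nonneg q)
  have h3 : |∑ e ∈ range q, d3_D M m0 d c e| ≤ q * M := by
    refine (Finset.abs_sum_le_sum_abs _ _).trans ((Finset.sum_le_sum fun e _ => hb e).trans (le_of_eq ?_))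
    simp
  rw [abs_le] at h2 h3 ⊢
  constructor <;> linarith [h2.1, h2.2, h3.1, h3.2]

private noncomputable def d3_G (M m0 A d : ℕ) : ℝ :=
  ((ArithmeticFunction.moebius d : ℤ) : ℝ) * d3_S M m0 d (A / d) / (A : ℝ) ^ 2

private noncomputable def d3_N (M m0 A : ℕ) : ℝ := ∑ m ∈ (Icc 1 A).filter (fun m => m ≡ m0 [MOD M]), (m.totient : ℝ)

private theorem d3_tsum (M m0 A : ℕ) : d3_N M m0 A / (A : ℝ) ^ 2 = ∑' d, d3_G M m0 A d := by
  rw [tsum_eq_sum (s := Ioc 0 A)]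
  · unfold d3_N
    rw [d3_sum, Finset.sum_div]
    rfl
  · intro d hd
    rw [Finset.mem_Ioc] at hd
    have h0 : A / d = 0 := by
      rcases Nat.eq_zero_or_pos d with h | h
      · rw [h, Nat.div_zero]
      · exact Nat.div_eq_of_lt (by omega)
    unfold d3_G
    rw [h0]
    simp [d3_S]

private theorem d3_bound (M m0 A d : ℕ) : ‖d3_G M m0 A d‖ ≤ 1 / (d : ℝ) ^ 2 := by
  unfold d3_G
  rcases Nat.eq_zero_or_pos (A / d) with h | h
  · rw [h]
    have h1 : d3_S M m0 d 0 = 0 := by simp [d3_S]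
    rw [h1, mul_zero, zero_div, norm_zero]
    positivity
  · have hd : 0 < d := by
      rcases Nat.eq_zero_or_pos d with h' | h'
      · rw [h', Nat.div_zero] at h
        omega
      · exact h'
    have hA : 0 < A := by
      rcases Nat.eq_zero_or_pos A with h' | h'
      · rw [h', Nat.zero_div] at h
        omega
      · exact h'
    have hq : ((A / d : ℕ) : ℝ) * d ≤ A := by
      exact_mod_cast Nat.div_mul_le_self A d
    have hdr : (0 : ℝ) < d := by exact_mod_cast hd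
    have hAr : (0 : ℝ) < A := by exact_mod_cast hA
    have hmu : |((ArithmeticFunction.moebius d : ℤ) : ℝ)| ≤ 1 := by
      exact_mod_cast ArithmeticFunction.abs_moebius_le_one
    have hS0 := d3_S_nonneg M m0 d (A / d)
    have hS1 := d3_S_le M m0 d (A / d)
    rw [Real.norm_eq_abs, abs_div, abs_mul, abs_of_nonneg hS0, abs_of_nonneg (show 0 ≤ (A : ℝ) ^ 2 by positivity)]
    rw [div_le_div_iff₀ (by positivity) (by positivity), one_mul]
    have h2 : |((ArithmeticFunction.moebius d : ℤ) : ℝ)| * d3_S M m0 d (A / d) ≤ ((A / d : ℕ) : ℝ) ^ 2 := by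
      calc _ ≤ 1 * d3_S M m0 d (A / d) := mul_le_mul_of_nonneg_right hmu hS0
        _ ≤ _ := by rw [one_mul]; exact hS1
    calc |((ArithmeticFunction.moebius d : ℤ) : ℝ)| * d3_S M m0 d (A / d) * (d : ℝ) ^ 2
        ≤ ((A / d : ℕ) : ℝ) ^ 2 * (d : ℝ) ^ 2 := mul_le_mul_of_nonneg_right h2 (by positivity)
      _ = (((A / d : ℕ) : ℝ) * d) ^ 2 := by ring
      _ ≤ (A : ℝ) ^ 2 := pow_le_pow_left₀ (by positivity) hq 2

private theorem d3_lim (M m0 d : ℕ) (hM : 0 < M) : ∃ g : ℝ, Tendsto (fun A : ℕ => d3_G M m0 A d) atTop (𝓝 g) := by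
  rcases Nat.eq_zero_or_pos d with h | hd
  · subst h
    refine ⟨0, ?_⟩
    have h1 : ∀ A : ℕ, d3_G M m0 A 0 = 0 := by
      intro A
      simp [d3_G]
    simp only [h1]
    exact tendsto_const_nhds
  obtain ⟨c, -, -, hc⟩ := d3_err M m0 d hM
  have hdr : (0 : ℝ) < d := by exact_mod_cast hd
  have h1 : Tendsto (fun A : ℕ => ((A / d : ℕ) : ℝ) / (A : ℝ)) atTop (𝓝 (1 / (d : ℝ))) := by
    have h2 := (tendsto_nat_floor_mul_div_atTop (R := ℝ) (a := 1 / (d : ℝ)) (by positivity)).comp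
      tendsto_natCast_atTop_atTop
    refine h2.congr ?_
    intro A
    simp only [Function.comp]
    congr 2
    rw [show (1 / (d : ℝ)) * (A : ℝ) = (A : ℝ) / (d : ℝ) by ring]
    exact Nat.floor_div_eq_div A d
  have h2 : Tendsto (fun A : ℕ => (1 : ℝ) / (A : ℝ)) atTop (𝓝 0) := tendsto_one_div_atTop_nhds_zero_nat
  have h3 : Tendsto (fun A : ℕ => ((A / d : ℕ) : ℝ) / (A : ℝ) * (((A / d : ℕ) : ℝ) / (A : ℝ) + 1 / (A : ℝ)) * (c / 2))
      atTop (𝓝 (1 / (d : ℝ) * (1 / (d : ℝ) + 0) * (c / 2))) := (h1.mul (h1.add h2)).mul_const _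
  have h4 : Tendsto (fun A : ℕ => (d3_S M m0 d (A / d) - c * (((A / d : ℕ) : ℝ) * (((A / d : ℕ) : ℝ) + 1) / 2)) /
      (A : ℝ) ^ 2) atTop (𝓝 0) := by
    have h5 : Tendsto (fun A : ℕ => 2 * (M : ℝ) * (((A / d : ℕ) : ℝ) / (A : ℝ)) * (1 / (A : ℝ))) atTop
        (𝓝 (2 * (M : ℝ) * (1 / (d : ℝ)) * 0)) := (h1.const_mul _).mul h2
    rw [mul_zero] at h5
    refine squeeze_zero_norm (fun A => ?_) h5
    rw [Real.norm_eq_abs, abs_div, abs_of_nonneg (show 0 ≤ (A : ℝ) ^ 2 by positivity)]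
    have h6 := hc (A / d)
    have h7 : 2 * (M : ℝ) * (((A / d : ℕ) : ℝ) / (A : ℝ)) * (1 / (A : ℝ)) =
        2 * (M : ℝ) * ((A / d : ℕ) : ℝ) / (A : ℝ) ^ 2 := by
      rcases Nat.eq_zero_or_pos A with h | hA
      · subst h
        simp
      have hAr : (A : ℝ) ≠ 0 := by
        have : (0 : ℝ) < A := by exact_mod_cast hA
        exact this.ne'
      field_simp
    rw [h7]
    exact div_le_div_of_nonneg_right h6 (by positivity)
  have h5 := (h3.add h4).const_mul (((ArithmeticFunction.moebius d : ℤ) : ℝ))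
  refine ⟨_, h5.congr ?_⟩
  intro A
  unfold d3_G
  rcases Nat.eq_zero_or_pos A with h | hA
  · subst h
    simp
  have hAr : (A : ℝ) ≠ 0 := by
    have : (0 : ℝ) < A := by exact_mod_cast hA
    exact this.ne'
  field_simp
  ring

private theorem d3_main (M m0 : ℕ) (hM : 0 < M) : ∃ l : ℝ,
    Tendsto (fun A : ℕ => d3_N M m0 A / (A : ℝ) ^ 2) atTop (𝓝 l) := by
  have hb : Summable (fun d : ℕ => 1 / (d : ℝ) ^ 2) := hasSum_zeta_two.summable
  choose g hg using fun d => d3_lim M m0 d hM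
  have h := tendsto_tsum_of_dominated_convergence (f := fun A d => d3_G M m0 A d) (g := g)
      (bound := fun d : ℕ => 1 / (d : ℝ) ^ 2) (𝓕 := (atTop : Filter ℕ)) hb hg
      (Filter.Eventually.of_forall (fun A d => d3_bound M m0 A d))
  exact ⟨_, h.congr fun A => (d3_tsum M m0 A).symm⟩

/-- PROOF. MODEL: `GA/TA/Phi.lean` (`sum_totient_lim`). `φ = μ * id`: `Ph M m0 Y = ∑_(d ≤ Y) μ(d) S(Y / d, d)`, `S(z, d)` the sum of the `e ≤ z` with `d e = m0` modulo `M`. It is empty if `d` is not prime to `M` (`m0` is prime to `M`), else `e` runs through one class modulo `M` and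
`S(z, d) / z ^ 2 → 1 / (2 M)`. `tendsto_tsum_of_dominated_convergence` with the bound `|μ(d) S(Y / d, d)| / Y ^ 2 ≤ 1 / d ^ 2` (for `d ≤ Y`, `S(z, d) ≤ z ^ 2` for `z ≥ 1`); for real `Y` one may first take natural `Y` and then compare
(`⌊Y⌋₊ / Y → 1`, `Ph M m0 Y` only depends on `⌊Y⌋₊`). -/
theorem ph_lim (M m0 : ℕ) (hM : 0 < M) (h : m0.Coprime M) : ∃ l : ℝ, 0 ≤ l ∧ Tendsto (fun Y : ℝ => Ph M m0 Y / Y ^ 2) atTop (𝓝 l) := by
  obtain ⟨l, hl⟩ := d3_main M m0 hM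
  have h1 : Tendsto (fun Y : ℝ => (⌊Y⌋₊ : ℝ) / Y) atTop (𝓝 1) := tendsto_nat_floor_div_atTop
  have h2 := (hl.comp (tendsto_nat_floor_atTop (α := ℝ))).mul (h1.pow 2)
  rw [one_pow, mul_one] at h2
  have h3 : Tendsto (fun Y : ℝ => Ph M m0 Y / Y ^ 2) atTop (𝓝 l) := by
    refine h2.congr' ?_
    filter_upwards [eventually_ge_atTop (1 : ℝ)] with Y hY
    have h4 : 1 ≤ ⌊Y⌋₊ := (Nat.one_le_floor_iff Y).2 hY
    have h5 : (0 : ℝ) < (⌊Y⌋₊ : ℝ) := by exact_mod_cast h4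
    have h6 : 0 < Y := by linarith
    simp only [Function.comp]
    have h7 : d3_N M m0 ⌊Y⌋₊ = Ph M m0 Y := rfl
    rw [h7]
    field_simp
  refine ⟨l, ge_of_tendsto' h3 fun Y => ?_, h3⟩
  exact div_nonneg (Finset.sum_nonneg fun m _ => Nat.cast_nonneg _) (sq_nonneg Y)

end Pool.Agent.Lib.MP_d57abb_ntW
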