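import Pool.Agent.Lib.MP_d57abb_ntW.DDefs

/-!
# Leaf D5: the function `Pb`
-/

set_option autoImplicit false

namespace Pool.Agent.Lib.MP_d57abb_ntW

open Finset Filter Topology Pool.Agent.Lib.MP_d57abb_nt Pool.Agent.Lib.MP_d57abb_nt.GA.TA Pool.Agent.Lib.MP_d57abb_nt.GA.TS
  Pool.Agent.Lib.MP_d57abb_nt.GA.TZ

attribute [local instance] GT.lab0

/-- PROOF. `Pb b u = 1 + (3 - 2 b) u + (b ^ 2 - 3 b + 1) u ^ 2`; the difference is `(u - u') ((3 - 2 b) + (b ^ 2 - 3 b + 1) (u + u'))` and `|3 - 2 b| ≤ 5 b`, `|b ^ 2 - 3 b + 1| (u + u') ≤ (b ^ 2 + 3 b + 1) 2 / b ≤ 10 b`. -/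
theorem pb_lip {b : ℕ} (hb : 1 ≤ b) {u u' : ℝ} (h0 : 0 ≤ u) (h1 : b * u ≤ 1) (h0' : 0 ≤ u') (h1' : b * u' ≤ 1) :
    |Pb b u - Pb b u'| ≤ 15 * b * |u - u'| := by
  have hB : (1 : ℝ) ≤ b := by exact_mod_cast hb
  have e : Pb b u - Pb b u' = (u - u') * ((3 - 2 * b) + ((b : ℝ) ^ 2 - 3 * b + 1) * (u + u')) := by
    unfold Pb
    ring
  rw [e, abs_mul, mul_comm]
  refine mul_le_mul_of_nonneg_right ?_ (abs_nonneg _)
  have hw0 : 0 ≤ u + u' := by linarith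
  have hw : (b : ℝ) * (u + u') ≤ 2 := by linarith
  have hw1 : u + u' ≤ 2 := by
    have h2 : 1 * (u + u') ≤ b * (u + u') := mul_le_mul_of_nonneg_right hB hw0
    linarith
  have h3 : (b : ℝ) * (b * (u + u')) ≤ b * 2 := mul_le_mul_of_nonneg_left hw (by linarith)
  have h4 : 0 ≤ (b : ℝ) * (b * (u + u')) := by positivity
  have h5 : 0 ≤ (b : ℝ) * (u + u') := by positivity
  have e2 : ((b : ℝ) ^ 2 - 3 * b + 1) * (u + u') = b * (b * (u + u')) - 3 * (b * (u + u')) + (u + u') := by ring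
  rw [abs_le, e2]
  constructor
  · linarith
  · linarith

/-- PROOF. With `t = 1 - b u ≥ 0`: `Pb b u ≥ (t + u) ^ 2` and `b (t + u) ≥ t + b u = 1`. -/
theorem pb_ge {b : ℕ} (hb : 1 ≤ b) {u : ℝ} (h0 : 0 ≤ u) (h1 : b * u ≤ 1) : 1 / (b : ℝ) ^ 2 ≤ Pb b u := by
  have hB : (1 : ℝ) ≤ b := by exact_mod_cast hb
  obtain ⟨t, ht⟩ : ∃ t : ℝ, t = 1 - b * u := ⟨_, rfl⟩
  have ht0 : 0 ≤ t := by linarith
  have e : Pb b u = t ^ 2 + 3 * t * u + u ^ 2 := by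
    unfold Pb
    rw [ht]
  have h2 : (t + u) ^ 2 ≤ Pb b u := by
    rw [e]
    have h3 : 0 ≤ t * u := mul_nonneg ht0 h0
    linarith [sq (t + u), sq t, sq u, (by ring : (t + u) ^ 2 = t ^ 2 + 2 * (t * u) + u ^ 2)]
  have h3 : 1 ≤ (b : ℝ) * (t + u) := by
    have h4 : 1 * t ≤ b * t := mul_le_mul_of_nonneg_right hB ht0
    linarith
  rw [div_le_iff₀ (by positivity)]
  have h4 : 1 ≤ ((b : ℝ) * (t + u)) ^ 2 := one_le_pow₀ h3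
  have h5 := mul_le_mul_of_nonneg_right h2 (sq_nonneg (b : ℝ))
  have e3 : ((b : ℝ) * (t + u)) ^ 2 = (t + u) ^ 2 * (b : ℝ) ^ 2 := by ring
  linarith

private theorem D5_cell {b L i : ℕ} (hb : 1 ≤ b) (hL : 30 * b ^ 3 ≤ L) (hi : i < L / b) :
    (0 : ℝ) < L ∧ 1 / (b : ℝ) ^ 2 ≤ Pb b ((i : ℝ) / L) ∧ 15 * (b : ℝ) / L ≤ 1 / (2 * (b : ℝ) ^ 2) := by
  have hB : (1 : ℝ) ≤ b := by exact_mod_cast hb
  have hL' : 30 * (b : ℝ) ^ 3 ≤ L := by exact_mod_cast hL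
  have hb3 : 0 < 30 * (b : ℝ) ^ 3 := by positivity
  have hL0 : (0 : ℝ) < L := lt_of_lt_of_le hb3 hL'
  have h1 : b * (i + 1) ≤ L := by
    have h2 : (i + 1) * b ≤ L := (Nat.le_div_iff_mul_le (by omega)).1 hi
    rw [mul_comm]
    exact h2
  have h2 : (b : ℝ) * (i + 1) ≤ L := by exact_mod_cast h1
  refine ⟨hL0, pb_ge hb (by positivity) ?_, ?_⟩
  · rw [← mul_div_assoc, div_le_one hL0]
    linarith
  · rw [div_le_div_iff₀ hL0 (by positivity)]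
    have e : 15 * (b : ℝ) * (2 * (b : ℝ) ^ 2) = 30 * (b : ℝ) ^ 3 := by ring
    rw [e, one_mul]
    exact hL'

/-- PROOF. `pb_ge` (`i / L ≤ 1 / b`), `15 b / L ≤ 1 / (2 b ^ 2)`. -/
theorem qu_pos {b L i l : ℕ} (hb : 1 ≤ b) (hL : 30 * b ^ 3 ≤ L) (hi : i < L / b) (hl : 1 ≤ l) : 0 < Qu b L i l := by
  obtain ⟨hL0, h1, h2⟩ := D5_cell hb hL hi
  have hB : (1 : ℝ) ≤ b := by exact_mod_cast hb
  have hl' : (1 : ℝ) ≤ l := by exact_mod_cast hl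
  unfold Qu
  refine mul_pos (div_pos (by linarith) hL0) ?_
  have h3 : 1 / (2 * (b : ℝ) ^ 2) = 1 / (b : ℝ) ^ 2 / 2 := by
    field_simp
  have h4 : 0 < 1 / (b : ℝ) ^ 2 := by positivity
  linarith

/-- PROOF. `pb_ge`. -/
theorem ql_pos {b L i l : ℕ} (hb : 1 ≤ b) (hL : 30 * b ^ 3 ≤ L) (hi : i < L / b) : 0 < Ql b L i l := by
  obtain ⟨hL0, h1, -⟩ := D5_cell hb hL hi
  have hB : (1 : ℝ) ≤ b := by exact_mod_cast hb
  unfold Ql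
  refine mul_pos (by positivity) ?_
  have h4 : 0 < 1 / (b : ℝ) ^ 2 := by positivity
  have h5 : 0 < 15 * (b : ℝ) / L := by positivity
  linarith

end Pool.Agent.Lib.MP_d57abb_ntW
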