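import Pool.Agent.Lib.MP_d57abb_ntW.D4
import Pool.Agent.Lib.MP_d57abb_ntW.D5

/-!
# Leaf D6: the number of frames in a class is bounded by the numbers of pairs in the cells
-/

set_option autoImplicit false

namespace Pool.Agent.Lib.MP_d57abb_ntW

open Finset Filter Topology Pool.Agent.Lib.MP_d57abb_nt Pool.Agent.Lib.MP_d57abb_nt.GA.TA Pool.Agent.Lib.MP_d57abb_nt.GA.TS
  Pool.Agent.Lib.MP_d57abb_nt.GA.TZ

attribute [local instance] GT.lab0

private theorem D6_mem {b M : ℕ} {c : ℝ} {N : ℕ} {m0 j0 y0 : ℤ} {x : (ℤ × ℤ) × (ℤ × ℤ)} :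
    x ∈ GC c N b M m0 j0 y0 ↔ x ∈ GG (1 / c) c N ∧ (M : ℤ) ∣ (tri b x).1 - m0 ∧ (M : ℤ) ∣ (tri b x).2.1 - j0 ∧
      (M : ℤ) ∣ (tri b x).2.2 - y0 := by
  unfold GC
  rw [mem_filter]

private def D6_ix (m t : ℤ) : ℕ := ((t - 1) / m).toNat

private theorem D6_ixs {m t : ℤ} (hm : 0 < m) (ht : 1 ≤ t) :
    (D6_ix m t : ℤ) * m < t ∧ t ≤ (D6_ix m t : ℤ) * m + m := by
  have h0 : 0 ≤ (t - 1) / m := Int.ediv_nonneg (by omega) hm.le
  have h1 := Int.ediv_mul_le (t - 1) hm.ne'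
  have h2 := Int.lt_ediv_add_one_mul_self (t - 1) hm
  unfold D6_ix
  rw [Int.toNat_of_nonneg h0]
  constructor
  · linarith
  · have h3 : ((t - 1) / m + 1) * m = (t - 1) / m * m + m := by ring
    rw [h3] at h2
    linarith

/-- The small frames. -/
private theorem D6_small {b : ℕ} (hb : 1 ≤ b) {c : ℝ} (hc : 1 < c) (N n1 : ℕ)
    (S : Finset ((ℤ × ℤ) × (ℤ × ℤ))) (hS : ∀ x ∈ S, x ∈ GG (1 / c) c N ∧ (tri b x).1 < n1) :
    (S.card : ℝ) ≤ (n1 : ℝ) ^ 2 * (4 * c) := by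
  classical
  have hmaps : ∀ x ∈ S, x.1 ∈ (Ico (0 : ℤ) n1) ×ˢ (Ico (0 : ℤ) n1) := by
    intro x hx
    obtain ⟨h1, h2⟩ := hS x hx
    obtain ⟨hv, -⟩ := mem_GG.1 h1
    obtain ⟨v1, v2, -⟩ := hv
    unfold tri at h2
    simp only at h2
    have h3 : x.1.2 ≤ b * x.1.2 := by
      have hb' : (1 : ℤ) ≤ b := by exact_mod_cast hb
      nlinarith
    rw [mem_product, mem_Ico, mem_Ico]
    exact ⟨⟨v1, by linarith⟩, v2, by linarith⟩
  rw [card_eq_sum_card_fiberwise hmaps]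
  push_cast
  have h1 : ∀ v ∈ (Ico (0 : ℤ) n1) ×ˢ (Ico (0 : ℤ) n1), ((S.filter (fun x => x.1 = v)).card : ℝ) ≤ 4 * c := by
    intro v _
    refine le_trans ?_ (per_v hc.le N v)
    have h2 : S.filter (fun x => x.1 = v) ⊆ (GG (1 / c) c N).filter (fun x => x.1 = v) := by
      intro x hx
      rw [mem_filter] at hx ⊢
      exact ⟨(hS x hx.1).1, hx.2⟩
    exact_mod_cast card_le_card h2
  refine (sum_le_sum h1).trans ?_
  rw [sum_const, card_product, Int.card_Ico, nsmul_eq_mul]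
  have h3 : ((n1 : ℤ) - 0).toNat = n1 := by omega
  rw [h3]
  push_cast
  apply le_of_eq
  ring

private theorem D6_cell {b L : ℕ} (hb : 1 ≤ b) {c : ℝ} (hc : 1 < c) (hbL : b ∣ L) (hL : 30 * b ^ 3 ≤ L)
    (hL2 : 2 * c + 1 ≤ L) {n1 : ℕ} (hn2 : 2 ≤ n1) (hn : ((b : ℝ) + 3) * (b : ℝ) ^ 2 * c * L ≤ (n1 : ℝ) ^ 2) {N : ℕ}
    {x : (ℤ × ℤ) × (ℤ × ℤ)} (hx : x ∈ GG (1 / c) c N) (hm : (n1 : ℤ) ≤ (tri b x).1) {i l : ℕ}
    (hi1 : (i : ℤ) * (tri b x).1 < L * (tri b x).2.1)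
    (hi2 : (L : ℤ) * (tri b x).2.1 ≤ i * (tri b x).1 + (tri b x).1)
    (hl1 : (l : ℤ) * (tri b x).1 < L * (tri b x).2.2)
    (hl2 : (L : ℤ) * (tri b x).2.2 ≤ l * (tri b x).1 + (tri b x).1) :
    i < L / b ∧ l ∈ Lu c L ∧ ((tri b x).1 : ℝ) ≤ √(((N : ℝ) + b + 3) / Qu b L i l) := by
  obtain ⟨hv, hw, hd, hk1, hkN, ha, hbb⟩ := mem_GG.1 hx
  obtain ⟨t1, t2, t3, t4, t5⟩ := tri_spec hb hv hw hd
  have g1 := tri_nm (b := b) (x := x) (by omega)
  have g2 := tri_kk hb hv hw hd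
  have g3 := tri_ge hb hv
  generalize (tri b x).1 = m at *
  generalize (tri b x).2.1 = j at *
  generalize (tri b x).2.2 = y at *
  generalize nm x.1 = ν at *
  generalize kk x.1 x.2 = κ at *
  have hL0 : 0 < L := lt_of_lt_of_le (by positivity) hL
  have hLz : (0 : ℤ) < L := by exact_mod_cast hL0
  have hbz : (1 : ℤ) ≤ b := by exact_mod_cast hb
  have hmz : (0 : ℤ) < m := by omega
  -- the index i
  have hi : i < L / b := by
    have e1 : (b : ℤ) * i * m < L * m := by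
      have e2 : (b : ℤ) * (i * m) < b * (L * j) := mul_lt_mul_of_pos_left hi1 (by omega)
      have e3 : (L : ℤ) * (b * j) < L * m := mul_lt_mul_of_pos_left t3 hLz
      have e4 : (b : ℤ) * (L * j) = L * (b * j) := by ring
      have e5 : (b : ℤ) * i * m = b * (i * m) := by ring
      linarith
    have e6 : (b : ℤ) * i < L := lt_of_mul_lt_mul_right e1 hmz.le
    obtain ⟨q, hq⟩ := hbL
    rw [hq, Nat.mul_div_cancel_left q (by omega)]
    rw [hq] at e6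
    have e7 : b * i < b * q := by exact_mod_cast e6
    exact Nat.lt_of_mul_lt_mul_left e7
  -- reals
  have hLr : (0 : ℝ) < L := by exact_mod_cast hL0
  have hbr : (1 : ℝ) ≤ b := by exact_mod_cast hb
  have hmr : (0 : ℝ) < m := by exact_mod_cast hmz
  have hc0 : (0 : ℝ) < c := by linarith
  have hi1r : (i : ℝ) * m < L * j := by exact_mod_cast hi1
  have hi2r : (L : ℝ) * j ≤ i * m + m := by exact_mod_cast hi2
  have hl1r : (l : ℝ) * m < L * y := by exact_mod_cast hl1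
  have hl2r : (L : ℝ) * y ≤ l * m + m := by exact_mod_cast hl2
  have t3r : (b : ℝ) * j < m := by exact_mod_cast t3
  have t2r : (0 : ℝ) ≤ j := by exact_mod_cast t2
  have g3r : (m : ℝ) ^ 2 ≤ (b : ℝ) ^ 2 * ν := by exact_mod_cast g3
  have hmn : (n1 : ℝ) ≤ m := by exact_mod_cast hm
  have hkNr : (κ : ℝ) ≤ N := by exact_mod_cast hkN
  have hk1r : (1 : ℝ) ≤ κ := by exact_mod_cast hk1
  have hν : ((b : ℝ) + 3) * c * L ≤ ν := by
    have e1 : (n1 : ℝ) ^ 2 ≤ (m : ℝ) ^ 2 := pow_le_pow_left₀ (Nat.cast_nonneg _) hmn 2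
    have e2 : (b : ℝ) ^ 2 * (((b : ℝ) + 3) * c * L) ≤ (b : ℝ) ^ 2 * ν := by
      have e3 : (b : ℝ) ^ 2 * (((b : ℝ) + 3) * c * L) = ((b : ℝ) + 3) * (b : ℝ) ^ 2 * c * L := by ring
      rw [e3]
      linarith
    exact le_of_mul_le_mul_left e2 (by positivity)
  have hν0 : (0 : ℝ) < ν := lt_of_lt_of_le (by positivity) hν
  obtain ⟨s, hs⟩ : ∃ s : ℝ, s = (y : ℝ) / m := ⟨_, rfl⟩
  obtain ⟨u, hu⟩ : ∃ u : ℝ, u = (j : ℝ) / m := ⟨_, rfl⟩
  rw [← hs] at g2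
  rw [← hu] at g1
  have hls1 : (l : ℝ) < L * s := by
    rw [hs, mul_div_assoc', lt_div_iff₀ hmr]
    exact hl1r
  have hls2 : (L : ℝ) * s ≤ l + 1 := by
    rw [hs, mul_div_assoc', div_le_iff₀ hmr]
    linarith
  have hiu1 : (i : ℝ) < L * u := by
    rw [hu, mul_div_assoc', lt_div_iff₀ hmr]
    exact hi1r
  have hiu2 : (L : ℝ) * u ≤ i + 1 := by
    rw [hu, mul_div_assoc', div_le_iff₀ hmr]
    linarith
  obtain ⟨k1, k2⟩ := abs_le.1 g2
  have ha' : (κ : ℝ) ≤ c * ν := by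
    have e1 := mul_le_mul_of_nonneg_left ha hc0.le
    have e2 : c * (1 / c * (κ : ℝ)) = κ := by field_simp
    linarith
  -- s is at most c + 1 / L
  have hs1 : (L : ℝ) * s ≤ c * L + 1 := by
    have e1 : (L : ℝ) * s * ν ≤ (c * L + 1) * ν := by
      have e2 : s * ν ≤ c * ν + (b + 3) := by linarith
      have e3 : (L : ℝ) * (s * ν) ≤ L * (c * ν + (b + 3)) := mul_le_mul_of_nonneg_left e2 hLr.le
      have e4 : (L : ℝ) * (b + 3) ≤ ν := by
        have e5 : (L : ℝ) * (b + 3) * 1 ≤ (L : ℝ) * (b + 3) * c := mul_le_mul_of_nonneg_left hc.le (by positivity)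
        have e6 : (L : ℝ) * (b + 3) * c = ((b : ℝ) + 3) * c * L := by ring
        linarith
      have e7 : (L : ℝ) * s * ν = L * (s * ν) := by ring
      have e8 : (c * L + 1) * (ν : ℝ) = L * (c * ν + (b + 3)) - L * (b + 3) + ν := by ring
      rw [e7, e8]
      linarith
    exact le_of_mul_le_mul_right e1 hν0
  have hs2 : (L : ℝ) - 1 ≤ c * (L * s) := by
    have e1 : ((L : ℝ) - 1) * ν ≤ c * (L * s) * ν := by
      have e2 : (κ : ℝ) - (b + 3) ≤ s * ν := by linarith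
      have e3 : (c * L) * ((κ : ℝ) - (b + 3)) ≤ (c * L) * (s * ν) := mul_le_mul_of_nonneg_left e2 (by positivity)
      have e4 : (L : ℝ) * ν ≤ L * (c * κ) := mul_le_mul_of_nonneg_left hbb hLr.le
      have e5 : (c * L) * ((κ : ℝ) - (b + 3)) = L * (c * κ) - ((b : ℝ) + 3) * c * L := by ring
      have e6 : c * (L * s) * (ν : ℝ) = (c * L) * (s * ν) := by ring
      have e7 : ((L : ℝ) - 1) * ν = L * ν - ν := by ring
      rw [e6, e7]
      linarith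
    exact le_of_mul_le_mul_right e1 hν0
  have hl3 : c * (L * s) ≤ c * (l + 1) := mul_le_mul_of_nonneg_left hls2 hc0.le
  have hl4 : 1 ≤ l := by
    by_contra hcon
    have e1 : l = 0 := by omega
    rw [e1] at hl3
    push_cast at hl3
    linarith
  have hl5 : l ∈ Lu c L := by
    unfold Lu
    rw [mem_filter, mem_Icc]
    refine ⟨⟨hl4, ?_⟩, ?_⟩
    · have e1 : ((l - 1 : ℕ) : ℝ) ≤ c * L := by
        rw [Nat.cast_sub hl4]
        push_cast
        linarith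
      have e2 := Nat.le_floor e1
      omega
    · have e3 : c * ((l : ℝ) + 2) = c * (l + 1) + c := by ring
      rw [e3]
      linarith
  refine ⟨hi, hl5, ?_⟩
  have hQ : 0 < Qu b L i l := qu_pos hb hL hi hl4
  refine Real.le_sqrt_of_sq_le ?_
  rw [le_div_iff₀ hQ]
  have hu0 : 0 ≤ u := by rw [hu]; positivity
  have hu1 : (b : ℝ) * u ≤ 1 := by
    rw [hu, mul_div_assoc', div_le_iff₀ hmr]
    linarith
  have hi' : (b : ℝ) * ((i : ℝ) / L) ≤ 1 := by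
    have e1 : (i : ℝ) / L ≤ u := by
      rw [div_le_iff₀ hLr]
      linarith
    have e2 : (b : ℝ) * ((i : ℝ) / L) ≤ b * u := mul_le_mul_of_nonneg_left e1 (by positivity)
    linarith
  have hlip := pb_lip hb hu0 hu1 (by positivity : (0 : ℝ) ≤ (i : ℝ) / L) hi'
  have hdist : |u - (i : ℝ) / L| ≤ 1 / L := by
    rw [abs_le]
    have e1 : (i : ℝ) / L ≤ u := by
      rw [div_le_iff₀ hLr]
      linarith
    have e2 : u ≤ (i : ℝ) / L + 1 / L := by
      rw [← add_div, le_div_iff₀ hLr]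
      linarith
    have e3 : (0 : ℝ) ≤ 1 / L := by positivity
    constructor <;> linarith
  have hP : Pb b ((i : ℝ) / L) - 15 * b / L ≤ Pb b u := by
    have e1 : 15 * (b : ℝ) * |u - (i : ℝ) / L| ≤ 15 * b * (1 / L) := mul_le_mul_of_nonneg_left hdist (by positivity)
    have e2 := (abs_le.1 (hlip.trans e1)).1
    have e3 : 15 * (b : ℝ) * (1 / L) = 15 * b / L := by ring
    rw [e3] at e2
    linarith
  have hP0 : 0 ≤ Pb b u := by
    have e1 := pb_ge hb hu0 hu1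
    have e2 : (0 : ℝ) ≤ 1 / (b : ℝ) ^ 2 := by positivity
    linarith
  have hlL : (l : ℝ) / L ≤ s := by
    rw [div_le_iff₀ hLr]
    linarith
  have e1 : Qu b L i l ≤ s * Pb b u := by
    unfold Qu
    refine (mul_le_mul_of_nonneg_left hP (by positivity)).trans ?_
    exact mul_le_mul_of_nonneg_right hlL hP0
  have e2 : (m : ℝ) ^ 2 * Qu b L i l ≤ (m : ℝ) ^ 2 * (s * Pb b u) := mul_le_mul_of_nonneg_left e1 (by positivity)
  have e3 : (m : ℝ) ^ 2 * (s * Pb b u) = s * ν := by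
    rw [g1]
    ring
  rw [e3] at e2
  linarith

/-- PROOF. Let `x ∈ GC`, `(m, (j, y)) = tri b x`, `u = j / m`, `s = y / m`, `ν = nm v = m² Pb b u` (`tri_spec`, `tri_nm`). Choose `n1 ≥ max n' 2` with `(b + 3) b² c L ≤ n1²`. The frames with `m < n1`: `v` is in a box of side `n1` (`v₁ + b v₂ < n1`), `≤ n1²` vectors `v`, each with at most `4 c` frames
(`per_v`): `C = 4 c n1²`. Let `m ≥ n1`: `j ≥ 1` (else `m ∣ 1`), put `i = ⌈L j / m⌉ - 1`, `l = ⌈L y / m⌉ - 1`, i.e. `i m < L j ≤ (i + 1) m`, `l m < L y ≤ (l + 1) m`: `(j, y) ∈ Hq m L M (i m) (l m) j0 y0`. `b i m < b L j < L m`, so `i < L / b`.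
By `tri_kk` (`|kk - s ν| ≤ b + 3`) and `kk / c ≤ ν ≤ c kk`, `1 ≤ kk ≤ N` (`mem_GG`), with `(b + 3) / ν ≤ (b + 3) b² / m² ≤ 1 / (c L)` (`tri_ge`): `1 / c - 1 / (c L) ≤ s ≤ c + 1 / (c L)`. So `l < L s ≤ c L + 1`: `l ≤ ⌊c L⌋₊ + 1`; `c (l + 1) ≥ c L s ≥ L - 1`: `c (l + 2) ≥ L` and (as
`2 c + 1 ≤ L`) `l ≥ 1`: `l ∈ Lu c L`. `s ν ≤ kk + b + 3 ≤ N + b + 3`, `s ≥ l / L`, `Pb b u ≥ Pb b (i / L) - 15 b / L` (`pb_lip`, `u` and `i / L` are in `[0, 1 / b]`, `|u - i / L| ≤ 1 / L`): `Qu m² ≤ N + b + 3`, i.e. `m ≤ √((N + b + 3) / Qu)` (`qu_pos`). The frame is determined by `(m, (j, y))`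
(`v = (m - b j, j)`, `m w₂ = j y + 1`). So the number of the frames with `m ≥ n1` is at most the number of the `(i, l, m, (j, y))` (`Finset.card_le_card_of_injOn` into a `Finset.sigma`, or `card_le_card` of an image / `card_biUnion_le`). -/
theorem gc_up {b M L : ℕ} (hb : 1 ≤ b) (hM : 0 < M) {c : ℝ} (hc : 1 < c) (hbL : b ∣ L) (hL : 30 * b ^ 3 ≤ L)
    (hL2 : 2 * c + 1 ≤ L) (m0 : ℕ) (j0 y0 : ℤ) (n' : ℕ) : ∃ n1 : ℕ, n' ≤ n1 ∧ ∃ C : ℝ, ∀ N : ℕ,
    ((GC c N b M m0 j0 y0).card : ℝ) ≤ C + ∑ i ∈ range (L / b), ∑ l ∈ Lu c L,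
      ∑ m ∈ (Icc n1 ⌊√(((N : ℝ) + b + 3) / Qu b L i l)⌋₊).filter (fun m => m ≡ m0 [MOD M]),
        ((Hq m L M (i * m) (l * m) j0 y0).card : ℝ) := by
  classical
  obtain ⟨n2, hn2⟩ := exists_nat_ge (((b : ℝ) + 3) * (b : ℝ) ^ 2 * c * L)
  obtain ⟨n1, hn1⟩ : ∃ n1 : ℕ, n1 = max (max n' 2) n2 := ⟨_, rfl⟩
  have h1 : n' ≤ n1 := by rw [hn1]; exact (le_max_left _ _).trans (le_max_left _ _)
  have h2 : 2 ≤ n1 := by rw [hn1]; exact (le_max_right _ _).trans (le_max_left _ _)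
  have h3 : n2 ≤ n1 := by rw [hn1]; exact le_max_right _ _
  have h4 : ((b : ℝ) + 3) * (b : ℝ) ^ 2 * c * L ≤ (n1 : ℝ) ^ 2 := by
    have e1 : (n2 : ℝ) ≤ n1 := by exact_mod_cast h3
    have e2 : (2 : ℝ) ≤ n1 := by exact_mod_cast h2
    nlinarith
  have hL0 : 0 < L := lt_of_lt_of_le (by positivity) hL
  refine ⟨n1, h1, (n1 : ℝ) ^ 2 * (4 * c), fun N => ?_⟩
  have hsplit : (GC c N b M m0 j0 y0).card =
      ((GC c N b M m0 j0 y0).filter (fun x => (tri b x).1 < n1)).card +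
      ((GC c N b M m0 j0 y0).filter (fun x => ¬ (tri b x).1 < n1)).card :=
    (card_filter_add_card_filter_not _).symm
  rw [hsplit]
  push_cast
  refine add_le_add (D6_small hb hc N n1 _ ?_) ?_
  · intro x hx
    obtain ⟨q1, q2⟩ := mem_filter.1 hx
    exact ⟨(D6_mem.1 q1).1, q2⟩
  have hcard : (((range (L / b)).sigma (fun i => (Lu c L).sigma (fun l =>
      ((Icc n1 ⌊√(((N : ℝ) + b + 3) / Qu b L i l)⌋₊).filter (fun m => m ≡ m0 [MOD M])).sigma (fun m =>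
        Hq m L M (i * m) (l * m) j0 y0)))).card : ℝ) = ∑ i ∈ range (L / b), ∑ l ∈ Lu c L,
      ∑ m ∈ (Icc n1 ⌊√(((N : ℝ) + b + 3) / Qu b L i l)⌋₊).filter (fun m => m ≡ m0 [MOD M]),
        ((Hq m L M (i * m) (l * m) j0 y0).card : ℝ) := by
    simp only [card_sigma]
    push_cast
    rfl
  rw [← hcard]
  have hle : ((GC c N b M m0 j0 y0).filter (fun x => ¬ (tri b x).1 < n1)).card ≤
      ((range (L / b)).sigma (fun i => (Lu c L).sigma (fun l =>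
      ((Icc n1 ⌊√(((N : ℝ) + b + 3) / Qu b L i l)⌋₊).filter (fun m => m ≡ m0 [MOD M])).sigma (fun m =>
        Hq m L M (i * m) (l * m) j0 y0)))).card := by
    refine card_le_card_of_injOn (fun x => ⟨D6_ix (tri b x).1 (L * (tri b x).2.1),
      ⟨D6_ix (tri b x).1 (L * (tri b x).2.2), ⟨(tri b x).1.toNat, (tri b x).2⟩⟩⟩) ?_ ?_
    · intro x hx
      obtain ⟨q1, q2⟩ := mem_filter.1 (mem_coe.1 hx)
      obtain ⟨q3, q4, q5, q6⟩ := D6_mem.1 q1
      obtain ⟨hv, hw, hd, -⟩ := mem_GG.1 q3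
      obtain ⟨t1, t2, t3, t4, t5⟩ := tri_spec hb hv hw hd
      have hm : (n1 : ℤ) ≤ (tri b x).1 := not_lt.1 q2
      have hj1 : 1 ≤ (tri b x).2.1 := by
        by_contra hcon
        have e1 : (tri b x).2.1 = 0 := by omega
        rw [e1, zero_mul, zero_add] at t5
        have e2 : (tri b x).1 ∣ 1 := ⟨_, t5.symm⟩
        have e3 := Int.le_of_dvd one_pos e2
        omega
      have hy1 : 1 ≤ (tri b x).2.2 := by
        have : (1 : ℤ) ≤ b := by exact_mod_cast hb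
        omega
      have hLz : (1 : ℤ) ≤ L := by exact_mod_cast hL0
      have hm0 : 0 < (tri b x).1 := by omega
      obtain ⟨i1, i2⟩ := D6_ixs hm0 (show 1 ≤ (L : ℤ) * (tri b x).2.1 by nlinarith)
      obtain ⟨l1, l2⟩ := D6_ixs hm0 (show 1 ≤ (L : ℤ) * (tri b x).2.2 by nlinarith)
      obtain ⟨c1, c2, c3⟩ := D6_cell hb hc hbL hL hL2 h2 h4 q3 hm i1 i2 l1 l2
      have hcast : (((tri b x).1.toNat : ℕ) : ℤ) = (tri b x).1 := Int.toNat_of_nonneg hm0.le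
      have hcastr : (((tri b x).1.toNat : ℕ) : ℝ) = ((tri b x).1 : ℝ) := by exact_mod_cast congrArg (Int.cast : ℤ → ℝ) hcast
      have hLp : (0 : ℤ) < L := by omega
      refine mem_coe.2 (mem_sigma.2 ⟨mem_range.2 c1, mem_sigma.2 ⟨c2, mem_sigma.2 ⟨mem_filter.2 ⟨mem_Icc.2 ⟨?_, ?_⟩, ?_⟩, ?_⟩⟩⟩)
      · show n1 ≤ (tri b x).1.toNat
        omega
      · show (tri b x).1.toNat ≤ _
        refine Nat.le_floor ?_
        rw [hcastr]
        exact c3
      · show (tri b x).1.toNat ≡ m0 [MOD M]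
        rw [Nat.modEq_iff_dvd, hcast]
        exact (dvd_sub_comm).1 q4
      · show (tri b x).2 ∈ Hq (tri b x).1.toNat L M _ _ j0 y0
        unfold Hq
        rw [mem_filter, mem_product, mem_Ioc, mem_Ioc, Int.ediv_lt_iff_lt_mul hLp, Int.ediv_lt_iff_lt_mul hLp,
          Int.le_ediv_iff_mul_le hLp, Int.le_ediv_iff_mul_le hLp, hcast]
        refine ⟨⟨⟨?_, ?_⟩, ?_, ?_⟩, ⟨_, t5.symm⟩, q5, q6⟩
        · rw [mul_comm _ (L : ℤ)]
          exact i1
        · rw [mul_comm _ (L : ℤ)]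
          exact i2
        · rw [mul_comm _ (L : ℤ)]
          exact l1
        · rw [mul_comm _ (L : ℤ)]
          exact l2
    · intro x hx x' hx' hxx
      obtain ⟨q1, q2⟩ := mem_filter.1 (mem_coe.1 hx)
      obtain ⟨q1', q2'⟩ := mem_filter.1 (mem_coe.1 hx')
      obtain ⟨q3, -⟩ := D6_mem.1 q1
      obtain ⟨q3', -⟩ := D6_mem.1 q1'
      obtain ⟨hv, hw, hd, -⟩ := mem_GG.1 q3
      obtain ⟨hv', hw', hd', -⟩ := mem_GG.1 q3'
      obtain ⟨t1, -, -, -, t5⟩ := tri_spec hb hv hw hd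
      obtain ⟨t1', -, -, -, t5'⟩ := tri_spec hb hv' hw' hd'
      simp only [Sigma.mk.injEq, heq_eq_eq] at hxx
      obtain ⟨-, -, e1, e2⟩ := hxx
      have e3 : (tri b x).1 = (tri b x').1 := by omega
      have e4 : (tri b x).2.1 = (tri b x').2.1 := congrArg Prod.fst e2
      have e5 : (tri b x).2.2 = (tri b x').2.2 := congrArg Prod.snd e2
      have e6 : x.2.2 = x'.2.2 := by
        rw [e3, e4, e5, ← t5'] at t5
        exact mul_left_cancel₀ (by omega) t5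
      unfold tri at e3 e4 e5
      simp only at e3 e4 e5
      have e7 : x.1.1 = x'.1.1 := by
        rw [e4] at e3
        linarith
      have e8 : x.2.1 = x'.2.1 := by
        rw [e6] at e5
        linarith
      exact Prod.ext (Prod.ext e7 e4) (Prod.ext e8 e6)
  exact_mod_cast hle

end Pool.Agent.Lib.MP_d57abb_ntW
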