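import Pool.Agent.Lib.MP_d57abb_ntW.D2
import Pool.Agent.Lib.MP_d57abb_ntW.D3
import Pool.Agent.Lib.MP_d57abb_ntW.D6

/-!
# Leaf D9a: the cells, limits
-/

set_option autoImplicit false

namespace Pool.Agent.Lib.MP_d57abb_ntW

open Finset Filter Topology Pool.Agent.Lib.MP_d57abb_nt Pool.Agent.Lib.MP_d57abb_nt.GA.TA Pool.Agent.Lib.MP_d57abb_nt.GA.TS
  Pool.Agent.Lib.MP_d57abb_nt.GA.TZ

attribute [local instance] GT.lab0

private theorem d9a_lim {M m0 : ℕ} {l : ℝ} (hl : Tendsto (fun Y : ℝ => Ph M m0 Y / Y ^ 2) atTop (𝓝 l))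
    (b : ℕ) {Q : ℝ} (hQ : 0 < Q) :
    Tendsto (fun N : ℕ => Ph M m0 (√(((N : ℝ) + b + 3) / Q)) / N) atTop (𝓝 (l / Q)) := by
  have hN : Tendsto (fun N : ℕ => ((N : ℝ) + b + 3)) atTop atTop :=
    tendsto_atTop_add_const_right _ _ (tendsto_atTop_add_const_right _ _ tendsto_natCast_atTop_atTop)
  have hY : Tendsto (fun N : ℕ => √(((N : ℝ) + b + 3) / Q)) atTop atTop :=
    Real.tendsto_sqrt_atTop.comp (hN.atTop_div_const hQ)
  have h1 := hl.comp hY
  have h2 : Tendsto (fun N : ℕ => (((N : ℝ) + b + 3) / Q) / N) atTop (𝓝 (1 / Q)) := by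
    have h3 : Tendsto (fun N : ℕ => (1 + ((b : ℝ) + 3) / N) / Q) atTop (𝓝 ((1 + 0) / Q)) :=
      (tendsto_const_nhds.add (tendsto_const_nhds.div_atTop tendsto_natCast_atTop_atTop)).div_const _
    rw [add_zero] at h3
    refine h3.congr' ?_
    filter_upwards [eventually_gt_atTop 0] with N hN0
    have : (N : ℝ) ≠ 0 := by positivity
    field_simp
    ring
  have h4 := h1.mul h2
  rw [mul_one_div] at h4
  refine h4.congr' ?_
  filter_upwards with N
  have h5 : 0 < ((N : ℝ) + b + 3) / Q := by positivity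
  simp only [Function.comp]
  rw [Real.sq_sqrt h5.le]
  field_simp

/-- PROOF. `hq_up` for `ε` gives `n'`; `gc_up` for `n'` (then `n1 ≥ n'`), each `m = m0` modulo `M` is prime to `M`, so the sum over `m` is at most `(1 + ε) / (L M)² * Ph M m0 Y` with `Y = √((N + b + 3) / Qu)` and `Ph M m0 Y / N → l / Qu` (`Y → ∞`, `Y² / N → 1 / Qu`). The sum over the cells of
`(1 + ε) / (L M)² * l / Qu` is `(1 + ε) * (l / M²) * Up b c L`. -/
theorem cell_up {b M L : ℕ} (hb : 1 ≤ b) (hM : 0 < M) {c : ℝ} (hc : 1 < c) (hbL : b ∣ L) (hL : 30 * b ^ 3 ≤ L)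
    (hL2 : 2 * c + 1 ≤ L) (m0 : ℕ) (h0 : m0.Coprime M) (j0 y0 : ℤ) {l : ℝ}
    (hl : Tendsto (fun Y : ℝ => Ph M m0 Y / Y ^ 2) atTop (𝓝 l)) {ε : ℝ} (hε : 0 < ε) :
    ∀ᶠ N : ℕ in atTop, ((GC c N b M m0 j0 y0).card : ℝ) / N ≤ (1 + ε) * (l / (M : ℝ) ^ 2) * Up b c L + ε := by
  have hL0 : 0 < L := by
    have : 0 < b ^ 3 := by positivity
    omega
  obtain ⟨n', hn'⟩ := hq_up L M hL0 hM ε hε
  obtain ⟨n1, hn1, C, hC⟩ := gc_up hb hM hc hbL hL hL2 m0 j0 y0 (max n' 1)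
  have hlu : ∀ k ∈ Lu c L, 1 ≤ k := by
    intro k hk
    unfold Lu at hk
    exact (Finset.mem_Icc.mp (Finset.mem_filter.mp hk).1).1
  have hin : ∀ (N : ℕ) (i k : ℕ), ∑ m ∈ (Icc n1 ⌊√(((N : ℝ) + b + 3) / Qu b L i k)⌋₊).filter (fun m => m ≡ m0 [MOD M]),
        ((Hq m L M (i * m) (k * m) j0 y0).card : ℝ) ≤
      (1 + ε) / ((L : ℝ) * M) ^ 2 * Ph M m0 (√(((N : ℝ) + b + 3) / Qu b L i k)) := by
    intro N i k
    unfold Ph
    rw [Finset.mul_sum]
    have hsub : (Icc n1 ⌊√(((N : ℝ) + b + 3) / Qu b L i k)⌋₊).filter (fun m => m ≡ m0 [MOD M]) ⊆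
        (Icc 1 ⌊√(((N : ℝ) + b + 3) / Qu b L i k)⌋₊).filter (fun m => m ≡ m0 [MOD M]) := by
      apply Finset.filter_subset_filter
      apply Finset.Icc_subset_Icc_left
      exact le_trans (le_max_right _ _) hn1
    refine le_trans (Finset.sum_le_sum (g := fun m : ℕ => (1 + ε) / ((L : ℝ) * M) ^ 2 * (m.totient : ℝ)) ?_)
      (Finset.sum_le_sum_of_subset_of_nonneg hsub fun m _ _ => by positivity)
    intro m hm
    obtain ⟨hm1, hm2⟩ := Finset.mem_filter.mp hm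
    have hmn : n' ≤ m := le_trans (le_trans (le_max_left _ _) hn1) (Finset.mem_Icc.mp hm1).1
    have hcop : m.Coprime M := by
      have := Nat.ModEq.gcd_eq hm2
      unfold Nat.Coprime
      rw [this]
      exact h0
    have := hn' m hmn hcop (i * m) (k * m) j0 y0
    calc _ ≤ _ := this
      _ = _ := by ring
  have hT : Tendsto (fun N : ℕ => C / (N : ℝ) + ∑ i ∈ range (L / b), ∑ k ∈ Lu c L, (1 + ε) / ((L : ℝ) * M) ^ 2 *
      (Ph M m0 (√(((N : ℝ) + b + 3) / Qu b L i k)) / N)) atTop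
      (𝓝 (0 + ∑ i ∈ range (L / b), ∑ k ∈ Lu c L, (1 + ε) / ((L : ℝ) * M) ^ 2 * (l / Qu b L i k))) := by
    refine (tendsto_const_nhds.div_atTop tendsto_natCast_atTop_atTop).add ?_
    refine tendsto_finsetSum _ fun i hi => tendsto_finsetSum _ fun k hk => ?_
    exact (d9a_lim hl b (qu_pos hb hL (Finset.mem_range.mp hi) (hlu k hk))).const_mul _
  have hval : (0 : ℝ) + ∑ i ∈ range (L / b), ∑ k ∈ Lu c L, (1 + ε) / ((L : ℝ) * M) ^ 2 * (l / Qu b L i k) =
      (1 + ε) * (l / (M : ℝ) ^ 2) * Up b c L := by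
    unfold Up
    rw [zero_add, Finset.mul_sum]
    refine Finset.sum_congr rfl fun i hi => ?_
    rw [Finset.mul_sum]
    refine Finset.sum_congr rfl fun k hk => ?_
    have hq := qu_pos (l := k) hb hL (Finset.mem_range.mp hi) (hlu k hk)
    have hM' : (M : ℝ) ≠ 0 := by positivity
    have hL' : (L : ℝ) ≠ 0 := by positivity
    field_simp
  rw [hval] at hT
  have hev := (tendsto_order.1 hT).2 ((1 + ε) * (l / (M : ℝ) ^ 2) * Up b c L + ε) (by linarith)
  filter_upwards [hev, eventually_gt_atTop 0] with N hN hN0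
  have hN' : (0 : ℝ) < N := by exact_mod_cast hN0
  refine le_trans ?_ hN.le
  have h1 : ((GC c N b M m0 j0 y0).card : ℝ) ≤ C + ∑ i ∈ range (L / b), ∑ k ∈ Lu c L,
      (1 + ε) / ((L : ℝ) * M) ^ 2 * Ph M m0 (√(((N : ℝ) + b + 3) / Qu b L i k)) := by
    refine le_trans (hC N) (add_le_add le_rfl ?_)
    exact Finset.sum_le_sum fun i _ => Finset.sum_le_sum fun k _ => hin N i k
  calc ((GC c N b M m0 j0 y0).card : ℝ) / N ≤ (C + ∑ i ∈ range (L / b), ∑ k ∈ Lu c L,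
      (1 + ε) / ((L : ℝ) * M) ^ 2 * Ph M m0 (√(((N : ℝ) + b + 3) / Qu b L i k))) / N :=
        div_le_div_of_nonneg_right h1 hN'.le
    _ = _ := by
        rw [add_div, Finset.sum_div]
        congr 1
        refine Finset.sum_congr rfl fun i _ => ?_
        rw [Finset.sum_div]
        refine Finset.sum_congr rfl fun k _ => ?_
        rw [mul_div_assoc]

end Pool.Agent.Lib.MP_d57abb_ntW
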