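import Pool.Agent.Lib.MP_d57abb_ntW.D4
import Pool.Agent.Lib.MP_d57abb_ntW.D5

/-!
# Leaf D7: the numbers of pairs in the cells are bounded by the number of frames
-/

set_option autoImplicit false

namespace Pool.Agent.Lib.MP_d57abb_ntW

open Finset Filter Topology Pool.Agent.Lib.MP_d57abb_nt Pool.Agent.Lib.MP_d57abb_nt.GA.TA Pool.Agent.Lib.MP_d57abb_nt.GA.TS
  Pool.Agent.Lib.MP_d57abb_nt.GA.TZ

attribute [local instance] GT.lab0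

private theorem D7_hq {n L M : ℕ} (hL : 0 < L) {a b j y : ℤ} {x : ℤ × ℤ} (h : x ∈ Hq n L M a b j y) :
    a < L * x.1 ∧ L * x.1 ≤ a + n ∧ b < L * x.2 ∧ L * x.2 ≤ b + n ∧ (n : ℤ) ∣ x.1 * x.2 + 1 ∧
      (M : ℤ) ∣ x.1 - j ∧ (M : ℤ) ∣ x.2 - y := by
  have hL' : (0 : ℤ) < L := by exact_mod_cast hL
  unfold Hq at h
  rw [mem_filter, mem_product, mem_Ioc, mem_Ioc, Int.ediv_lt_iff_lt_mul hL',
    Int.ediv_lt_iff_lt_mul hL', Int.le_ediv_iff_mul_le hL', Int.le_ediv_iff_mul_le hL'] at h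
  obtain ⟨⟨⟨h1, h2⟩, h3, h4⟩, h5, h6, h7⟩ := h
  refine ⟨?_, ?_, ?_, ?_, h5, h6, h7⟩
  · rw [mul_comm]; exact h1
  · rw [mul_comm]; exact h2
  · rw [mul_comm]; exact h3
  · rw [mul_comm]; exact h4

private theorem D7_cell {b L : ℕ} (hb : 1 ≤ b) {c : ℝ} (hc : 1 < c) (hL : 30 * b ^ 3 ≤ L)
    (hL0 : 0 < L) {n1 : ℕ} (hn1 : b < n1) (hn2 : b * L ≤ n1) (hn3 : (b + 4) * L * b ^ 2 ≤ n1 ^ 2)
    (hn4 : c * L * (b + 3) * b ^ 2 ≤ (n1 : ℝ) ^ 2) {i l m N : ℕ} (hi : i < L / b) (hl : l ∈ Ll c L)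
    (hm : n1 ≤ m) (hmN : m ≤ ⌊√(((N : ℝ) - (b + 3)) / Ql b L i l)⌋₊) {j y : ℤ}
    (h1 : (i : ℤ) * m < L * j) (h2 : L * j ≤ (i : ℤ) * m + m) (h3 : (l : ℤ) * m < L * y)
    (h4 : L * y ≤ (l : ℤ) * m + m) (h5 : (m : ℤ) ∣ j * y + 1) :
    ∃ x : (ℤ × ℤ) × (ℤ × ℤ), tri b x = ((m : ℤ), (j, y)) ∧ x ∈ GG (1 / c) c N := by
  have hb' : (1 : ℤ) ≤ b := by exact_mod_cast hb
  have hLz : (0 : ℤ) < L := by exact_mod_cast hL0
  have hbm : (b : ℤ) < m := by exact_mod_cast lt_of_lt_of_le hn1 hm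
  have hm0 : (0 : ℤ) < m := by linarith
  have hi0 : (0 : ℤ) ≤ i := Int.natCast_nonneg i
  have hib : (b : ℤ) * (i + 1) ≤ L := by
    have h6 : b * (i + 1) ≤ L := (Nat.mul_le_mul_left b hi).trans (Nat.mul_div_le L b)
    exact_mod_cast h6
  have hj : 1 ≤ j := by
    by_contra hcon
    have h6 : j ≤ 0 := by omega
    have h7 : (L : ℤ) * j ≤ 0 := mul_nonpos_of_nonneg_of_nonpos hLz.le h6
    have h8 : 0 ≤ (i : ℤ) * m := mul_nonneg hi0 hm0.le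
    linarith
  have hbj : (b : ℤ) * j < m := by
    have h6 : (L : ℤ) * (b * j) ≤ L * m := by
      calc (L : ℤ) * (b * j) = b * (L * j) := by ring
        _ ≤ b * ((i : ℤ) * m + m) := mul_le_mul_of_nonneg_left h2 (by linarith)
        _ = (b * (i + 1)) * m := by ring
        _ ≤ L * m := mul_le_mul_of_nonneg_right hib hm0.le
    have h7 : (b : ℤ) * j ≤ m := le_of_mul_le_mul_left h6 hLz
    refine lt_of_le_of_ne h7 fun h8 => ?_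
    have h9 : j ∣ (m : ℤ) := ⟨b, by rw [← h8]; ring⟩
    have h10 : j ∣ 1 := by
      have h11 := h9.trans h5
      exact (dvd_add_right (Dvd.intro y rfl)).1 h11
    have h12 : j = 1 := by
      have := Int.le_of_dvd one_pos h10
      omega
    rw [h12, mul_one] at h8
    linarith
  unfold Ll at hl
  rw [mem_filter, mem_Icc] at hl
  obtain ⟨⟨hl1, -⟩, hl2, hl3⟩ := hl
  have hl1' : (1 : ℤ) ≤ l := by exact_mod_cast hl1
  have hy : (b : ℤ) ≤ y := by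
    have h6 : (b : ℤ) * L ≤ m := by exact_mod_cast hn2.trans hm
    have h7 : (L : ℤ) * b < L * y := by
      calc (L : ℤ) * b = b * L := by ring
        _ ≤ m := h6
        _ = 1 * m := (one_mul _).symm
        _ ≤ l * m := mul_le_mul_of_nonneg_right hl1' hm0.le
        _ < L * y := h3
    exact (lt_of_mul_lt_mul_left h7 hLz.le).le
  obtain ⟨t, ht⟩ := h5
  obtain ⟨q1, q2, q3, q4⟩ := mk_frame hb (by linarith) hbj hy ht.symm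
  refine ⟨_, q4, ?_⟩
  set x : (ℤ × ℤ) × (ℤ × ℤ) := ((m - b * j, j), (y - b * t, t)) with hx
  have g1 : (tri b x).1 = (m : ℤ) := by rw [q4]
  have g2 : (tri b x).2.1 = j := by rw [q4]
  have g3 : (tri b x).2.2 = y := by rw [q4]
  have r1 := tri_nm (b := b) (x := x) (by rw [g1]; exact hm0.ne')
  have r2 := tri_kk hb (x := x) q1 q2 q3
  have r3 := tri_ge hb (x := x) q1
  rw [g1, g2] at r1
  rw [g1, g3] at r2
  rw [g1] at r3
  have hLr : (0 : ℝ) < L := by exact_mod_cast hL0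
  have hmr : (0 : ℝ) < m := by exact_mod_cast hm0
  have hbr : (1 : ℝ) ≤ b := by exact_mod_cast hb
  have hb2 : (0 : ℝ) < (b : ℝ) ^ 2 := by positivity
  have hQ := ql_pos (l := l) hb hL hi
  have r3' : (m : ℝ) ^ 2 ≤ (b : ℝ) ^ 2 * ((nm x.1 : ℤ) : ℝ) := by exact_mod_cast r3
  obtain ⟨ν, hν⟩ : ∃ ν : ℝ, ν = ((nm x.1 : ℤ) : ℝ) := ⟨_, rfl⟩
  obtain ⟨K, hK⟩ : ∃ K : ℝ, K = ((kk x.1 x.2 : ℤ) : ℝ) := ⟨_, rfl⟩
  rw [← hν] at r1 r2 r3'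
  rw [← hK] at r2
  obtain ⟨s, hs⟩ : ∃ s : ℝ, s = (y : ℝ) / (m : ℝ) := ⟨_, rfl⟩
  obtain ⟨u, hu⟩ : ∃ u : ℝ, u = (j : ℝ) / (m : ℝ) := ⟨_, rfl⟩
  have r1' : ν = (m : ℝ) ^ 2 * Pb b u := by
    rw [hu, r1]
    push_cast
    rfl
  have r2' : |K - s * ν| ≤ b + 3 := by
    rw [hs]
    exact_mod_cast r2
  have h1r : (i : ℝ) * m < L * j := by exact_mod_cast h1
  have h2r : (L : ℝ) * j ≤ (i : ℝ) * m + m := by exact_mod_cast h2
  have h3r : (l : ℝ) * m < L * y := by exact_mod_cast h3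
  have h4r : (L : ℝ) * y ≤ (l : ℝ) * m + m := by exact_mod_cast h4
  have hu1 : (i : ℝ) / L ≤ u := by
    rw [hu, div_le_div_iff₀ hLr hmr]
    linarith
  have hu2 : u ≤ (i : ℝ) / L + 1 / L := by
    rw [hu, ← add_div, div_le_div_iff₀ hmr hLr]
    linarith
  have hs1 : (l : ℝ) / L ≤ s := by
    rw [hs, div_le_div_iff₀ hLr hmr]
    linarith
  have hs2 : s ≤ ((l : ℝ) + 1) / L := by
    rw [hs, div_le_div_iff₀ hmr hLr]
    linarith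
  have hi0r : (0 : ℝ) ≤ i := Nat.cast_nonneg i
  have hu0 : 0 ≤ u := le_trans (div_nonneg hi0r hLr.le) hu1
  have hbu : b * u ≤ 1 := by
    rw [hu, ← mul_div_assoc, div_le_one hmr]
    exact_mod_cast hbj.le
  have hbi : b * ((i : ℝ) / L) ≤ 1 := by
    rw [← mul_div_assoc, div_le_one hLr]
    have h6 : (b : ℝ) * (i + 1) ≤ L := by exact_mod_cast hib
    linarith
  have hP := pb_lip hb hu0 hbu (div_nonneg hi0r hLr.le) hbi
  have habs : |u - (i : ℝ) / L| ≤ 1 / L := by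
    rw [abs_of_nonneg (by linarith)]
    linarith
  have hP2 : Pb b u ≤ Pb b ((i : ℝ) / L) + 15 * b / L := by
    have h6 := (le_abs_self _).trans hP
    have h7 : 15 * (b : ℝ) * |u - (i : ℝ) / L| ≤ 15 * b * (1 / L) :=
      mul_le_mul_of_nonneg_left habs (by positivity)
    have h8 : 15 * (b : ℝ) * (1 / L) = 15 * b / L := by ring
    linarith
  have hP0 : 0 ≤ Pb b u := le_trans (by positivity) (pb_ge hb hu0 hbu)
  have hν0 : 0 ≤ ν := by rw [r1']; positivity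
  have hl1r : (1 : ℝ) ≤ l := by exact_mod_cast hl1
  have hs0 : 0 ≤ s := le_trans (by positivity) hs1
  have hmY : (m : ℝ) ^ 2 * Ql b L i l ≤ (N : ℝ) - (b + 3) := by
    have h6 : (m : ℝ) ≤ √(((N : ℝ) - (b + 3)) / Ql b L i l) :=
      (Nat.le_floor_iff (Real.sqrt_nonneg _)).1 hmN
    have h7 := (Real.le_sqrt' hmr).1 h6
    exact (le_div_iff₀ hQ).1 h7
  have hsν : s * ν ≤ (m : ℝ) ^ 2 * Ql b L i l := by
    rw [r1']
    unfold Ql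
    have h6 : s * Pb b u ≤ ((l : ℝ) + 1) / L * (Pb b ((i : ℝ) / L) + 15 * b / L) :=
      mul_le_mul hs2 hP2 hP0 (by positivity)
    calc s * ((m : ℝ) ^ 2 * Pb b u) = (m : ℝ) ^ 2 * (s * Pb b u) := by ring
      _ ≤ _ := mul_le_mul_of_nonneg_left h6 (by positivity)
  have hνm : (n1 : ℝ) ^ 2 ≤ (b : ℝ) ^ 2 * ν := by
    refine le_trans ?_ r3'
    have h6 : (n1 : ℝ) ≤ m := by exact_mod_cast hm
    exact pow_le_pow_left₀ (Nat.cast_nonneg _) h6 2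
  have hν1 : ((b : ℝ) + 4) * L ≤ ν := by
    have h6 : ((b : ℝ) + 4) * L * (b : ℝ) ^ 2 ≤ (n1 : ℝ) ^ 2 := by exact_mod_cast hn3
    have h7 : (b : ℝ) ^ 2 * (((b : ℝ) + 4) * L) ≤ (b : ℝ) ^ 2 * ν := by
      calc (b : ℝ) ^ 2 * (((b : ℝ) + 4) * L) = ((b : ℝ) + 4) * L * (b : ℝ) ^ 2 := by ring
        _ ≤ _ := h6.trans hνm
    exact le_of_mul_le_mul_left h7 hb2
  have hν2 : c * L * ((b : ℝ) + 3) ≤ ν := by
    have h7 : (b : ℝ) ^ 2 * (c * L * ((b : ℝ) + 3)) ≤ (b : ℝ) ^ 2 * ν := by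
      calc (b : ℝ) ^ 2 * (c * L * ((b : ℝ) + 3)) = c * L * (b + 3) * b ^ 2 := by ring
        _ ≤ _ := hn4.trans hνm
    exact le_of_mul_le_mul_left h7 hb2
  have hν1' : (b : ℝ) + 4 ≤ ν / L := (le_div_iff₀ hLr).2 hν1
  have hν2' : c * ((b : ℝ) + 3) ≤ ν / L := by
    rw [le_div_iff₀ hLr]
    linarith
  have hc0 : 0 < c := by linarith
  obtain ⟨k1, k2⟩ := abs_le.1 r2'
  have e1 : (1 : ℝ) ≤ K := by
    have h6 : (1 / L : ℝ) ≤ s := le_trans (div_le_div_of_nonneg_right hl1r hLr.le) hs1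
    have h7 : (1 / L : ℝ) * ν ≤ s * ν := mul_le_mul_of_nonneg_right h6 hν0
    have h8 : (1 / L : ℝ) * ν = ν / L := by ring
    linarith
  have e2 : K ≤ N := by linarith
  have e3 : K ≤ c * ν := by
    have h6 : s ≤ c - 1 / L := by
      have h7 : ((l : ℝ) + 1) / L ≤ c - 1 / L := by
        rw [div_le_iff₀ hLr, sub_mul, one_div, inv_mul_cancel₀ hLr.ne']
        linarith
      linarith
    have h7 : s * ν ≤ (c - 1 / L) * ν := mul_le_mul_of_nonneg_right h6 hν0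
    have h8 : (c - 1 / L : ℝ) * ν = c * ν - ν / L := by ring
    linarith
  have e4 : ν ≤ c * K := by
    have h6 : 1 + 1 / (L : ℝ) ≤ c * s := by
      have h7 : c * ((l : ℝ) / L) ≤ c * s := mul_le_mul_of_nonneg_left hs1 hc0.le
      have h8 : 1 + 1 / (L : ℝ) ≤ c * ((l : ℝ) / L) := by
        rw [← mul_div_assoc, le_div_iff₀ hLr, add_mul, one_div, inv_mul_cancel₀ hLr.ne']
        linarith
      linarith
    have h7 : (1 + 1 / (L : ℝ)) * ν ≤ c * s * ν := mul_le_mul_of_nonneg_right h6 hν0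
    have h8 : (1 + 1 / (L : ℝ)) * ν = ν + ν / L := by ring
    have h9 : c * (s * ν - (b + 3)) ≤ c * K := mul_le_mul_of_nonneg_left (by linarith) hc0.le
    have h10 : c * (s * ν - (b + 3)) = c * s * ν - c * (b + 3) := by ring
    linarith
  rw [mem_GG]
  refine ⟨q1, q2, q3, ?_, ?_, ?_, ?_⟩
  · rw [hK] at e1
    exact_mod_cast e1
  · rw [hK] at e2
    exact_mod_cast e2
  · rw [hK, hν] at e3
    rw [one_div, inv_mul_le_iff₀ hc0]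
    exact e3
  · rw [hK, hν] at e4
    exact e4

private theorem D7_uniq {L m : ℕ} (hm : 0 < m) {i i' : ℕ} {j : ℤ} (h1 : (i : ℤ) * m < L * j)
    (h2 : L * j ≤ (i : ℤ) * m + m) (h1' : (i' : ℤ) * m < L * j) (h2' : L * j ≤ (i' : ℤ) * m + m) :
    i = i' := by
  have hm0 : (0 : ℤ) < m := by exact_mod_cast hm
  have h3 : (i : ℤ) * m < ((i' : ℤ) + 1) * m := by linarith
  have h4 : (i' : ℤ) * m < ((i : ℤ) + 1) * m := by linarith
  have h5 := lt_of_mul_lt_mul_right h3 hm0.le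
  have h6 := lt_of_mul_lt_mul_right h4 hm0.le
  omega

/-- PROOF. Let `n1 ≥ n'` be large: `n1 > b`, `n1 ≥ b L`, `n1² ≥ (b + 4) L b²`, `n1² ≥ c L (b + 3) b²`. Let `i < L / b`, `l ∈ Ll c L`, `n1 ≤ m`, `m² ≤ (N - (b + 3)) / Ql` (so `Ql m² ≤ N - (b + 3)`, `ql_pos`; if `N < b + 3` there is no such `m`), `(j, y) ∈ Hq m L M (i m) (l m) j0 y0`,
i.e. `i m < L j ≤ (i + 1) m`, `l m < L y ≤ (l + 1) m`, `m t = j y + 1`. Then `j ≥ 1`, `b j < m`: `b L j ≤ b (i + 1) m ≤ L m`, and `b j = m` is impossible (`j` is prime to `m` and would divide it: `j = 1`, `m = b`). `y > l m / L ≥ m / L ≥ b`. `mk_frame`: the frame `x = ((m - b j, j), (y - b t, t))` with `tri b x = (m, (j, y))`.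
With `ν = nm v ≥ m² / b²` (`tri_ge`), `s = y / m`, `u = j / m`, `|kk - s ν| ≤ b + 3` (`tri_kk`): `s ≤ (l + 1) / L`, `Pb b u ≤ Pb b (i / L) + 15 b / L` (`pb_lip`): `kk ≤ s ν + b + 3 ≤ Ql m² + b + 3 ≤ N`. `kk ≥ (1 / L) m² / b² - (b + 3) ≥ 1`. `s ≤ c - 1 / L` (`l + 2 ≤ c L`): `kk ≤ (c - 1 / L) ν + b + 3 ≤ c ν`.
`c s ≥ c l / L ≥ (L + 1) / L`: `c kk ≥ c s ν - c (b + 3) ≥ ν + ν / L - c (b + 3) ≥ ν`. So `x ∈ GC` (`mem_GG`). Different `(i, l, m, (j, y))` give different frames (`(m, (j, y)) = tri b x`, and `i`, `l` are determined by it). -/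
theorem gc_lo {b M L : ℕ} (hb : 1 ≤ b) (hM : 0 < M) {c : ℝ} (hc : 1 < c) (hbL : b ∣ L) (hL : 30 * b ^ 3 ≤ L)
    (m0 : ℕ) (j0 y0 : ℤ) (n' : ℕ) : ∃ n1 : ℕ, n' ≤ n1 ∧ ∀ N : ℕ,
    ∑ i ∈ range (L / b), ∑ l ∈ Ll c L,
      ∑ m ∈ (Icc n1 ⌊√(((N : ℝ) - (b + 3)) / Ql b L i l)⌋₊).filter (fun m => m ≡ m0 [MOD M]),
        ((Hq m L M (i * m) (l * m) j0 y0).card : ℝ) ≤ ((GC c N b M m0 j0 y0).card : ℝ) := by
  classical
  have hL0 : 0 < L := by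
    have h6 : 0 < b ^ 3 := by positivity
    omega
  obtain ⟨n1, hn1d⟩ : ∃ n1 : ℕ, n1 = n' + b + 1 + b * L + (b + 4) * L * b ^ 2 +
      ⌈c * L * (b + 3) * b ^ 2⌉₊ := ⟨_, rfl⟩
  have hn0 : n' ≤ n1 := by rw [hn1d]; linarith [Nat.zero_le (b * L), Nat.zero_le ((b + 4) * L * b ^ 2), Nat.zero_le b, Nat.zero_le ⌈c * L * (b + 3) * b ^ 2⌉₊]
  have hn1 : b < n1 := by rw [hn1d]; linarith [Nat.zero_le (b * L), Nat.zero_le ((b + 4) * L * b ^ 2), Nat.zero_le n', Nat.zero_le ⌈c * L * (b + 3) * b ^ 2⌉₊]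
  have hn2 : b * L ≤ n1 := by rw [hn1d]; linarith [Nat.zero_le b, Nat.zero_le ((b + 4) * L * b ^ 2), Nat.zero_le n', Nat.zero_le ⌈c * L * (b + 3) * b ^ 2⌉₊]
  have hsq : n1 ≤ n1 ^ 2 := by
    rw [pow_two]
    exact Nat.le_mul_of_pos_left n1 (by omega)
  have hn3 : (b + 4) * L * b ^ 2 ≤ n1 ^ 2 := by
    refine le_trans ?_ hsq
    rw [hn1d]; linarith [Nat.zero_le b, Nat.zero_le (b * L), Nat.zero_le n', Nat.zero_le ⌈c * L * (b + 3) * b ^ 2⌉₊]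
  have hn4 : c * L * (b + 3) * b ^ 2 ≤ (n1 : ℝ) ^ 2 := by
    have h6 : ⌈c * L * (b + 3) * b ^ 2⌉₊ ≤ n1 := by
      rw [hn1d]; linarith [Nat.zero_le b, Nat.zero_le (b * L), Nat.zero_le n', Nat.zero_le ((b + 4) * L * b ^ 2)]
    have h7 : c * L * (b + 3) * b ^ 2 ≤ (n1 : ℝ) := (Nat.le_ceil _).trans (by exact_mod_cast h6)
    have h8 : (n1 : ℝ) ≤ (n1 : ℝ) ^ 2 := by exact_mod_cast hsq
    linarith
  refine ⟨n1, hn0, fun N => ?_⟩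
  obtain ⟨F, hF⟩ : ∃ F : ℕ → ℕ → Finset ℕ, F = fun i l =>
    (Icc n1 ⌊√(((N : ℝ) - (b + 3)) / Ql b L i l)⌋₊).filter (fun m => m ≡ m0 [MOD M]) := ⟨_, rfl⟩
  obtain ⟨T, hT⟩ : ∃ T : Finset (Σ _ : ℕ, Σ _ : ℕ, Σ _ : ℕ, ℤ × ℤ), T =
    (range (L / b)).sigma fun i => (Ll c L).sigma fun l => (F i l).sigma fun m =>
      Hq m L M (i * m) (l * m) j0 y0 := ⟨_, rfl⟩
  have hcard : ∑ i ∈ range (L / b), ∑ l ∈ Ll c L,
      ∑ m ∈ (Icc n1 ⌊√(((N : ℝ) - (b + 3)) / Ql b L i l)⌋₊).filter (fun m => m ≡ m0 [MOD M]),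
        ((Hq m L M (i * m) (l * m) j0 y0).card : ℝ) = (T.card : ℝ) := by
    rw [hT, card_sigma]
    push_cast
    refine sum_congr rfl fun i _ => ?_
    rw [card_sigma]
    push_cast
    refine sum_congr rfl fun l _ => ?_
    rw [card_sigma, hF]
    push_cast
    rfl
  rw [hcard]
  have hmem : ∀ z ∈ T, (z.1 < L / b ∧ z.2.1 ∈ Ll c L ∧ n1 ≤ z.2.2.1 ∧
      z.2.2.1 ≤ ⌊√(((N : ℝ) - (b + 3)) / Ql b L z.1 z.2.1)⌋₊ ∧ z.2.2.1 ≡ m0 [MOD M]) ∧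
      (z.1 : ℤ) * z.2.2.1 < L * z.2.2.2.1 ∧ L * z.2.2.2.1 ≤ (z.1 : ℤ) * z.2.2.1 + z.2.2.1 ∧
      (z.2.1 : ℤ) * z.2.2.1 < L * z.2.2.2.2 ∧ L * z.2.2.2.2 ≤ (z.2.1 : ℤ) * z.2.2.1 + z.2.2.1 ∧
      (z.2.2.1 : ℤ) ∣ z.2.2.2.1 * z.2.2.2.2 + 1 ∧ (M : ℤ) ∣ z.2.2.2.1 - j0 ∧
      (M : ℤ) ∣ z.2.2.2.2 - y0 := by
    intro z hz
    rw [hT, mem_sigma, mem_sigma, mem_sigma, hF, mem_range] at hz
    obtain ⟨z1, z2, z3, z4⟩ := hz
    rw [mem_filter, mem_Icc] at z3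
    exact ⟨⟨z1, z2, z3.1.1, z3.1.2, z3.2⟩, D7_hq hL0 z4⟩
  have hex : ∀ z : Σ _ : ℕ, Σ _ : ℕ, Σ _ : ℕ, ℤ × ℤ, ∃ x : (ℤ × ℤ) × (ℤ × ℤ), z ∈ T →
      tri b x = ((z.2.2.1 : ℤ), (z.2.2.2.1, z.2.2.2.2)) ∧ x ∈ GG (1 / c) c N := by
    intro z
    by_cases hz : z ∈ T
    · obtain ⟨⟨z1, z2, z3, z4, -⟩, z5, z6, z7, z8, z9, -, -⟩ := hmem z hz
      obtain ⟨x, hx1, hx2⟩ := D7_cell hb hc hL hL0 hn1 hn2 hn3 hn4 z1 z2 z3 z4 z5 z6 z7 z8 z9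
      exact ⟨x, fun _ => ⟨hx1, hx2⟩⟩
    · exact ⟨((0, 0), (0, 0)), fun h => absurd h hz⟩
  choose f hf using hex
  have hle : T.card ≤ (GC c N b M m0 j0 y0).card := by
    refine card_le_card_of_injOn f ?_ ?_
    · intro z hz
      have hz' : z ∈ T := hz
      obtain ⟨⟨-, -, -, -, z5⟩, -, -, -, -, -, z6, z7⟩ := hmem z hz'
      obtain ⟨f1, f2⟩ := hf z hz'
      rw [mem_coe]
      unfold GC
      rw [mem_filter, f1]
      exact ⟨f2, dvd_sub_comm.1 (Nat.modEq_iff_dvd.1 z5), z6, z7⟩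
    · intro z hz z' hz' hzz
      have hz1 : z ∈ T := hz
      have hz1' : z' ∈ T := hz'
      obtain ⟨f1, -⟩ := hf z hz1
      obtain ⟨f1', -⟩ := hf z' hz1'
      have hzz' : f z = f z' := hzz
      rw [hzz', f1'] at f1
      obtain ⟨⟨-, -, g1, -⟩, g2, g3, g4, g5, -⟩ := hmem z hz1
      obtain ⟨-, g2', g3', g4', g5', -⟩ := hmem z' hz1'
      obtain ⟨i, l, m, j, y⟩ := z
      obtain ⟨i', l', m', j', y'⟩ := z'
      have e1 : (m' : ℤ) = m := congrArg (fun w : ℤ × (ℤ × ℤ) => w.1) f1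
      have e2 : j' = j := congrArg (fun w : ℤ × (ℤ × ℤ) => w.2.1) f1
      have e3 : y' = y := congrArg (fun w : ℤ × (ℤ × ℤ) => w.2.2) f1
      have e1' : m' = m := by exact_mod_cast e1
      subst e1' e2 e3
      have g1' : n1 ≤ m' := g1
      have hm' : 0 < m' := by omega
      have e4 : i = i' := D7_uniq hm' g2 g3 g2' g3'
      have e5 : l = l' := D7_uniq hm' g4 g5 g4' g5'
      subst e4 e5
      rfl
  exact_mod_cast hle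

end Pool.Agent.Lib.MP_d57abb_ntW
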