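import Pool.Agent.Lib.MP_d57abb_ntW.D2
import Pool.Agent.Lib.MP_d57abb_ntW.D3
import Pool.Agent.Lib.MP_d57abb_ntW.D7

/-!
# Leaf D9b: the cells, limits
-/

set_option autoImplicit false

namespace Pool.Agent.Lib.MP_d57abb_ntW

open Finset Filter Topology Pool.Agent.Lib.MP_d57abb_nt Pool.Agent.Lib.MP_d57abb_nt.GA.TA Pool.Agent.Lib.MP_d57abb_nt.GA.TS
  Pool.Agent.Lib.MP_d57abb_nt.GA.TZ

attribute [local instance] GT.lab0

private lemma d9b_lim (M m0 : ℕ) {l : ℝ} (hl : Tendsto (fun Y : ℝ => Ph M m0 Y / Y ^ 2) atTop (𝓝 l)) {q : ℝ}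
    (hq : 0 < q) (B K : ℝ) :
    Tendsto (fun N : ℕ => (Ph M m0 (√(((N : ℝ) - B) / q)) - K) / N) atTop (𝓝 (l / q)) := by
  have hN : Tendsto (fun N : ℕ => (N : ℝ) - B) atTop atTop :=
    tendsto_atTop_add_const_right _ (-B) tendsto_natCast_atTop_atTop
  have hY : Tendsto (fun N : ℕ => √(((N : ℝ) - B) / q)) atTop atTop :=
    Real.tendsto_sqrt_atTop.comp (Tendsto.atTop_div_const hq hN)
  have h1 : Tendsto (fun N : ℕ => Ph M m0 (√(((N : ℝ) - B) / q)) / (√(((N : ℝ) - B) / q)) ^ 2) atTop (𝓝 l) :=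
    hl.comp hY
  have h0 : Tendsto (fun N : ℕ => B / (N : ℝ)) atTop (𝓝 0) := tendsto_const_div_atTop_nhds_zero_nat B
  have h3 : Tendsto (fun N : ℕ => K / (N : ℝ)) atTop (𝓝 0) := tendsto_const_div_atTop_nhds_zero_nat K
  have h2 : Tendsto (fun N : ℕ => (1 - B / (N : ℝ)) / q) atTop (𝓝 ((1 - 0) / q)) :=
    (tendsto_const_nhds.sub h0).div_const q
  have h4 := (h1.mul h2).sub h3
  have e : l * ((1 - 0) / q) - 0 = l / q := by ring
  rw [e] at h4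
  refine h4.congr' ?_
  filter_upwards [hN.eventually_gt_atTop 0, eventually_gt_atTop 0] with N hN1 hN2
  have hNp : (0 : ℝ) < N := by exact_mod_cast hN2
  have hpos : 0 < ((N : ℝ) - B) / q := div_pos hN1 hq
  rw [Real.sq_sqrt hpos.le]
  have hN1' : (N : ℝ) - B ≠ 0 := hN1.ne'
  have hNn : (N : ℝ) ≠ 0 := hNp.ne'
  have hqn : q ≠ 0 := hq.ne'
  field_simp

private lemma d9b_cop {M m0 m : ℕ} (h0 : m0.Coprime M) (h : m ≡ m0 [MOD M]) : m.Coprime M := by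
  have h1 := Nat.ModEq.gcd_eq h
  rw [Nat.Coprime] at h0 ⊢
  rw [h1, h0]

/-- The sum over the `m` of one cell. -/
private lemma d9b_cell {M L : ℕ} (m0 : ℕ) (h0 : m0.Coprime M) (j0 y0 : ℤ) {ε : ℝ} {n0 n1 : ℕ} (hε1 : ε < 1)
    (hn : n0 ≤ n1)
    (hq : ∀ n : ℕ, n0 ≤ n → n.Coprime M →
      ∀ a b j y : ℤ, (1 - ε) * n.totient / ((L : ℝ) * M) ^ 2 ≤ ((Hq n L M a b j y).card : ℝ)) (i l : ℕ) (Y : ℝ) :
    (1 - ε) / ((L : ℝ) * M) ^ 2 * (Ph M m0 Y - ∑ m ∈ range n1, (m.totient : ℝ)) ≤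
      ∑ m ∈ (Icc n1 ⌊Y⌋₊).filter (fun m => m ≡ m0 [MOD M]), ((Hq m L M (i * m) (l * m) j0 y0).card : ℝ) := by
  have h1 : Ph M m0 Y - ∑ m ∈ range n1, (m.totient : ℝ) ≤
      ∑ m ∈ (Icc n1 ⌊Y⌋₊).filter (fun m => m ≡ m0 [MOD M]), (m.totient : ℝ) := by
    have hsub : (Icc 1 ⌊Y⌋₊).filter (fun m => m ≡ m0 [MOD M]) ⊆
        range n1 ∪ (Icc n1 ⌊Y⌋₊).filter (fun m => m ≡ m0 [MOD M]) := by
      intro m hm
      rw [mem_filter, mem_Icc] at hm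
      rw [mem_union, mem_filter, mem_Icc, mem_range]
      rcases lt_or_ge m n1 with h | h
      · exact Or.inl h
      · exact Or.inr ⟨⟨h, hm.1.2⟩, hm.2⟩
    have h2 : Ph M m0 Y ≤ ∑ m ∈ range n1 ∪ (Icc n1 ⌊Y⌋₊).filter (fun m => m ≡ m0 [MOD M]), (m.totient : ℝ) := by
      unfold Ph
      exact sum_le_sum_of_subset_of_nonneg hsub (fun _ _ _ => Nat.cast_nonneg _)
    have h3 : ∑ m ∈ range n1 ∪ (Icc n1 ⌊Y⌋₊).filter (fun m => m ≡ m0 [MOD M]), (m.totient : ℝ) ≤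
        ∑ m ∈ range n1, (m.totient : ℝ) +
          ∑ m ∈ (Icc n1 ⌊Y⌋₊).filter (fun m => m ≡ m0 [MOD M]), (m.totient : ℝ) := by
      rw [← sum_union_inter]
      exact le_add_of_nonneg_right (sum_nonneg (fun _ _ => Nat.cast_nonneg _))
    linarith
  have hc : 0 ≤ (1 - ε) / ((L : ℝ) * M) ^ 2 := div_nonneg (by linarith) (sq_nonneg _)
  refine (mul_le_mul_of_nonneg_left h1 hc).trans ?_
  rw [mul_sum]
  refine sum_le_sum fun m hm => ?_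
  rw [mem_filter, mem_Icc] at hm
  refine le_trans (le_of_eq ?_) (hq m (hn.trans hm.1.1) (d9b_cop h0 hm.2) (i * m) (l * m) j0 y0)
  ring

/-- PROOF. As `cell_up`, with `hq_lo` and `gc_lo`: the sum over `m` is at least `(1 - ε) / (L M)² * (Ph M m0 Y - ∑_(m < n1) φ(m))`, `Y = √((N - (b + 3)) / Ql)` (if `ε > 1` the claim is trivial: the right side is `≤ 0`, or treat `ε < 1` only, as the right side is decreasing in `ε`; `0 ≤ l`, `0 ≤ Lo`). -/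
theorem cell_lo {b M L : ℕ} (hb : 1 ≤ b) (hM : 0 < M) {c : ℝ} (hc : 1 < c) (hbL : b ∣ L) (hL : 30 * b ^ 3 ≤ L)
    (m0 : ℕ) (h0 : m0.Coprime M) (j0 y0 : ℤ) {l : ℝ}
    (hl : Tendsto (fun Y : ℝ => Ph M m0 Y / Y ^ 2) atTop (𝓝 l)) {ε : ℝ} (hε : 0 < ε) (hε1 : ε < 1) :
    ∀ᶠ N : ℕ in atTop, (1 - ε) * (l / (M : ℝ) ^ 2) * Lo b c L - ε ≤ ((GC c N b M m0 j0 y0).card : ℝ) / N := by
  have hL0 : 0 < L := by
    have h1 : 1 ≤ b ^ 3 := Nat.one_le_pow _ _ hb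
    omega
  obtain ⟨n0, hn0⟩ := hq_lo L M hL0 hM ε hε
  obtain ⟨n1, hn1, hgc⟩ := gc_lo (b := b) (M := M) (L := L) hb hM hc hbL hL m0 j0 y0 n0
  have hF : Tendsto (fun N : ℕ => ∑ i ∈ range (L / b), ∑ k ∈ Ll c L,
      (1 - ε) / ((L : ℝ) * M) ^ 2 *
        ((Ph M m0 (√(((N : ℝ) - (b + 3)) / Ql b L i k)) - ∑ m ∈ range n1, (m.totient : ℝ)) / N)) atTop
      (𝓝 (∑ i ∈ range (L / b), ∑ k ∈ Ll c L, (1 - ε) / ((L : ℝ) * M) ^ 2 * (l / Ql b L i k))) := by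
    refine tendsto_finsetSum _ fun i hi => tendsto_finsetSum _ fun k _ => ?_
    exact (d9b_lim M m0 hl (ql_pos hb hL (mem_range.mp hi)) _ _).const_mul _
  have hlim : ∑ i ∈ range (L / b), ∑ k ∈ Ll c L, (1 - ε) / ((L : ℝ) * M) ^ 2 * (l / Ql b L i k) =
      (1 - ε) * (l / (M : ℝ) ^ 2) * Lo b c L := by
    unfold Lo
    rw [mul_sum]
    refine sum_congr rfl fun i hi => ?_
    rw [mul_sum]
    refine sum_congr rfl fun k _ => ?_
    have hq : Ql b L i k ≠ 0 := (ql_pos hb hL (mem_range.mp hi)).ne'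
    have hLn : (L : ℝ) ≠ 0 := by exact_mod_cast hL0.ne'
    have hMn : (M : ℝ) ≠ 0 := by exact_mod_cast hM.ne'
    field_simp
  rw [hlim] at hF
  filter_upwards [hF.eventually (lt_mem_nhds (sub_lt_self _ hε)), eventually_gt_atTop 0] with N hN1 hN2
  refine hN1.le.trans ?_
  have hNp : (0 : ℝ) < N := by exact_mod_cast hN2
  rw [le_div_iff₀ hNp]
  refine le_trans ?_ (hgc N)
  rw [sum_mul]
  refine sum_le_sum fun i _ => ?_
  rw [sum_mul]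
  refine sum_le_sum fun k _ => ?_
  refine le_trans (le_of_eq ?_) (d9b_cell m0 h0 j0 y0 hε1 hn1 hn0 i k _)
  field_simp

end Pool.Agent.Lib.MP_d57abb_ntW
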