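import Pool.Agent.Lib.MP_d57abb_ntW.D8
import Pool.Agent.Lib.MP_d57abb_ntW.D9a
import Pool.Agent.Lib.MP_d57abb_ntW.D9b

/-!
# Leaf D10: the frames in a class, limit
-/

set_option autoImplicit false

namespace Pool.Agent.Lib.MP_d57abb_ntW

open Finset Filter Topology Pool.Agent.Lib.MP_d57abb_nt Pool.Agent.Lib.MP_d57abb_nt.GA.TA Pool.Agent.Lib.MP_d57abb_nt.GA.TS
  Pool.Agent.Lib.MP_d57abb_nt.GA.TZ

attribute [local instance] GT.lab0

private theorem d10_eps {x d : ℝ} (hd : 0 < d) : ∃ ε : ℝ, 0 < ε ∧ ε < 1 ∧ ε * x + ε < d := by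
  have h1 : 0 < |x| + 1 := by positivity
  refine ⟨min (1 / 2) (d / (2 * (|x| + 1))), by positivity, lt_of_le_of_lt (min_le_left _ _) (by norm_num), ?_⟩
  set ε := min (1 / 2) (d / (2 * (|x| + 1))) with hε
  have h2 : 0 < ε := by positivity
  have h3 : ε ≤ d / (2 * (|x| + 1)) := min_le_right _ _
  have h4 : ε * (|x| + 1) ≤ d / 2 := by
    calc ε * (|x| + 1) ≤ d / (2 * (|x| + 1)) * (|x| + 1) := mul_le_mul_of_nonneg_right h3 h1.le
      _ = d / 2 := by field_simp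
  have h5 : ε * x ≤ ε * |x| := mul_le_mul_of_nonneg_left (le_abs_self x) h2.le
  nlinarith

private theorem d10_large {b : ℕ} (hb : 1 ≤ b) (c : ℝ) :
    ∀ᶠ n : ℕ in atTop, 30 * b ^ 3 ≤ b * n ∧ 2 * c + 1 ≤ ((b * n : ℕ) : ℝ) := by
  filter_upwards [eventually_ge_atTop (30 * b ^ 3 + ⌈2 * c + 1⌉₊)] with n hn
  have h1 : n ≤ b * n := Nat.le_mul_of_pos_left n hb
  refine ⟨by omega, ?_⟩
  have h2 : ⌈2 * c + 1⌉₊ ≤ b * n := by omega
  exact (Nat.le_ceil _).trans (by exact_mod_cast h2)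

/-- PROOF. `ph_lim`: `l`; `riem`: `K'`; `K = l / M² * K'`. For `δ > 0` take `L = b n` with `Up`, `Lo` within `δ` of `K' log c`, `30 b ^ 3 ≤ L`, `2 c + 1 ≤ L`, and then `ε` small in `cell_up`, `cell_lo`: eventually `|card / N - K log c| ≤ C δ`. -/
theorem gc_lim {b M : ℕ} (hb : 1 ≤ b) (hM : 0 < M) (m0 : ℕ) (h0 : m0.Coprime M) (j0 y0 : ℤ) : ∃ K : ℝ, 0 ≤ K ∧
    ∀ c : ℝ, 1 < c → Tendsto (fun N : ℕ => ((GC c N b M m0 j0 y0).card : ℝ) / N) atTop (𝓝 (K * Real.log c)) := by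
  obtain ⟨l, hl0, hl⟩ := ph_lim M m0 hM h0
  obtain ⟨K', hK', hr⟩ := riem hb
  refine ⟨l / (M : ℝ) ^ 2 * K', by positivity, fun c hc => ?_⟩
  obtain ⟨hU, hL⟩ := hr c hc
  rw [tendsto_order]
  constructor
  · intro a ha
    have h1 : Tendsto (fun n : ℕ => l / (M : ℝ) ^ 2 * Lo b c (b * n)) atTop
        (𝓝 (l / (M : ℝ) ^ 2 * (K' * Real.log c))) := hL.const_mul _
    rw [mul_assoc] at ha
    obtain ⟨n, hn1, hn2, -⟩ := ((h1.eventually (lt_mem_nhds ha)).and (d10_large hb c)).exists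
    obtain ⟨ε, hε0, hε1, hε2⟩ := d10_eps (x := l / (M : ℝ) ^ 2 * Lo b c (b * n)) (sub_pos.2 hn1)
    filter_upwards [cell_lo hb hM hc (dvd_mul_right b n) hn2 m0 h0 j0 y0 hl hε0 hε1] with N hN
    refine lt_of_lt_of_le ?_ hN
    have h2 : (1 - ε) * (l / (M : ℝ) ^ 2) * Lo b c (b * n) - ε =
        l / (M : ℝ) ^ 2 * Lo b c (b * n) - (ε * (l / (M : ℝ) ^ 2 * Lo b c (b * n)) + ε) := by ring
    rw [h2]
    linarith
  · intro a ha
    have h1 : Tendsto (fun n : ℕ => l / (M : ℝ) ^ 2 * Up b c (b * n)) atTop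
        (𝓝 (l / (M : ℝ) ^ 2 * (K' * Real.log c))) := hU.const_mul _
    rw [mul_assoc] at ha
    obtain ⟨n, hn1, hn2, hn3⟩ := ((h1.eventually (gt_mem_nhds ha)).and (d10_large hb c)).exists
    obtain ⟨ε, hε0, hε1, hε2⟩ := d10_eps (x := l / (M : ℝ) ^ 2 * Up b c (b * n)) (sub_pos.2 hn1)
    filter_upwards [cell_up hb hM hc (dvd_mul_right b n) hn2 hn3 m0 h0 j0 y0 hl hε0] with N hN
    refine lt_of_le_of_lt hN ?_
    have h2 : (1 + ε) * (l / (M : ℝ) ^ 2) * Up b c (b * n) + ε =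
        l / (M : ℝ) ^ 2 * Up b c (b * n) + (ε * (l / (M : ℝ) ^ 2 * Up b c (b * n)) + ε) := by ring
    rw [h2]
    linarith

end Pool.Agent.Lib.MP_d57abb_ntW
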