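import Pool.Agent.Lib.MP_d57abb_ntW.D4
import Pool.Agent.Lib.MP_d57abb_ntW.D10

/-!
# Leaf D11: the frames in any class of `SL₂` modulo `M`, limit
-/

set_option autoImplicit false

namespace Pool.Agent.Lib.MP_d57abb_ntW

open Finset Filter Topology Pool.Agent.Lib.MP_d57abb_nt Pool.Agent.Lib.MP_d57abb_nt.GA.TA Pool.Agent.Lib.MP_d57abb_nt.GA.TS
  Pool.Agent.Lib.MP_d57abb_nt.GA.TZ

attribute [local instance] GT.lab0

private theorem d11_b {M : ℕ} (hM : 0 < M) {a t : ℤ}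
    (h : ∀ p : ℕ, p.Prime → p ∣ M → (p : ℤ) ∣ a → ¬ (p : ℤ) ∣ t) :
    ∃ b : ℕ, 1 ≤ b ∧ ∀ p : ℕ, p.Prime → p ∣ M → ¬ (p : ℤ) ∣ a + b * t := by
  classical
  obtain ⟨B, hB⟩ : ∃ B : ℕ, B = ∏ p ∈ M.primeFactors.filter (fun p : ℕ => ¬ (p : ℤ) ∣ a), p := ⟨_, rfl⟩
  refine ⟨B, ?_, ?_⟩
  · rw [hB]
    exact Finset.prod_pos fun p hp => (Nat.prime_of_mem_primeFactors (mem_filter.1 hp).1).pos
  · intro p hp hpM hdiv
    by_cases ha : (p : ℤ) ∣ a
    · have h1 : (p : ℤ) ∣ (B : ℤ) * t := (dvd_add_right ha).1 hdiv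
      rcases (Nat.prime_iff_prime_int.1 hp).dvd_or_dvd h1 with h2 | h2
      · have h3 : p ∣ B := Int.natCast_dvd_natCast.1 h2
        rw [hB] at h3
        obtain ⟨q, hq, hpq⟩ := (hp.prime.dvd_finsetProd_iff _).1 h3
        have h4 := (Nat.prime_dvd_prime_iff_eq hp (Nat.prime_of_mem_primeFactors (mem_filter.1 hq).1)).1 hpq
        rw [h4] at ha
        exact (mem_filter.1 hq).2 ha
      · exact h p hp hpM ha h2
    · have h1 : p ∣ B := by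
        rw [hB]
        exact Finset.dvd_prod_of_mem (fun p : ℕ => p)
          (mem_filter.2 ⟨Nat.mem_primeFactors.2 ⟨hp, hpM, hM.ne'⟩, ha⟩)
      have h2 : (p : ℤ) ∣ (B : ℤ) * t := Dvd.dvd.mul_right (Int.natCast_dvd_natCast.2 h1) t
      exact ha ((dvd_add_left h2).1 hdiv)

/-- PROOF. If `M` does not divide `r₁₁ r₂₂ - r₂₁ r₁₂ - 1` then `GD` is empty (`dt v w = 1` for its frames): `K = 0`. Else there is `b`, `1 ≤ b ≤ M`, with `r₁₁ + b r₁₂` prime to `M` (Chinese remainder theorem: modulo a prime `p ∣ M` take `b = 0` if `p ∤ r₁₁`, `b = 1` if `p ∣ r₁₁` (then `p ∤ r₁₂`); or `Nat.chineseRemainder`,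
or: `Int.gcd` and the product of the primes dividing `M` but not `r₁₁`; `b + M` is as good as `b`). Let `m0 : ℕ` be the residue of `r₁₁ + b r₁₂` modulo `M`, `j0 = r₁₂`, `y0 = r₂₁ + b r₂₂`: `GD c N M r = GC c N b M m0 j0 y0`. Inclusion from right to left: `m w₂ = j y + 1` (`tri_spec`), so `m0 w₂ = j0 y0 + 1 = m0 r₂₂` modulo `M`,
`w₂ = r₂₂` and then `w₁ = y - b w₂ = r₂₁`; `v₁ = m - b j = r₁₁`. -/
theorem gd_lim (M : ℕ) (hM : 0 < M) (r : (ℤ × ℤ) × (ℤ × ℤ)) : ∃ K : ℝ, 0 ≤ K ∧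
    ∀ c : ℝ, 1 < c → Tendsto (fun N : ℕ => ((GD c N M r).card : ℝ) / N) atTop (𝓝 (K * Real.log c)) := by
  classical
  by_cases hr : (M : ℤ) ∣ r.1.1 * r.2.2 - r.2.1 * r.1.2 - 1
  · obtain ⟨b, hb, hbp⟩ := d11_b hM (a := r.1.1) (t := r.1.2) (fun p hp hpM h1 h2 => by
      have h3 : (p : ℤ) ∣ (M : ℤ) := Int.natCast_dvd_natCast.2 hpM
      have h4 := h3.trans hr
      have h5 : (p : ℤ) ∣ ((1 : ℕ) : ℤ) := by
        have h6 : ((1 : ℕ) : ℤ) = r.1.1 * r.2.2 - r.2.1 * r.1.2 - (r.1.1 * r.2.2 - r.2.1 * r.1.2 - 1) := by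
          push_cast
          ring
        rw [h6]
        exact dvd_sub (dvd_sub (h1.mul_right _) (h2.mul_left _)) h4
      exact hp.one_lt.ne' (Nat.dvd_one.1 (Int.natCast_dvd_natCast.1 h5)))
    obtain ⟨m0, hm0⟩ : ∃ m0 : ℕ, (m0 : ℤ) = (r.1.1 + b * r.1.2) % M :=
      ⟨((r.1.1 + b * r.1.2) % M).toNat, Int.toNat_of_nonneg (Int.emod_nonneg _ (by exact_mod_cast hM.ne'))⟩
    have hm : (M : ℤ) ∣ r.1.1 + b * r.1.2 - m0 := by
      rw [hm0]
      exact Int.dvd_self_sub_of_emod_eq rfl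
    have hco : m0.Coprime M := by
      refine Nat.coprime_of_dvd fun p hp h1 h2 => ?_
      refine hbp p hp h2 ?_
      have h3 : (p : ℤ) ∣ r.1.1 + b * r.1.2 - m0 := (Int.natCast_dvd_natCast.2 h2).trans hm
      have h4 : (p : ℤ) ∣ (m0 : ℤ) := Int.natCast_dvd_natCast.2 h1
      exact (dvd_sub_left h4).1 h3
    obtain ⟨K, hK, h⟩ := gc_lim hb hM m0 hco r.1.2 (r.2.1 + b * r.2.2)
    refine ⟨K, hK, fun c hc => ?_⟩
    have heq : ∀ N : ℕ, GD c N M r = GC c N b M m0 r.1.2 (r.2.1 + b * r.2.2) := by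
      intro N
      unfold GD GC
      refine Finset.filter_congr fun x hx => ?_
      obtain ⟨-, -, hd, -⟩ := mem_GG.1 hx
      have hd' : x.1.1 * x.2.2 - x.2.1 * x.1.2 = 1 := hd
      show ((M : ℤ) ∣ x.1.1 - r.1.1 ∧ (M : ℤ) ∣ x.1.2 - r.1.2) ∧ (M : ℤ) ∣ x.2.1 - r.2.1 ∧ (M : ℤ) ∣ x.2.2 - r.2.2 ↔
        (M : ℤ) ∣ (x.1.1 + b * x.1.2) - m0 ∧ (M : ℤ) ∣ x.1.2 - r.1.2 ∧
          (M : ℤ) ∣ (x.2.1 + b * x.2.2) - (r.2.1 + b * r.2.2)
      constructor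
      · rintro ⟨⟨h1, h2⟩, h3, h4⟩
        refine ⟨?_, h2, ?_⟩
        · have e : (x.1.1 + b * x.1.2) - (m0 : ℤ) =
              (x.1.1 - r.1.1) + (b : ℤ) * (x.1.2 - r.1.2) + (r.1.1 + b * r.1.2 - m0) := by ring
          rw [e]
          exact dvd_add (dvd_add h1 (h2.mul_left _)) hm
        · have e : (x.2.1 + b * x.2.2) - (r.2.1 + b * r.2.2) =
              (x.2.1 - r.2.1) + (b : ℤ) * (x.2.2 - r.2.2) := by ring
          rw [e]
          exact dvd_add h3 (h4.mul_left _)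
      · rintro ⟨h1, h2, h3⟩
        have h4 : (M : ℤ) ∣ (m0 : ℤ) * (x.2.2 - r.2.2) := by
          have e : (m0 : ℤ) * (x.2.2 - r.2.2) = (x.1.1 * x.2.2 - x.2.1 * x.1.2 - 1)
              - (x.1.1 + b * x.1.2 - m0) * x.2.2
              + (x.1.2 - r.1.2) * (x.2.1 + b * x.2.2) + r.1.2 * ((x.2.1 + b * x.2.2) - (r.2.1 + b * r.2.2))
              - (r.1.1 * r.2.2 - r.2.1 * r.1.2 - 1) + (r.1.1 + b * r.1.2 - m0) * r.2.2 := by ring
          rw [e, hd', sub_self, zero_sub]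
          exact dvd_add (dvd_sub (dvd_add (dvd_add ((h1.mul_right _).neg_right) (h2.mul_right _)) (h3.mul_left _)) hr)
            (hm.mul_right _)
        have h5 : (M : ℤ) ∣ x.2.2 - r.2.2 :=
          (Int.isCoprime_iff_gcd_eq_one.2 (by rw [Int.gcd_natCast_natCast]; exact hco.symm)).dvd_of_dvd_mul_left h4
        refine ⟨⟨?_, h2⟩, ?_, h5⟩
        · have e : x.1.1 - r.1.1 = (x.1.1 + b * x.1.2 - m0) - (b : ℤ) * (x.1.2 - r.1.2)
              - (r.1.1 + b * r.1.2 - m0) := by ring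
          rw [e]
          exact dvd_sub (dvd_sub h1 (h2.mul_left _)) hm
        · have e : x.2.1 - r.2.1 = (x.2.1 + b * x.2.2) - (r.2.1 + b * r.2.2) - (b : ℤ) * (x.2.2 - r.2.2) := by ring
          rw [e]
          exact dvd_sub h3 (h5.mul_left _)
    simp only [heq]
    exact h c hc
  · refine ⟨0, le_rfl, fun c hc => ?_⟩
    have h1 : ∀ N : ℕ, GD c N M r = ∅ := by
      intro N
      refine Finset.eq_empty_of_forall_notMem fun x hx => hr ?_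
      unfold GD at hx
      obtain ⟨hx1, ⟨h1, h2⟩, h3, h4⟩ := mem_filter.1 hx
      obtain ⟨-, -, hd, -⟩ := mem_GG.1 hx1
      have hd' : x.1.1 * x.2.2 - x.2.1 * x.1.2 = 1 := hd
      have e : r.1.1 * r.2.2 - r.2.1 * r.1.2 - 1 = (x.1.1 * x.2.2 - x.2.1 * x.1.2 - 1)
          - (x.1.1 - r.1.1) * x.2.2 - r.1.1 * (x.2.2 - r.2.2)
          + (x.2.1 - r.2.1) * x.1.2 + r.2.1 * (x.1.2 - r.1.2) := by ring
      rw [e, hd', sub_self, zero_sub]
      exact dvd_add (dvd_add (dvd_sub ((h1.mul_right _).neg_right) (h4.mul_left _)) (h3.mul_right _)) (h2.mul_left _)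
    simp only [h1, card_empty, Nat.cast_zero, zero_div, zero_mul]
    exact tendsto_const_nhds

end Pool.Agent.Lib.MP_d57abb_ntW
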