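import Pool.Agent.Lib.MP_d57abb_ntW.D11

/-!
# Leaf D12: THE DENSITY THEOREM
-/

set_option autoImplicit false

namespace Pool.Agent.Lib.MP_d57abb_ntW

open Finset Filter Topology Pool.Agent.Lib.MP_d57abb_nt Pool.Agent.Lib.MP_d57abb_nt.GA.TA Pool.Agent.Lib.MP_d57abb_nt.GA.TS
  Pool.Agent.Lib.MP_d57abb_nt.GA.TZ

attribute [local instance] GT.lab0

/-- The residues of a frame. -/
private def d12_res (M : ℕ) (x : (ℤ × ℤ) × (ℤ × ℤ)) : (ℤ × ℤ) × (ℤ × ℤ) :=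
  ((x.1.1 % (M : ℤ), x.1.2 % (M : ℤ)), (x.2.1 % (M : ℤ), x.2.2 % (M : ℤ)))

private theorem d12_eq {M : ℕ} (u r : ℤ) (h0 : 0 ≤ r) (h1 : r < M) :
    u % (M : ℤ) = r ↔ (M : ℤ) ∣ u - r := by
  constructor
  · intro h
    rw [← h]
    exact Int.dvd_self_sub_emod
  · intro h
    have h2 : u % (M : ℤ) = r % (M : ℤ) := Int.emod_eq_emod_iff_emod_sub_eq_zero.2
      (Int.emod_eq_zero_of_dvd h)
    rw [h2, Int.emod_eq_of_lt h0 h1]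

private theorem d12_kk {M : ℕ} {v w r s : ℤ × ℤ} (h1 : (M : ℤ) ∣ v.1 - r.1) (h2 : (M : ℤ) ∣ v.2 - r.2)
    (h3 : (M : ℤ) ∣ w.1 - s.1) (h4 : (M : ℤ) ∣ w.2 - s.2) : (M : ℤ) ∣ kk v w - kk r s := by
  rw [← Int.modEq_iff_dvd] at h1 h2 h3 h4 ⊢
  unfold kk
  exact ((h1.mul h3).add (h2.mul h4)).add (((Int.ModEq.refl 3).mul h3).mul h2)

private theorem d12_P {M : ℕ} (a : ℕ) {k : ℤ} (hk : 1 ≤ k) :
    k.toNat ≡ a [MOD M] ↔ (M : ℤ) ∣ k - a := by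
  rw [Nat.modEq_iff_dvd, Int.toNat_of_nonneg (by omega), ← dvd_neg, neg_sub]

private theorem d12_card (M : ℕ) (hM : 0 < M) (a : ℕ) (c : ℝ) (N : ℕ) :
    ((GG (1 / c) c N).filter (fun x => (kk x.1 x.2).toNat ≡ a [MOD M])).card =
      ∑ r ∈ (((Ico (0 : ℤ) M ×ˢ Ico (0 : ℤ) M) ×ˢ (Ico (0 : ℤ) M ×ˢ Ico (0 : ℤ) M)).filter
        (fun r => (M : ℤ) ∣ kk r.1 r.2 - a)), (GD c N M r).card := by
  classical
  have hM' : (0 : ℤ) < M := by exact_mod_cast hM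
  have hb : ∀ u : ℤ, 0 ≤ u % (M : ℤ) ∧ u % (M : ℤ) < M := fun u =>
    ⟨Int.emod_nonneg _ hM'.ne', Int.emod_lt_of_pos _ hM'⟩
  have hdv : ∀ u : ℤ, (M : ℤ) ∣ u - u % (M : ℤ) := fun u => Int.dvd_self_sub_emod
  have hmaps : ∀ x ∈ (GG (1 / c) c N).filter (fun x => (kk x.1 x.2).toNat ≡ a [MOD M]),
      d12_res M x ∈ (((Ico (0 : ℤ) M ×ˢ Ico (0 : ℤ) M) ×ˢ (Ico (0 : ℤ) M ×ˢ Ico (0 : ℤ) M)).filter
        (fun r => (M : ℤ) ∣ kk r.1 r.2 - a)) := by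
    intro x hx
    obtain ⟨hx1, hx2⟩ := mem_filter.1 hx
    obtain ⟨-, -, -, h4, -, -⟩ := mem_GG.1 hx1
    rw [d12_P a h4] at hx2
    refine mem_filter.2 ⟨mem_product.2 ⟨mem_product.2 ⟨mem_Ico.2 (hb _), mem_Ico.2 (hb _)⟩,
      mem_product.2 ⟨mem_Ico.2 (hb _), mem_Ico.2 (hb _)⟩⟩, ?_⟩
    have h1 : (M : ℤ) ∣ kk x.1 x.2 - kk (d12_res M x).1 (d12_res M x).2 :=
      d12_kk (hdv _) (hdv _) (hdv _) (hdv _)
    have h2 := dvd_sub hx2 h1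
    have h3 : kk x.1 x.2 - (a : ℤ) - (kk x.1 x.2 - kk (d12_res M x).1 (d12_res M x).2) =
        kk (d12_res M x).1 (d12_res M x).2 - a := by ring
    rw [h3] at h2
    exact h2
  rw [Finset.card_eq_sum_card_fiberwise hmaps]
  refine sum_congr rfl fun r hr => ?_
  congr 1
  obtain ⟨hr1, hr2⟩ := mem_filter.1 hr
  obtain ⟨hr3, hr4⟩ := mem_product.1 hr1
  obtain ⟨hr5, hr6⟩ := mem_product.1 hr3
  obtain ⟨hr7, hr8⟩ := mem_product.1 hr4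
  rw [mem_Ico] at hr5 hr6 hr7 hr8
  ext x
  unfold GD
  rw [mem_filter, mem_filter, mem_filter]
  constructor
  · rintro ⟨⟨h1, h2⟩, h3⟩
    refine ⟨h1, ?_⟩
    rw [← h3]
    exact ⟨⟨hdv _, hdv _⟩, hdv _, hdv _⟩
  · rintro ⟨h1, ⟨g1, g2⟩, g3, g4⟩
    obtain ⟨-, -, -, h4, -, -⟩ := mem_GG.1 h1
    refine ⟨⟨h1, ?_⟩, ?_⟩
    · rw [d12_P a h4]
      have h5 := dvd_add (d12_kk g1 g2 g3 g4) hr2
      have h6 : kk x.1 x.2 - kk r.1 r.2 + (kk r.1 r.2 - a) = kk x.1 x.2 - a := by ring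
      rw [h6] at h5
      exact h5
    · unfold d12_res
      rw [(d12_eq _ _ hr5.1 hr5.2).2 g1, (d12_eq _ _ hr6.1 hr6.2).2 g2,
        (d12_eq _ _ hr7.1 hr7.2).2 g3, (d12_eq _ _ hr8.1 hr8.2).2 g4]

/-- PROOF. `sum_wn` (with `tc_wn`) for `P k = (k ≡ a [MOD M])`: the sum is the number of the frames `x ∈ GG (1 / c) c N` with `(kk v w).toNat ≡ a [MOD M]`; it is the disjoint union of the `GD c N M r` over the `r` with coordinates in `[0, M)` and `kk r₁ r₂ ≡ a` modulo `M`. -/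
theorem dens (M : ℕ) (hM : 0 < M) (a : ℕ) : ∃ K : ℝ, 0 ≤ K ∧ ∀ c : ℝ, 1 < c →
    Tendsto (fun N : ℕ => (∑ k ∈ (Icc 1 N).filter (fun k => k ≡ a [MOD M]), (tc c k : ℝ)) / N) atTop (𝓝 (K * Real.log c)) := by
  classical
  choose K hK0 hK using fun r => gd_lim M hM r
  obtain ⟨RS, hRS⟩ : ∃ RS : Finset ((ℤ × ℤ) × (ℤ × ℤ)), RS =
      ((Ico (0 : ℤ) M ×ˢ Ico (0 : ℤ) M) ×ˢ (Ico (0 : ℤ) M ×ˢ Ico (0 : ℤ) M)).filter
        (fun r => (M : ℤ) ∣ kk r.1 r.2 - a) := ⟨_, rfl⟩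
  refine ⟨∑ r ∈ RS, K r, Finset.sum_nonneg fun r _ => hK0 r, fun c hc => ?_⟩
  have h1 : ∀ N : ℕ, (∑ k ∈ (Icc 1 N).filter (fun k => k ≡ a [MOD M]), (tc c k : ℝ)) / N =
      ∑ r ∈ RS, ((GD c N M r).card : ℝ) / N := by
    intro N
    rw [← Finset.sum_div, ← Nat.cast_sum, ← Nat.cast_sum]
    congr 2
    rw [Finset.sum_congr rfl fun k _ => tc_wn c (by linarith) k,
      sum_wn (1 / c) c N (fun k => k ≡ a [MOD M]), d12_card M hM a c N, hRS]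
  simp only [h1]
  rw [Finset.sum_mul]
  exact tendsto_finsetSum _ fun r _ => hK r c hc

end Pool.Agent.Lib.MP_d57abb_ntW
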