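import Pool.Agent.Lib.MP_d57abb_ntW.DDefs

/-!
# Leaf D2a: the boxes and classes together contain `φ(n)` pairs
-/

set_option autoImplicit false

namespace Pool.Agent.Lib.MP_d57abb_ntW

open Finset Filter Topology Pool.Agent.Lib.MP_d57abb_nt Pool.Agent.Lib.MP_d57abb_nt.GA.TA Pool.Agent.Lib.MP_d57abb_nt.GA.TS
  Pool.Agent.Lib.MP_d57abb_nt.GA.TZ

attribute [local instance] GT.lab0

private lemma D2a_box (A B : ℤ) (L : ℕ) (hL : 0 < L) (x : ℤ) :
    x ∈ Ioc (A / L) (B / L) ↔ A < x * L ∧ x * L ≤ B := by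
  have hL' : (0 : ℤ) < L := by exact_mod_cast hL
  rw [mem_Ioc, Int.ediv_lt_iff_lt_mul hL', Int.le_ediv_iff_mul_le hL']

private lemma D2a_idx (a z : ℤ) (n i : ℕ) (hn : 0 < n) (h : a < z) :
    ((z - a - 1) / n).toNat = i ↔ a + i * n < z ∧ z ≤ a + i * n + n := by
  have hn' : (0 : ℤ) < n := by exact_mod_cast hn
  have h0 : 0 ≤ (z - a - 1) / n := Int.ediv_nonneg (by omega) hn'.le
  have h1 : (i : ℤ) ≤ (z - a - 1) / n ↔ (i : ℤ) * n ≤ z - a - 1 := Int.le_ediv_iff_mul_le hn'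
  have h2 : (z - a - 1) / n < (i : ℤ) + 1 ↔ z - a - 1 < ((i : ℤ) + 1) * n := Int.ediv_lt_iff_lt_mul hn'
  have h3 : ((i : ℤ) + 1) * n = i * n + n := by ring
  rw [h3] at h2
  constructor
  · intro h4
    have h5 : (z - a - 1) / n = i := by omega
    have h6 := h1.1 h5.ge
    have h7 := h2.1 (by omega)
    constructor <;> linarith
  · rintro ⟨h4, h5⟩
    have h6 := h1.2 (by linarith)
    have h7 := h2.2 (by linarith)
    omega

private lemma D2a_idx_lt (a z : ℤ) (n L : ℕ) (hn : 0 < n) (h : a < z) (h' : z ≤ a + L * n) :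
    ((z - a - 1) / n).toNat < L := by
  have hn' : (0 : ℤ) < n := by exact_mod_cast hn
  have h0 : 0 ≤ (z - a - 1) / n := Int.ediv_nonneg (by omega) hn'.le
  have h2 : (z - a - 1) / n < (L : ℤ) := (Int.ediv_lt_iff_lt_mul hn').2 (by linarith)
  omega

private lemma D2a_mod (z : ℤ) (M j : ℕ) (hj : j < M) : (z % M).toNat = j ↔ (M : ℤ) ∣ z - j := by
  have hM' : (0 : ℤ) < M := by omega
  have h0 : 0 ≤ z % M := Int.emod_nonneg _ hM'.ne'
  constructor
  · intro h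
    have h1 : z % M = j := by omega
    rw [← h1]
    exact Int.dvd_self_sub_emod
  · intro h
    have h1 : z % M = (j : ℤ) % M := (Int.emod_emod_of_dvd z (dvd_refl (M : ℤ))).symm.trans (by
      rw [Int.emod_emod_of_dvd z (dvd_refl (M : ℤ))]
      exact (Int.emod_eq_emod_iff_emod_sub_eq_zero).2 (Int.emod_eq_zero_of_dvd h))
    rw [h1, Int.emod_eq_of_lt (by omega) (by omega)]
    omega

private lemma D2a_mod_lt (z : ℤ) (M : ℕ) (hM : 0 < M) : (z % M).toNat < M := by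
  have hM' : (0 : ℤ) < M := by exact_mod_cast hM
  have h0 : 0 ≤ z % M := Int.emod_nonneg _ hM'.ne'
  have h1 : z % M < M := Int.emod_lt_of_pos _ hM'
  omega

/-- the representative in an interval -/
private lemma D2a_rep (A : ℤ) (n : ℕ) (hn : 0 < n) (z : ℤ) : ∃ x : ℤ, A < x ∧ x ≤ A + n ∧ ((x : ZMod n) = z) := by
  have hn' : (0 : ℤ) < n := by exact_mod_cast hn
  have h0 := Int.emod_nonneg (z - A - 1) hn'.ne'
  have h1 := Int.emod_lt_of_pos (z - A - 1) hn'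
  refine ⟨A + 1 + (z - A - 1) % n, by omega, by omega, ?_⟩
  rw [ZMod.intCast_eq_intCast_iff_dvd_sub]
  have h2 : z - (A + 1 + (z - A - 1) % n) = (z - A - 1) - (z - A - 1) % n := by ring
  rw [h2]
  exact Int.dvd_self_sub_emod

private lemma D2a_inj (A : ℤ) (n : ℕ) {x y : ℤ} (h1 : A < x) (h2 : x ≤ A + n) (h3 : A < y) (h4 : y ≤ A + n)
    (h : (x : ZMod n) = y) : x = y := by
  rw [ZMod.intCast_eq_intCast_iff_dvd_sub] at h
  have h5 := Int.eq_zero_of_abs_lt_dvd h (by rw [abs_lt]; constructor <;> omega)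
  omega

private lemma D2a_count (n : ℕ) (hn : 0 < n) (A B : ℤ) :
    ((Ioc A (A + n) ×ˢ Ioc B (B + n)).filter (fun x : ℤ × ℤ => (n : ℤ) ∣ x.1 * x.2 + 1)).card = n.totient := by
  have : NeZero n := ⟨hn.ne'⟩
  rw [← ZMod.card_units_eq_totient n, ← Finset.card_univ]
  have hkey : ∀ x : ℤ × ℤ, (n : ℤ) ∣ x.1 * x.2 + 1 → (x.1 : ZMod n) * (-(x.2 : ZMod n)) = 1 := by
    intro x hx
    have h1 := (ZMod.intCast_zmod_eq_zero_iff_dvd (x.1 * x.2 + 1) n).2 hx
    push_cast at h1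
    linear_combination -h1
  refine Finset.card_bij (fun x hx => ⟨(x.1 : ZMod n), -(x.2 : ZMod n), hkey x (mem_filter.1 hx).2,
    (mul_comm _ _).trans (hkey x (mem_filter.1 hx).2)⟩) (fun x hx => Finset.mem_univ _) ?_ ?_
  · intro x hx y hy h
    rw [mem_filter, mem_product, mem_Ioc, mem_Ioc] at hx hy
    have h1 : (x.1 : ZMod n) = y.1 := congrArg Units.val h
    have h2 : -(x.2 : ZMod n) = -(y.2 : ZMod n) := congrArg Units.inv h
    exact Prod.ext (D2a_inj A n hx.1.1.1 hx.1.1.2 hy.1.1.1 hy.1.1.2 h1)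
      (D2a_inj B n hx.1.2.1 hx.1.2.2 hy.1.2.1 hy.1.2.2 (neg_injective h2))
  · intro u _
    obtain ⟨z1, hz1⟩ := ZMod.intCast_surjective (u : ZMod n)
    obtain ⟨z2, hz2⟩ := ZMod.intCast_surjective (-((u⁻¹ : (ZMod n)ˣ) : ZMod n))
    obtain ⟨x1, h1, h2, h3⟩ := D2a_rep A n hn z1
    obtain ⟨x2, h4, h5, h6⟩ := D2a_rep B n hn z2
    rw [hz1] at h3
    rw [hz2] at h6
    refine ⟨(x1, x2), ?_, ?_⟩
    · rw [mem_filter, mem_product, mem_Ioc, mem_Ioc]
      refine ⟨⟨⟨h1, h2⟩, ⟨h4, h5⟩⟩, ?_⟩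
      refine (ZMod.intCast_zmod_eq_zero_iff_dvd (x1 * x2 + 1) n).1 ?_
      push_cast
      rw [h3, h6, mul_neg, Units.mul_inv]
      ring
    · exact Units.ext h3

/-- PROOF. The union over `i, l < L`, `j, y < M` is disjoint and is the set of the `x` with `a / L < x₁ ≤ a / L + n`, `b / L < x₂ ≤ b / L + n` (`(a + L n) / L = a / L + n`, `Int.add_mul_ediv_left`) and `n ∣ x₁ x₂ + 1`: given such an `x`, `i` is determined by
`a + i n < L x₁ ≤ a + (i + 1) n` and `j = x₁ % M`. This set is in bijection with `(ZMod n)ˣ` by `x ↦ x₁` (both coordinates run over complete systems of residues modulo `n`; `x₂ = - x₁⁻¹`), `ZMod.card_units_eq_totient`. -/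
theorem hq_sum (n L M : ℕ) (hn : 0 < n) (hL : 0 < L) (hM : 0 < M) (a b : ℤ) :
    ∑ i ∈ range L, ∑ l ∈ range L, ∑ j ∈ range M, ∑ y ∈ range M,
      (Hq n L M (a + i * n) (b + l * n) j y).card = n.totient := by
  classical
  have hn' : (0 : ℤ) < n := by exact_mod_cast hn
  have hL' : (0 : ℤ) < L := by exact_mod_cast hL
  have hT : ∀ A : ℤ, A / L + n = (A + L * n) / L := fun A => (Int.add_mul_ediv_left A n hL'.ne').symm
  rw [← D2a_count n hn (a / L) (b / L), hT, hT]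
  rw [Finset.card_eq_sum_card_fiberwise (f := fun x : ℤ × ℤ => (((x.1 * L - a - 1) / n).toNat,
    (((x.2 * L - b - 1) / n).toNat, ((x.1 % M).toNat, (x.2 % M).toNat))))
    (t := range L ×ˢ (range L ×ˢ (range M ×ˢ range M)))]
  · rw [Finset.sum_product]
    refine Finset.sum_congr rfl fun i hi => ?_
    rw [Finset.sum_product]
    refine Finset.sum_congr rfl fun l hl => ?_
    rw [Finset.sum_product]
    refine Finset.sum_congr rfl fun j hj => Finset.sum_congr rfl fun y hy => ?_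
    rw [mem_range] at hi hl hj hy
    have hiL : ((i : ℤ) + 1) * n ≤ L * n := mul_le_mul_of_nonneg_right (by omega) hn'.le
    have hlL : ((l : ℤ) + 1) * n ≤ L * n := mul_le_mul_of_nonneg_right (by omega) hn'.le
    have hi0 : 0 ≤ (i : ℤ) * n := by positivity
    have hl0 : 0 ≤ (l : ℤ) * n := by positivity
    congr 1
    ext x
    rw [Hq, mem_filter, mem_product, D2a_box _ _ L hL, D2a_box _ _ L hL, mem_filter, mem_filter,
      mem_product, D2a_box _ _ L hL, D2a_box _ _ L hL]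
    simp only [Prod.mk.injEq]
    constructor
    · rintro ⟨⟨⟨h1, h2⟩, ⟨h3, h4⟩⟩, h5, h6, h7⟩
      refine ⟨⟨⟨⟨by linarith, by linarith⟩, ⟨by linarith, by linarith⟩⟩, h5⟩, ?_, ?_, ?_, ?_⟩
      · exact (D2a_idx a _ n i hn (by linarith)).2 ⟨h1, h2⟩
      · exact (D2a_idx b _ n l hn (by linarith)).2 ⟨h3, h4⟩
      · exact (D2a_mod _ M j hj).2 h6
      · exact (D2a_mod _ M y hy).2 h7
    · rintro ⟨⟨⟨⟨h1, h2⟩, ⟨h3, h4⟩⟩, h5⟩, h6, h7, h8, h9⟩
      exact ⟨⟨(D2a_idx a _ n i hn h1).1 h6, (D2a_idx b _ n l hn h3).1 h7⟩, h5,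
        (D2a_mod _ M j hj).1 h8, (D2a_mod _ M y hy).1 h9⟩
  · intro x hx
    have hx' := Finset.mem_coe.1 hx
    rw [mem_filter, mem_product, D2a_box _ _ L hL, D2a_box _ _ L hL] at hx'
    obtain ⟨⟨⟨h1, h2⟩, ⟨h3, h4⟩⟩, -⟩ := hx'
    rw [Finset.mem_coe, mem_product, mem_product, mem_product, mem_range, mem_range, mem_range, mem_range]
    exact ⟨D2a_idx_lt a _ n L hn h1 h2, D2a_idx_lt b _ n L hn h3 h4, D2a_mod_lt _ M hM,
      D2a_mod_lt _ M hM⟩

end Pool.Agent.Lib.MP_d57abb_ntW
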