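import Pool.Agent.Lib.MP_d57abb_ntW.D1
import Pool.Agent.Lib.MP_d57abb_ntW.D2a

/-!
# Leaf D2: the pairs in small boxes and residue classes, lower bound
-/

set_option autoImplicit false

namespace Pool.Agent.Lib.MP_d57abb_ntW

open Finset Filter Topology Pool.Agent.Lib.MP_d57abb_nt Pool.Agent.Lib.MP_d57abb_nt.GA.TA Pool.Agent.Lib.MP_d57abb_nt.GA.TS
  Pool.Agent.Lib.MP_d57abb_nt.GA.TZ

attribute [local instance] GT.lab0

private theorem D2_mod (M : ℕ) (x j : ℤ) : (M : ℤ) ∣ x - j % M ↔ (M : ℤ) ∣ x - j := by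
  have h1 : x - j % M = (x - j) + M * (j / M) := by
    rw [Int.emod_def]
    ring
  rw [h1]
  exact dvd_add_left (Dvd.intro _ rfl)

private theorem D2_hq (n L M : ℕ) (a b j y : ℤ) : Hq n L M a b (j % M) (y % M) = Hq n L M a b j y := by
  unfold Hq
  refine Finset.filter_congr fun x _ => ?_
  rw [D2_mod, D2_mod]

/-- the other terms of a sum -/
private theorem D2_sum {κ : Type*} [DecidableEq κ] (s : Finset κ) (f : κ → ℕ) {x : κ} (hx : x ∈ s) {B : ℝ}
    (hB : ∀ y ∈ s, (f y : ℝ) ≤ B) : ((∑ y ∈ s, f y : ℕ) : ℝ) ≤ f x + (s.card - 1) * B := by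
  rw [← Finset.add_sum_erase s f hx, Nat.cast_add, Nat.cast_sum]
  refine (add_le_add_iff_left _).2 ?_
  refine (Finset.sum_le_card_nsmul (s.erase x) (fun y => (f y : ℝ)) B
    fun y hy => hB y (Finset.mem_of_mem_erase hy)).trans (le_of_eq ?_)
  rw [Finset.card_erase_of_mem hx, nsmul_eq_mul, Nat.cast_sub (Finset.card_pos.2 ⟨x, hx⟩), Nat.cast_one]

/-- PROOF. `hq_up` with `ε / (L M) ^ 2` for all boxes and classes, and `hq_sum` for `a`, `b`: the term `i = l = 0`, `j % M`, `y % M` (the set `Hq` only depends on the classes of `j`, `y` modulo `M`) is `φ(n)` minus the other `(L M) ^ 2 - 1` terms. -/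
theorem hq_lo (L M : ℕ) (hL : 0 < L) (hM : 0 < M) (ε : ℝ) (hε : 0 < ε) : ∃ n0 : ℕ, ∀ n : ℕ, n0 ≤ n → n.Coprime M →
    ∀ a b j y : ℤ, (1 - ε) * n.totient / ((L : ℝ) * M) ^ 2 ≤ ((Hq n L M a b j y).card : ℝ) := by
  have hL' : (1 : ℝ) ≤ L := by exact_mod_cast hL
  have hM' : (1 : ℝ) ≤ M := by exact_mod_cast hM
  obtain ⟨Q, hQ⟩ : ∃ Q : ℝ, Q = ((L : ℝ) * M) ^ 2 := ⟨_, rfl⟩
  have hLM : (1 : ℝ) ≤ (L : ℝ) * M := one_le_mul_of_one_le_of_one_le hL' hM'
  have hQ1 : 1 ≤ Q := by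
    rw [hQ]
    exact one_le_pow₀ hLM
  have hQ0 : 0 < Q := by linarith
  obtain ⟨n0, hn0⟩ := hq_up L M hL hM (ε / Q) (div_pos hε hQ0)
  refine ⟨max n0 1, fun n hn hc a b j y => ?_⟩
  have hup := hn0 n ((le_max_left _ _).trans hn) hc
  have hn1 : 0 < n := lt_of_lt_of_le one_pos ((le_max_right _ _).trans hn)
  have hM0 : (M : ℤ) ≠ 0 := by exact_mod_cast hM.ne'
  have hj0 : (((j % M).toNat : ℕ) : ℤ) = j % M := Int.toNat_of_nonneg (Int.emod_nonneg _ hM0)
  have hy0 : (((y % M).toNat : ℕ) : ℤ) = y % M := Int.toNat_of_nonneg (Int.emod_nonneg _ hM0)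
  have hj1 : (j % M).toNat < M := by
    have := Int.emod_lt_of_pos j (b := (M : ℤ)) (by exact_mod_cast hM)
    omega
  have hy1 : (y % M).toNat < M := by
    have := Int.emod_lt_of_pos y (b := (M : ℤ)) (by exact_mod_cast hM)
    omega
  obtain ⟨f, hf⟩ : ∃ f : ℕ × (ℕ × (ℕ × ℕ)) → ℕ,
      f = fun x => (Hq n L M (a + x.1 * n) (b + x.2.1 * n) x.2.2.1 x.2.2.2).card := ⟨_, rfl⟩
  obtain ⟨s, hs⟩ : ∃ s : Finset (ℕ × (ℕ × (ℕ × ℕ))), s = range L ×ˢ (range L ×ˢ (range M ×ˢ range M)) := ⟨_, rfl⟩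
  have hsum : ∑ x ∈ s, f x = n.totient := by
    rw [← hq_sum n L M hn1 hL hM a b, hs, Finset.sum_product]
    refine Finset.sum_congr rfl fun i _ => ?_
    rw [Finset.sum_product]
    refine Finset.sum_congr rfl fun l _ => ?_
    rw [Finset.sum_product]
    refine Finset.sum_congr rfl fun j' _ => Finset.sum_congr rfl fun y' _ => ?_
    rw [hf]
  have hmem : (0, (0, ((j % M).toNat, (y % M).toNat))) ∈ s := by
    rw [hs]
    simp only [Finset.mem_product, Finset.mem_range]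
    exact ⟨hL, hL, hj1, hy1⟩
  have hcard : (s.card : ℝ) = Q := by
    rw [hs, Finset.card_product, Finset.card_product, Finset.card_product, Finset.card_range, Finset.card_range, hQ]
    push_cast
    ring
  have hval : f (0, (0, ((j % M).toNat, (y % M).toNat))) = (Hq n L M a b j y).card := by
    rw [hf]
    show (Hq n L M (a + ((0 : ℕ) : ℤ) * n) (b + ((0 : ℕ) : ℤ) * n) (((j % M).toNat : ℕ) : ℤ)
      (((y % M).toNat : ℕ) : ℤ)).card = _
    rw [hj0, hy0, Nat.cast_zero, zero_mul, add_zero, add_zero, D2_hq]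
  have hB : ∀ x ∈ s, (f x : ℝ) ≤ (1 + ε / Q) * n.totient / Q := by
    intro x _
    rw [hf, hQ]
    rw [hQ] at hup
    exact hup _ _ _ _
  have hmain := D2_sum s f hmem hB
  rw [hsum, hcard, hval] at hmain
  rw [← hQ]
  have hT : (0 : ℝ) ≤ n.totient := Nat.cast_nonneg _
  obtain ⟨T, hT'⟩ : ∃ T : ℝ, T = n.totient := ⟨_, rfl⟩
  rw [← hT'] at hmain hT ⊢
  have e1 : (Q - 1) * ((1 + ε / Q) * T / Q) = T - (1 - ε) * T / Q - ε * T / Q ^ 2 := by
    field_simp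
    ring
  have e2 : 0 ≤ ε * T / Q ^ 2 := by positivity
  linarith

end Pool.Agent.Lib.MP_d57abb_ntW
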