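import Pool.Agent.Lib.MP_d57abb_ntW.DDefs

/-!
# Leaf D4: geometry of a sheared frame
-/

set_option autoImplicit false

namespace Pool.Agent.Lib.MP_d57abb_ntW

open Finset Filter Topology Pool.Agent.Lib.MP_d57abb_nt Pool.Agent.Lib.MP_d57abb_nt.GA.TA Pool.Agent.Lib.MP_d57abb_nt.GA.TS
  Pool.Agent.Lib.MP_d57abb_nt.GA.TZ

attribute [local instance] GT.lab0

/-- PROOF. `v₁ w₂ = 1 + w₁ v₂ ≥ 1`, so `v₁ ≥ 1`, `w₂ ≥ 1`; unfold. -/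
theorem tri_spec {b : ℕ} (hb : 1 ≤ b) {x : (ℤ × ℤ) × (ℤ × ℤ)} (hv : Qd x.1) (hw : Qd x.2) (h : dt x.1 x.2 = 1) :
    1 ≤ (tri b x).1 ∧ 0 ≤ (tri b x).2.1 ∧ (b : ℤ) * (tri b x).2.1 < (tri b x).1 ∧ (b : ℤ) ≤ (tri b x).2.2 ∧
      (tri b x).1 * x.2.2 = (tri b x).2.1 * (tri b x).2.2 + 1 := by
  obtain ⟨⟨v1, v2⟩, ⟨w1, w2⟩⟩ := x
  obtain ⟨h1, h2, -⟩ := hv
  obtain ⟨h3, h4, -⟩ := hw
  unfold dt at h
  simp only at h h1 h2 h3 h4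
  have hb1 : (1 : ℤ) ≤ b := by exact_mod_cast hb
  have h5 : 0 ≤ w1 * v2 := mul_nonneg h3 h2
  have h6 : 0 < v1 * w2 := by linarith
  have h7 : 1 ≤ v1 := by
    rcases h1.lt_or_eq with h8 | h8
    · exact h8
    · rw [← h8, zero_mul] at h6
      exact absurd h6 (lt_irrefl 0)
  have h8 : 1 ≤ w2 := by
    rcases h4.lt_or_eq with h9 | h9
    · exact h9
    · rw [← h9, mul_zero] at h6
      exact absurd h6 (lt_irrefl 0)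
  have h9 : 0 ≤ (b : ℤ) * v2 := mul_nonneg (by linarith) h2
  refine ⟨?_, ?_, ?_, ?_, ?_⟩
  · show 1 ≤ v1 + b * v2
    linarith
  · show 0 ≤ v2
    exact h2
  · show (b : ℤ) * v2 < v1 + b * v2
    linarith
  · show (b : ℤ) ≤ w1 + b * w2
    have h10 : (b : ℤ) * 1 ≤ b * w2 := mul_le_mul_of_nonneg_left h8 (by linarith)
    linarith
  · show (v1 + b * v2) * w2 = v2 * (w1 + b * w2) + 1
    linear_combination h

/-- PROOF. `v = (m - b j, j)`; divide by `m ^ 2`. -/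
theorem tri_nm {b : ℕ} {x : (ℤ × ℤ) × (ℤ × ℤ)} (h : (tri b x).1 ≠ 0) :
    ((nm x.1 : ℤ) : ℝ) = ((tri b x).1 : ℝ) ^ 2 * Pb b ((tri b x).2.1 / (tri b x).1) := by
  obtain ⟨⟨v1, v2⟩, ⟨w1, w2⟩⟩ := x
  change v1 + b * v2 ≠ 0 at h
  show ((nm (v1, v2) : ℤ) : ℝ) = ((v1 + b * v2 : ℤ) : ℝ) ^ 2 * Pb b ((v2 : ℝ) / ((v1 + b * v2 : ℤ) : ℝ))
  have h1 : ((v1 + b * v2 : ℤ) : ℝ) ≠ 0 := by exact_mod_cast h
  obtain ⟨m, hm⟩ : ∃ m : ℝ, m = ((v1 + b * v2 : ℤ) : ℝ) := ⟨_, rfl⟩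
  have hm2 : (v1 : ℝ) = m - b * v2 := by
    rw [hm]
    push_cast
    ring
  rw [← hm] at h1 ⊢
  have h2 : m * (v2 / m) = v2 := by field_simp
  unfold Pb nm
  push_cast
  rw [hm2]
  obtain ⟨u, hu⟩ : ∃ u : ℝ, u = (v2 : ℝ) / m := ⟨_, rfl⟩
  rw [← hu] at h2 ⊢
  rw [← h2]
  ring

/-- PROOF. With `(m, (j, y)) = tri b x`, `u = j / m`, `s = y / m`: `m w₂ = j y + 1`, so `w = s v + (- b, 1) / m`, `kk` is bilinear, `kk v v = nm v`, and `kk v ((- b, 1) / m) = - b + u (b ^ 2 - 3 b + 1)`; for `0 ≤ u ≤ 1 / b` this is between `- b` and `- 3 + 1 / b`. -/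
theorem tri_kk {b : ℕ} (hb : 1 ≤ b) {x : (ℤ × ℤ) × (ℤ × ℤ)} (hv : Qd x.1) (hw : Qd x.2) (h : dt x.1 x.2 = 1) :
    |((kk x.1 x.2 : ℤ) : ℝ) - ((tri b x).2.2 : ℝ) / (tri b x).1 * nm x.1| ≤ b + 3 := by
  obtain ⟨h1, h2, h3, h4, h5⟩ := tri_spec hb hv hw h
  obtain ⟨⟨v1, v2⟩, ⟨w1, w2⟩⟩ := x
  obtain ⟨k1, k2, -⟩ := hv
  unfold dt at h
  simp only at h k1 k2
  change 1 ≤ v1 + b * v2 at h1
  show |((kk (v1, v2) (w1, w2) : ℤ) : ℝ) - ((w1 + b * w2 : ℤ) : ℝ) / ((v1 + b * v2 : ℤ) : ℝ) * ((nm (v1, v2) : ℤ) : ℝ)| ≤ b + 3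
  have hb1 : (1 : ℝ) ≤ b := by exact_mod_cast hb
  have hR : (v1 : ℝ) * w2 - w1 * v2 = 1 := by exact_mod_cast h
  have h1' : (1 : ℝ) ≤ (v1 : ℝ) + b * v2 := by exact_mod_cast h1
  have k1' : (0 : ℝ) ≤ v1 := by exact_mod_cast k1
  have k2' : (0 : ℝ) ≤ v2 := by exact_mod_cast k2
  have hm0 : (0 : ℝ) < (v1 : ℝ) + b * v2 := by linarith
  have e : ((kk (v1, v2) (w1, w2) : ℤ) : ℝ) - ((w1 + b * w2 : ℤ) : ℝ) / ((v1 + b * v2 : ℤ) : ℝ) * ((nm (v1, v2) : ℤ) : ℝ) =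
      (- b * v1 + v2 - 3 * b * v2) / ((v1 : ℝ) + b * v2) := by
    unfold kk nm
    push_cast
    rw [eq_div_iff hm0.ne']
    have e0 : ((w1 : ℝ) + b * w2) / (v1 + b * v2) * (v1 + b * v2) = w1 + b * w2 := div_mul_cancel₀ _ hm0.ne'
    linear_combination (- b * v1 + v2 - 3 * b * v2 : ℝ) * hR - ((v1 : ℝ) ^ 2 + 3 * v1 * v2 + v2 ^ 2) * e0
  rw [e, abs_le]
  have hv : (v2 : ℝ) ≤ b * v2 := by
    have := mul_le_mul_of_nonneg_right hb1 k2'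
    linarith
  have hbv : (0 : ℝ) ≤ b * v1 := mul_nonneg (by linarith) k1'
  have hbbv : (0 : ℝ) ≤ b * (b * v2) := mul_nonneg (by linarith) (by linarith)
  constructor
  · rw [le_div_iff₀ hm0]
    nlinarith
  · rw [div_le_iff₀ hm0]
    nlinarith

/-- PROOF. `nm v ≥ (v₁ + v₂) ^ 2` and `b (v₁ + v₂) ≥ v₁ + b v₂ = m`. -/
theorem tri_ge {b : ℕ} (hb : 1 ≤ b) {x : (ℤ × ℤ) × (ℤ × ℤ)} (hv : Qd x.1) :
    (tri b x).1 ^ 2 ≤ (b : ℤ) ^ 2 * nm x.1 := by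
  obtain ⟨⟨v1, v2⟩, ⟨w1, w2⟩⟩ := x
  obtain ⟨h1, h2, -⟩ := hv
  simp only at h1 h2
  have hb1 : (1 : ℤ) ≤ b := by exact_mod_cast hb
  show (v1 + b * v2) ^ 2 ≤ (b : ℤ) ^ 2 * (v1 ^ 2 + 3 * v1 * v2 + v2 ^ 2)
  have h3 : v1 + b * v2 ≤ b * (v1 + v2) := by nlinarith
  have h4 : 0 ≤ v1 + b * v2 := add_nonneg h1 (mul_nonneg (by linarith) h2)
  have h5 : (v1 + b * v2) ^ 2 ≤ (b * (v1 + v2)) ^ 2 := pow_le_pow_left₀ h4 h3 2
  have h6 : 0 ≤ (b : ℤ) ^ 2 * (v1 * v2) := mul_nonneg (by positivity) (mul_nonneg h1 h2)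
  nlinarith

/-- The inverse. PROOF. `v = (m - b j, j)`, `w = (y - b t, t)`: `dt v w = m t - y j = 1`; `t ≥ 1` as `m t = j y + 1 > 0`, and `m (y - b t) = y (m - b j) - b ≥ y - b ≥ 0`. -/
theorem mk_frame {b : ℕ} (hb : 1 ≤ b) {m j y t : ℤ} (hj : 0 ≤ j) (hbj : (b : ℤ) * j < m) (hy : (b : ℤ) ≤ y)
    (h : m * t = j * y + 1) :
    Qd (m - b * j, j) ∧ Qd (y - b * t, t) ∧ dt (m - b * j, j) (y - b * t, t) = 1 ∧
      tri b ((m - b * j, j), (y - b * t, t)) = (m, (j, y)) := by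
  have hb1 : (1 : ℤ) ≤ b := by exact_mod_cast hb
  have hbj0 : 0 ≤ (b : ℤ) * j := mul_nonneg (by linarith) hj
  have hm : 0 < m := by linarith
  have hjy : 0 ≤ j * y := mul_nonneg hj (by linarith)
  have ht : 1 ≤ t := by
    by_contra h1
    push Not at h1
    have h2 : t ≤ 0 := by omega
    have h3 : m * t ≤ 0 := mul_nonpos_of_nonneg_of_nonpos hm.le h2
    linarith
  have hyt : 0 ≤ y - b * t := by
    by_contra h1
    push Not at h1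
    have h2 : m * (y - b * t) < 0 := mul_neg_of_pos_of_neg hm h1
    have h3 : m * (y - b * t) = y * (m - b * j) - b := by linear_combination (- b : ℤ) * h
    have h4 : y * 1 ≤ y * (m - b * j) := mul_le_mul_of_nonneg_left (by omega) (by linarith)
    linarith
  refine ⟨⟨?_, hj, ?_⟩, ⟨hyt, ?_, ?_⟩, ?_, ?_⟩
  · show 0 ≤ m - b * j
    linarith
  · intro h1
    have h2 := congrArg Prod.fst h1
    change m - b * j = 0 at h2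
    linarith
  · show 0 ≤ t
    linarith
  · intro h1
    have h2 := congrArg Prod.snd h1
    change t = 0 at h2
    linarith
  · show (m - b * j) * t - (y - b * t) * j = 1
    linear_combination h
  · show (m - b * j + b * j, (j, y - b * t + b * t)) = (m, (j, y))
    rw [sub_add_cancel, sub_add_cancel]

end Pool.Agent.Lib.MP_d57abb_ntW
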