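import Pool.Agent.Lib.MP_d57abb_ntW.D5

/-!
# Leaf D8b: Riemann sums
-/

set_option autoImplicit false

namespace Pool.Agent.Lib.MP_d57abb_ntW

open Finset Filter Topology Pool.Agent.Lib.MP_d57abb_nt Pool.Agent.Lib.MP_d57abb_nt.GA.TA Pool.Agent.Lib.MP_d57abb_nt.GA.TS
  Pool.Agent.Lib.MP_d57abb_nt.GA.TZ

attribute [local instance] GT.lab0

private theorem d8b_pos {b : ℕ} (hb : 1 ≤ b) {u : ℝ} (h0 : 0 ≤ u) (h1 : b * u ≤ 1) : 0 < Pb b u := by
  have hb' : (0 : ℝ) < b := by exact_mod_cast hb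
  exact lt_of_lt_of_le (by positivity) (pb_ge hb h0 h1)

private theorem d8b_inv {b : ℕ} (hb : 1 ≤ b) {u : ℝ} (h0 : 0 ≤ u) (h1 : b * u ≤ 1) : 1 / Pb b u ≤ (b : ℝ) ^ 2 := by
  have hb' : (0 : ℝ) < b := by exact_mod_cast hb
  have h2 := pb_ge hb h0 h1
  have h3 := one_div_le_one_div_of_le (by positivity) h2
  simpa using h3

private theorem d8b_cont {b : ℕ} (hb : 1 ≤ b) : ContinuousOn (fun u : ℝ => 1 / Pb b u) (Set.Icc 0 (1 / (b : ℝ))) := by
  have hb' : (0 : ℝ) < b := by exact_mod_cast hb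
  refine ContinuousOn.div continuousOn_const ?_ ?_
  · unfold Pb
    fun_prop
  · intro u hu
    have h1 : (b : ℝ) * u ≤ 1 := by
      have := mul_le_mul_of_nonneg_left hu.2 hb'.le
      rwa [mul_one_div_cancel hb'.ne'] at this
    exact (d8b_pos hb hu.1 h1).ne'

private theorem d8b_lip {b : ℕ} (hb : 1 ≤ b) {u u' : ℝ} (h0 : 0 ≤ u) (h1 : b * u ≤ 1) (h0' : 0 ≤ u') (h1' : b * u' ≤ 1) :
    |1 / Pb b u - 1 / Pb b u'| ≤ 15 * (b : ℝ) ^ 5 * |u - u'| := by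
  have hb' : (0 : ℝ) < b := by exact_mod_cast hb
  have hp := d8b_pos hb h0 h1
  have hp' := d8b_pos hb h0' h1'
  have he : 1 / Pb b u - 1 / Pb b u' = (Pb b u' - Pb b u) * ((1 / Pb b u) * (1 / Pb b u')) := by
    field_simp
  rw [he, abs_mul, abs_of_pos (show (0 : ℝ) < (1 / Pb b u) * (1 / Pb b u') by positivity)]
  have h2 : |Pb b u' - Pb b u| ≤ 15 * b * |u - u'| := by
    rw [abs_sub_comm]
    exact pb_lip hb h0 h1 h0' h1'
  have h3 : (1 / Pb b u) * (1 / Pb b u') ≤ (b : ℝ) ^ 2 * (b : ℝ) ^ 2 :=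
    mul_le_mul (d8b_inv hb h0 h1) (d8b_inv hb h0' h1') (by positivity) (by positivity)
  calc |Pb b u' - Pb b u| * ((1 / Pb b u) * (1 / Pb b u')) ≤ (15 * b * |u - u'|) * ((b : ℝ) ^ 2 * (b : ℝ) ^ 2) :=
        mul_le_mul h2 h3 (by positivity) (by positivity)
    _ = 15 * (b : ℝ) ^ 5 * |u - u'| := by ring

private theorem d8b_pert {b : ℕ} (hb : 1 ≤ b) {u s : ℝ} (h0 : 0 ≤ u) (h1 : b * u ≤ 1) (hs : |s| ≤ 1 / (2 * (b : ℝ) ^ 2)) :
    |1 / (Pb b u + s) - 1 / Pb b u| ≤ 2 * (b : ℝ) ^ 4 * |s| := by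
  have hb' : (0 : ℝ) < b := by exact_mod_cast hb
  have hp := d8b_pos hb h0 h1
  have hge := pb_ge hb h0 h1
  have hs' : -(1 / (2 * (b : ℝ) ^ 2)) ≤ s := (abs_le.1 hs).1
  have hhalf : (1 : ℝ) / (b : ℝ) ^ 2 - 1 / (2 * (b : ℝ) ^ 2) = 1 / (2 * (b : ℝ) ^ 2) := by
    field_simp
    ring
  have h2 : 1 / (2 * (b : ℝ) ^ 2) ≤ Pb b u + s := by linarith
  have h2' : (0 : ℝ) < 1 / (2 * (b : ℝ) ^ 2) := by positivity
  have hp2 : 0 < Pb b u + s := lt_of_lt_of_le h2' h2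
  have h3 : 1 / (Pb b u + s) ≤ 2 * (b : ℝ) ^ 2 := by
    have := one_div_le_one_div_of_le h2' h2
    simpa using this
  have he : 1 / (Pb b u + s) - 1 / Pb b u = -s * ((1 / (Pb b u + s)) * (1 / Pb b u)) := by
    field_simp
    ring
  rw [he, abs_mul, abs_neg, abs_of_pos (show (0 : ℝ) < (1 / (Pb b u + s)) * (1 / Pb b u) by positivity)]
  have h4 : (1 / (Pb b u + s)) * (1 / Pb b u) ≤ (2 * (b : ℝ) ^ 2) * (b : ℝ) ^ 2 :=
    mul_le_mul h3 (d8b_inv hb h0 h1) (by positivity) (by positivity)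
  calc |s| * ((1 / (Pb b u + s)) * (1 / Pb b u)) ≤ |s| * ((2 * (b : ℝ) ^ 2) * (b : ℝ) ^ 2) :=
        mul_le_mul_of_nonneg_left h4 (abs_nonneg _)
    _ = 2 * (b : ℝ) ^ 4 * |s| := by ring

/-- One cell: the perturbed value against the integral. -/
private theorem d8b_cell {b : ℕ} (hb : 1 ≤ b) {x y s : ℝ} (hx : 0 ≤ x) (hxy : x ≤ y) (hy : b * y ≤ 1)
    (hs : |s| ≤ 1 / (2 * (b : ℝ) ^ 2)) :
    |(y - x) * (1 / (Pb b x + s)) - ∫ u in x..y, 1 / Pb b u| ≤ (y - x) * (2 * (b : ℝ) ^ 4 * |s| + 15 * (b : ℝ) ^ 5 * (y - x)) := by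
  have hb' : (0 : ℝ) < b := by exact_mod_cast hb
  have hbx : (b : ℝ) * x ≤ 1 := (mul_le_mul_of_nonneg_left hxy hb'.le).trans hy
  have hyb : y ≤ 1 / (b : ℝ) := by
    rw [le_div_iff₀ hb']
    linarith [mul_comm (b : ℝ) y]
  have hint : IntervalIntegrable (fun u : ℝ => 1 / Pb b u) MeasureTheory.volume x y := by
    refine ContinuousOn.intervalIntegrable ?_
    rw [Set.uIcc_of_le hxy]
    exact (d8b_cont hb).mono (Set.Icc_subset_Icc hx hyb)
  have h1 : ‖∫ u in x..y, (1 / Pb b u - 1 / Pb b x)‖ ≤ (15 * (b : ℝ) ^ 5 * (y - x)) * |y - x| := by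
    refine intervalIntegral.norm_integral_le_of_norm_le_const fun u hu => ?_
    rw [Set.uIoc_of_le hxy] at hu
    rw [Real.norm_eq_abs]
    have hu0 : 0 ≤ u := hx.trans hu.1.le
    have hu1 : (b : ℝ) * u ≤ 1 := (mul_le_mul_of_nonneg_left hu.2 hb'.le).trans hy
    refine (d8b_lip hb hu0 hu1 hx hbx).trans ?_
    refine mul_le_mul_of_nonneg_left ?_ (by positivity)
    rw [abs_of_nonneg (by linarith [hu.1])]
    linarith [hu.2]
  rw [intervalIntegral.integral_sub hint intervalIntegrable_const, intervalIntegral.integral_const, Real.norm_eq_abs,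
    smul_eq_mul, abs_of_nonneg (sub_nonneg.2 hxy)] at h1
  have h2 := d8b_pert hb hx hbx hs
  have h3 : |(y - x) * (1 / (Pb b x + s)) - (y - x) * (1 / Pb b x)| ≤ (y - x) * (2 * (b : ℝ) ^ 4 * |s|) := by
    rw [← mul_sub, abs_mul, abs_of_nonneg (sub_nonneg.2 hxy)]
    exact mul_le_mul_of_nonneg_left h2 (sub_nonneg.2 hxy)
  have h4 : |(y - x) * (1 / Pb b x) - ∫ u in x..y, 1 / Pb b u| ≤ (15 * (b : ℝ) ^ 5 * (y - x)) * (y - x) := by
    rw [abs_sub_comm]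
    exact h1
  calc |(y - x) * (1 / (Pb b x + s)) - ∫ u in x..y, 1 / Pb b u|
      ≤ |(y - x) * (1 / (Pb b x + s)) - (y - x) * (1 / Pb b x)| + |(y - x) * (1 / Pb b x) - ∫ u in x..y, 1 / Pb b u| :=
        abs_sub_le _ _ _
    _ ≤ (y - x) * (2 * (b : ℝ) ^ 4 * |s|) + (15 * (b : ℝ) ^ 5 * (y - x)) * (y - x) := add_le_add h3 h4
    _ = (y - x) * (2 * (b : ℝ) ^ 4 * |s| + 15 * (b : ℝ) ^ 5 * (y - x)) := by ring

private theorem d8b_est {b n : ℕ} (hb : 1 ≤ b) (hn : 0 < n) {s : ℝ} (hs : |s| ≤ 1 / (2 * (b : ℝ) ^ 2))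
    (hs' : |s| ≤ 15 * b / ((b * n : ℕ) : ℝ)) :
    |1 / ((b * n : ℕ) : ℝ) * ∑ i ∈ range n, 1 / (Pb b ((i : ℝ) / ((b * n : ℕ) : ℝ)) + s) - ∫ u in (0 : ℝ)..1 / b, 1 / Pb b u|
      ≤ 45 * (b : ℝ) ^ 3 / n := by
  have hb' : (0 : ℝ) < b := by exact_mod_cast hb
  have hn' : (0 : ℝ) < n := by exact_mod_cast hn
  have hLc : ((b * n : ℕ) : ℝ) = (b : ℝ) * n := by push_cast; ring
  rw [hLc] at hs' ⊢
  set L : ℝ := (b : ℝ) * n with hL
  have hL0 : 0 < L := by positivity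
  have hcell : ∀ i ∈ range n, |1 / L * (1 / (Pb b ((i : ℝ) / L) + s)) - ∫ u in ((i : ℝ) / L)..(((i + 1 : ℕ) : ℝ) / L), 1 / Pb b u|
      ≤ 1 / L * (45 * (b : ℝ) ^ 5 / L) := by
    intro i hi
    have hi' : ((i + 1 : ℕ) : ℝ) ≤ n := by exact_mod_cast Nat.succ_le_of_lt (mem_range.1 hi)
    have hd : (((i + 1 : ℕ) : ℝ) / L) - (i : ℝ) / L = 1 / L := by push_cast; ring
    have hy : (b : ℝ) * (((i + 1 : ℕ) : ℝ) / L) ≤ 1 := by
      rw [← mul_div_assoc, div_le_one hL0, hL]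
      exact mul_le_mul_of_nonneg_left hi' hb'.le
    have hxy : (i : ℝ) / L ≤ ((i + 1 : ℕ) : ℝ) / L := by
      refine div_le_div_of_nonneg_right ?_ hL0.le
      push_cast
      linarith
    have h1 := d8b_cell hb (show (0 : ℝ) ≤ (i : ℝ) / L by positivity) hxy hy hs
    rw [hd] at h1
    refine h1.trans (mul_le_mul_of_nonneg_left ?_ (by positivity))
    have h2 : 2 * (b : ℝ) ^ 4 * |s| ≤ 2 * (b : ℝ) ^ 4 * (15 * b / L) := mul_le_mul_of_nonneg_left hs' (by positivity)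
    calc 2 * (b : ℝ) ^ 4 * |s| + 15 * (b : ℝ) ^ 5 * (1 / L) ≤ 2 * (b : ℝ) ^ 4 * (15 * b / L) + 15 * (b : ℝ) ^ 5 * (1 / L) := by
          linarith
      _ = 45 * (b : ℝ) ^ 5 / L := by ring
  have hsum : ∑ i ∈ range n, ∫ u in ((i : ℝ) / L)..(((i + 1 : ℕ) : ℝ) / L), 1 / Pb b u = ∫ u in (0 : ℝ)..1 / b, 1 / Pb b u := by
    have h1 := intervalIntegral.sum_integral_adjacent_intervals (μ := MeasureTheory.volume) (f := fun u : ℝ => 1 / Pb b u)
      (a := fun k : ℕ => (k : ℝ) / L) (n := n) (by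
        intro k hk
        have hk' : ((k + 1 : ℕ) : ℝ) ≤ n := by exact_mod_cast Nat.succ_le_of_lt hk
        have hxy : (k : ℝ) / L ≤ ((k + 1 : ℕ) : ℝ) / L := by
          refine div_le_div_of_nonneg_right ?_ hL0.le
          push_cast
          linarith
        refine ContinuousOn.intervalIntegrable ?_
        rw [Set.uIcc_of_le hxy]
        refine (d8b_cont hb).mono (Set.Icc_subset_Icc (by positivity) ?_)
        rw [div_le_div_iff₀ hL0 hb', hL]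
        nlinarith)
    rw [h1]
    have h2 : ((0 : ℕ) : ℝ) / L = 0 := by simp
    have h3 : (n : ℝ) / L = 1 / b := by
      rw [hL]
      field_simp
    simp only [h2, h3]
  rw [← hsum, Finset.mul_sum, ← Finset.sum_sub_distrib]
  refine (Finset.abs_sum_le_sum_abs _ _).trans ((Finset.sum_le_sum hcell).trans (le_of_eq ?_))
  rw [Finset.sum_const, card_range, nsmul_eq_mul, hL]
  field_simp

/-- PROOF. `K = ∫ u in 0..1 / b, 1 / Pb b u`, positive (`pb_ge`; the function is continuous on `[0, 1 / b]`). For `L = b n`: `h(u) = 1 / Pb b u` satisfies `|h(u) - h(u')| ≤ 15 b⁵ |u - u'|` on `[0, 1 / b]` (`pb_lip`, `pb_ge`) and `|1 / (Pb b (i / L) ∓ 15 b / L) - h(i / L)| ≤ 30 b⁵ / L` (for `30 b ^ 3 ≤ L`, `Pb ∓ .. ≥ 1 / (2 b ^ 2)`),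
so both sums differ from `∑ i < n, ∫ u in i / L..(i + 1) / L, h u = K` (`intervalIntegral.sum_integral_adjacent_intervals`) by at most `C_b / L`. -/
theorem riem_u {b : ℕ} (hb : 1 ≤ b) : ∃ K : ℝ, 0 < K ∧
    Tendsto (fun n : ℕ => 1 / ((b * n : ℕ) : ℝ) * ∑ i ∈ range n, 1 / (Pb b ((i : ℝ) / ((b * n : ℕ) : ℝ)) - 15 * b / ((b * n : ℕ) : ℝ)))
      atTop (𝓝 K) ∧
    Tendsto (fun n : ℕ => 1 / ((b * n : ℕ) : ℝ) * ∑ i ∈ range n, 1 / (Pb b ((i : ℝ) / ((b * n : ℕ) : ℝ)) + 15 * b / ((b * n : ℕ) : ℝ)))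
      atTop (𝓝 K) := by
  have hb' : (0 : ℝ) < b := by exact_mod_cast hb
  have hcast : ∀ n : ℕ, ((b * n : ℕ) : ℝ) = (b : ℝ) * n := fun n => by push_cast; ring
  have hlim : Tendsto (fun n : ℕ => 45 * (b : ℝ) ^ 3 / (n : ℝ)) atTop (𝓝 0) :=
    tendsto_const_div_atTop_nhds_zero_nat _
  have hsm : ∀ n : ℕ, 30 * b ^ 2 ≤ n → 0 < n → |15 * (b : ℝ) / ((b * n : ℕ) : ℝ)| ≤ 1 / (2 * (b : ℝ) ^ 2) := by
    intro n hn hn0
    have hn' : (0 : ℝ) < n := by exact_mod_cast hn0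
    have hn2 : (30 : ℝ) * (b : ℝ) ^ 2 ≤ n := by exact_mod_cast hn
    rw [hcast n, abs_of_pos (by positivity), div_le_div_iff₀ (by positivity) (by positivity)]
    nlinarith
  have hK : 0 < ∫ u in (0 : ℝ)..1 / b, 1 / Pb b u := by
    refine intervalIntegral.intervalIntegral_pos_of_pos_on ?_ ?_ (by positivity)
    · refine ContinuousOn.intervalIntegrable ?_
      rw [Set.uIcc_of_le (by positivity)]
      exact d8b_cont hb
    · intro u hu
      have h1 : (b : ℝ) * u ≤ 1 := by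
        have := mul_le_mul_of_nonneg_left hu.2.le hb'.le
        rwa [mul_one_div_cancel hb'.ne'] at this
      have := d8b_pos hb hu.1.le h1
      positivity
  refine ⟨∫ u in (0 : ℝ)..1 / b, 1 / Pb b u, hK, ?_, ?_⟩
  · rw [tendsto_iff_dist_tendsto_zero]
    refine squeeze_zero' (Eventually.of_forall fun n => dist_nonneg) ?_ hlim
    filter_upwards [eventually_ge_atTop (30 * b ^ 2), eventually_gt_atTop 0] with n hn hn0
    rw [Real.dist_eq]
    have h1 := d8b_est hb hn0 (s := -(15 * b / ((b * n : ℕ) : ℝ))) (by rw [abs_neg]; exact hsm n hn hn0)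
      (by rw [abs_neg, abs_of_nonneg (by positivity)])
    simpa only [← sub_eq_add_neg] using h1
  · rw [tendsto_iff_dist_tendsto_zero]
    refine squeeze_zero' (Eventually.of_forall fun n => dist_nonneg) ?_ hlim
    filter_upwards [eventually_ge_atTop (30 * b ^ 2), eventually_gt_atTop 0] with n hn hn0
    rw [Real.dist_eq]
    exact d8b_est hb hn0 (s := 15 * b / ((b * n : ℕ) : ℝ)) (hsm n hn hn0) (by rw [abs_of_nonneg (by positivity)])

end Pool.Agent.Lib.MP_d57abb_ntW
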