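import Pool.Agent.Lib.MP_d57abb_ntW.D8a
import Pool.Agent.Lib.MP_d57abb_ntW.D8b

/-!
# Leaf D8: the limit of the upper and lower sums
-/

set_option autoImplicit false

namespace Pool.Agent.Lib.MP_d57abb_ntW

open Finset Filter Topology Pool.Agent.Lib.MP_d57abb_nt Pool.Agent.Lib.MP_d57abb_nt.GA.TA Pool.Agent.Lib.MP_d57abb_nt.GA.TS
  Pool.Agent.Lib.MP_d57abb_nt.GA.TZ

attribute [local instance] GT.lab0

private theorem D8_eq (L l P : ℝ) : 1 / (L ^ 2 * (l / L * P)) = 1 / L * (1 / P) * (1 / l) := by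
  rcases eq_or_ne L 0 with h | h
  · rw [h]
    simp
  · rcases eq_or_ne l 0 with h1 | h1
    · rw [h1]
      simp
    · rcases eq_or_ne P 0 with h2 | h2
      · rw [h2]
        simp
      · field_simp

private theorem D8_top {b : ℕ} (hb : 1 ≤ b) : Tendsto (fun n : ℕ => b * n) atTop atTop :=
  tendsto_id.const_mul_atTop' hb

/-- PROOF. `1 / (L² Qu) = (1 / l) * (1 / L) * 1 / (Pb b (i / L) - 15 b / L)` (`l ≥ 1`, `L ≥ 1`), so `Up b c L` is the product of the sum of `lu_lim` and (for `L = b n`, `L / b = n`) that of `riem_u`: it tends to `2 log c * K'`; the same for `Lo` (`1 / (L² Ql) = 1 / (l + 1) * ..`). `K = 2 K'`. -/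
theorem riem {b : ℕ} (hb : 1 ≤ b) : ∃ K : ℝ, 0 < K ∧ ∀ c : ℝ, 1 < c →
    Tendsto (fun n : ℕ => Up b c (b * n)) atTop (𝓝 (K * Real.log c)) ∧
    Tendsto (fun n : ℕ => Lo b c (b * n)) atTop (𝓝 (K * Real.log c)) := by
  obtain ⟨K, hK, h1, h2⟩ := riem_u hb
  refine ⟨2 * K, by positivity, fun c hc => ?_⟩
  have he : 2 * K * Real.log c = K * (2 * Real.log c) := by ring
  rw [he]
  constructor
  · refine (h1.mul ((lu_lim hc).comp (D8_top hb))).congr fun n => ?_
    unfold Up Qu
    rw [Nat.mul_div_cancel_left n hb, Finset.mul_sum]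
    dsimp only [Function.comp]
    rw [Finset.sum_mul_sum]
    refine Finset.sum_congr rfl fun i _ => Finset.sum_congr rfl fun l _ => ?_
    exact (D8_eq _ _ _).symm
  · refine (h2.mul ((ll_lim hc).comp (D8_top hb))).congr fun n => ?_
    unfold Lo Ql
    rw [Nat.mul_div_cancel_left n hb, Finset.mul_sum]
    dsimp only [Function.comp]
    rw [Finset.sum_mul_sum]
    refine Finset.sum_congr rfl fun i _ => Finset.sum_congr rfl fun l _ => ?_
    exact (D8_eq _ _ _).symm

end Pool.Agent.Lib.MP_d57abb_ntW
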