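import Pool.Agent.Lib.MP_d57abb_ntW.DDefs

/-!
# Leaf D8a: harmonic sums
-/

set_option autoImplicit false

namespace Pool.Agent.Lib.MP_d57abb_ntW

open Finset Filter Topology Pool.Agent.Lib.MP_d57abb_nt Pool.Agent.Lib.MP_d57abb_nt.GA.TA Pool.Agent.Lib.MP_d57abb_nt.GA.TS
  Pool.Agent.Lib.MP_d57abb_nt.GA.TZ

attribute [local instance] GT.lab0

private theorem d8a_ratio {a : ℕ → ℕ} {r K : ℝ} (h : ∀ᶠ L : ℕ in atTop, |(a L : ℝ) - r * L| ≤ K) :
    Tendsto (fun L : ℕ => (a L : ℝ) / L) atTop (𝓝 r) := by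
  rw [← tendsto_sub_nhds_zero_iff]
  refine squeeze_zero_norm' (a := fun L : ℕ => K / L) ?_ (tendsto_const_div_atTop_nhds_zero_nat K)
  filter_upwards [h, eventually_gt_atTop 0] with L hL h0
  have h1 : (0 : ℝ) < L := by exact_mod_cast h0
  rw [Real.norm_eq_abs]
  have e : (a L : ℝ) / L - r = ((a L : ℝ) - r * L) / L := by field_simp
  rw [e, abs_div, abs_of_pos h1]
  exact div_le_div_of_nonneg_right hL h1.le

private theorem d8a_top {a : ℕ → ℕ} {r : ℝ} (hr : 0 < r) (h : Tendsto (fun L : ℕ => (a L : ℝ) / L) atTop (𝓝 r)) :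
    Tendsto a atTop atTop := by
  have h1 : Tendsto (fun L : ℕ => (a L : ℝ) / L * L) atTop atTop :=
    h.pos_mul_atTop hr tendsto_natCast_atTop_atTop
  have h2 : Tendsto (fun L : ℕ => (a L : ℝ)) atTop atTop := by
    refine h1.congr' ?_
    filter_upwards [eventually_gt_atTop 0] with L h0
    have : (L : ℝ) ≠ 0 := by exact_mod_cast h0.ne'
    field_simp
  exact tendsto_natCast_atTop_iff.1 h2

private theorem d8a_sum {a b : ℕ} (hab : a ≤ b) :
    ∑ l ∈ Ioc a b, 1 / (l : ℝ) = ((harmonic b : ℚ) : ℝ) - ((harmonic a : ℚ) : ℝ) := by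
  have h (n : ℕ) : ((harmonic n : ℚ) : ℝ) = ∑ l ∈ Ioc 0 n, 1 / (l : ℝ) := by
    rw [harmonic_eq_sum_Icc]
    push_cast
    refine Finset.sum_congr ?_ fun i _ => by rw [one_div]
    ext i; simp only [mem_Icc, mem_Ioc]; omega
  rw [h, h, ← Finset.sum_Ioc_consecutive (fun l : ℕ => 1 / (l : ℝ)) (Nat.zero_le a) hab]
  ring

private theorem d8a_lim {c : ℝ} (hc : 1 < c) {a b : ℕ → ℕ}
    (ha : Tendsto (fun L : ℕ => (a L : ℝ) / L) atTop (𝓝 (1 / c)))
    (hb : Tendsto (fun L : ℕ => (b L : ℝ) / L) atTop (𝓝 c)) :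
    Tendsto (fun L : ℕ => ∑ l ∈ Ioc (a L) (b L), 1 / (l : ℝ)) atTop (𝓝 (2 * Real.log c)) := by
  have hc0 : 0 < c := by linarith
  have hc1 : 0 < 1 / c := by positivity
  have hat := d8a_top hc1 ha
  have hbt := d8a_top hc0 hb
  have h1 := Real.tendsto_harmonic_sub_log.comp hbt
  have h2 := Real.tendsto_harmonic_sub_log.comp hat
  have h3 : Tendsto (fun L : ℕ => Real.log ((b L : ℝ) / L) - Real.log ((a L : ℝ) / L)) atTop
      (𝓝 (Real.log c - Real.log (1 / c))) := (hb.log hc0.ne').sub (ha.log hc1.ne')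
  have h4 := (h1.sub h2).add h3
  have e : Real.eulerMascheroniConstant - Real.eulerMascheroniConstant + (Real.log c - Real.log (1 / c)) =
      2 * Real.log c := by
    rw [one_div, Real.log_inv]; ring
  rw [e] at h4
  refine h4.congr' ?_
  have hlt : 1 / c < c := by
    rw [div_lt_iff₀ hc0]; nlinarith
  filter_upwards [eventually_gt_atTop 0, hat.eventually_gt_atTop 0, hbt.eventually_gt_atTop 0, ha.eventually_lt hb hlt]
    with L h0 ha0 hb0 hlt
  have q0 : (0 : ℝ) < L := by exact_mod_cast h0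
  have qa : (0 : ℝ) < a L := by exact_mod_cast ha0
  have qb : (0 : ℝ) < b L := by exact_mod_cast hb0
  have hab : a L ≤ b L := by
    have := (div_lt_div_iff_of_pos_right q0).1 hlt
    exact_mod_cast this.le
  rw [d8a_sum hab, Real.log_div qb.ne' q0.ne', Real.log_div qa.ne' q0.ne']
  simp only [Function.comp]
  ring

/-- PROOF. `Lu c L` is the interval of the natural numbers `l ≥ 1` with `L / c - 2 ≤ l ≤ ⌊c L⌋₊ + 1`; `∑_(a < l ≤ b) 1 / l = log (b / a) + O(1 / a)`, or: `Real.log (1 + 1 / l) ≤ 1 / l ≤ Real.log (1 + 1 / (l - 1))` and telescope; `log ((c L + 2) / (L / c - 3)) → 2 log c`. -/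
theorem lu_lim {c : ℝ} (hc : 1 < c) : Tendsto (fun L : ℕ => ∑ l ∈ Lu c L, 1 / (l : ℝ)) atTop (𝓝 (2 * Real.log c)) := by
  have hc0 : 0 < c := by linarith
  have ha : Tendsto (fun L : ℕ => ((⌈(L : ℝ) / c - 2⌉₊ - 1 : ℕ) : ℝ) / L) atTop (𝓝 (1 / c)) := by
    refine d8a_ratio (K := 4) ?_
    filter_upwards [eventually_ge_atTop ⌈4 * c⌉₊] with L hL
    have h1 : 4 * c ≤ L := Nat.ceil_le.1 hL
    have h2 : 4 ≤ (L : ℝ) / c := by rw [le_div_iff₀ hc0]; exact h1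
    have h3 := Nat.le_ceil ((L : ℝ) / c - 2)
    have h4 := Nat.ceil_lt_add_one (show 0 ≤ (L : ℝ) / c - 2 by linarith)
    have h5 : 1 ≤ ⌈(L : ℝ) / c - 2⌉₊ := Nat.one_le_ceil_iff.2 (by linarith)
    rw [Nat.cast_sub h5, Nat.cast_one]
    have e : 1 / c * (L : ℝ) = (L : ℝ) / c := by ring
    rw [e, abs_le]
    constructor <;> linarith
  have hb : Tendsto (fun L : ℕ => ((⌊c * L⌋₊ + 1 : ℕ) : ℝ) / L) atTop (𝓝 c) := by
    refine d8a_ratio (K := 4) (Filter.Eventually.of_forall fun L => ?_)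
    have h1 : 0 ≤ c * (L : ℝ) := by positivity
    have h3 := Nat.floor_le h1
    have h4 := Nat.lt_floor_add_one (c * (L : ℝ))
    push_cast
    rw [abs_le]
    constructor <;> linarith
  refine (d8a_lim hc ha hb).congr fun L => Finset.sum_congr ?_ fun _ _ => rfl
  ext l
  simp only [Lu, mem_filter, mem_Icc, mem_Ioc]
  have e : ((L : ℝ) ≤ c * (l + 2)) ↔ ⌈(L : ℝ) / c - 2⌉₊ ≤ l := by
    rw [Nat.ceil_le, sub_le_iff_le_add, div_le_iff₀ hc0, mul_comm]
  rw [e]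
  omega

/-- PROOF. The same for the `l` with `(L + 1) / c ≤ l ≤ c L - 2`. -/
theorem ll_lim {c : ℝ} (hc : 1 < c) : Tendsto (fun L : ℕ => ∑ l ∈ Ll c L, 1 / ((l : ℝ) + 1)) atTop (𝓝 (2 * Real.log c)) := by
  have hc0 : 0 < c := by linarith
  have ha : Tendsto (fun L : ℕ => (⌈((L : ℝ) + 1) / c⌉₊ : ℝ) / L) atTop (𝓝 (1 / c)) := by
    refine d8a_ratio (K := 4) (Filter.Eventually.of_forall fun L => ?_)
    have h1 : 0 ≤ ((L : ℝ) + 1) / c := by positivity
    have h3 := Nat.le_ceil (((L : ℝ) + 1) / c)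
    have h4 := Nat.ceil_lt_add_one h1
    have e : 1 / c * (L : ℝ) = ((L : ℝ) + 1) / c - 1 / c := by ring
    have h5 : 1 / c ≤ 1 := by rw [div_le_one hc0]; exact hc.le
    have h6 : 0 < 1 / c := by positivity
    rw [e, abs_le]
    constructor <;> linarith
  have hb : Tendsto (fun L : ℕ => ((⌊c * L - 2⌋₊ + 1 : ℕ) : ℝ) / L) atTop (𝓝 c) := by
    refine d8a_ratio (K := 4) ?_
    filter_upwards [eventually_ge_atTop 2] with L hL
    have q : (2 : ℝ) ≤ L := by exact_mod_cast hL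
    have h1 : 0 ≤ c * (L : ℝ) - 2 := by nlinarith
    have h3 := Nat.floor_le h1
    have h4 := Nat.lt_floor_add_one (c * (L : ℝ) - 2)
    push_cast
    rw [abs_le]
    constructor <;> linarith
  refine (d8a_lim hc ha hb).congr' ?_
  filter_upwards [eventually_ge_atTop 2] with L hL
  have q : (2 : ℝ) ≤ L := by exact_mod_cast hL
  have h1 : 0 ≤ c * (L : ℝ) - 2 := by nlinarith
  have hmem (l : ℕ) : l ∈ Ll c L ↔ l + 1 ∈ Ioc ⌈((L : ℝ) + 1) / c⌉₊ (⌊c * L - 2⌋₊ + 1) := by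
    simp only [Ll, mem_filter, mem_Icc, mem_Ioc]
    have e1 : ((L : ℝ) + 1 ≤ c * l) ↔ ⌈((L : ℝ) + 1) / c⌉₊ ≤ l := by
      rw [Nat.ceil_le, div_le_iff₀ hc0, mul_comm]
    have e2 : ((l : ℝ) + 2 ≤ c * L) ↔ l ≤ ⌊c * L - 2⌋₊ := by
      rw [Nat.le_floor_iff h1, le_sub_iff_add_le]
    have e3 : 1 ≤ ⌈((L : ℝ) + 1) / c⌉₊ := Nat.one_le_ceil_iff.2 (by positivity)
    have e4 : ⌊c * L - 2⌋₊ ≤ ⌊c * (L : ℝ)⌋₊ := Nat.floor_mono (by linarith)
    rw [e1, e2]
    omega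
  symm
  refine Finset.sum_bij (fun l _ => l + 1) (fun l hl => (hmem l).1 hl) (fun x _ y _ h => by simpa using h)
    (fun m hm => ?_) (fun l _ => by push_cast; rfl)
  have h2 := (mem_Ioc.1 hm).1
  refine ⟨m - 1, (hmem _).2 ?_, ?_⟩
  · rw [Nat.sub_add_cancel (by omega)]; exact hm
  · exact Nat.sub_add_cancel (by omega)

end Pool.Agent.Lib.MP_d57abb_ntW
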