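import Pool.Agent.Lib.MP_d57abb_nt.GA.TS.FrM
import Pool.Agent.Lib.MP_d57abb_nt.GA.TS.Per
import Pool.Agent.Lib.MP_d57abb_nt.GV.LawU

/-!
# The weights `T` in residue classes: definitions

`Hq n L M a b j y`: the pairs `x` of the box `a < L x₁ ≤ a + n`, `b < L x₂ ≤ b + n` with `x₁ x₂ = -1` modulo `n`, `x₁ = j` and `x₂ = y` modulo `M`.

A frame `(v, w)` (`v`, `w` in the first quadrant, `dt v w = 1`) is sheared: `m = v₁ + b v₂`, `j = v₂`, `y = w₁ + b w₂`; then `m | j y + 1`, `b j < m` and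
`nm v = m² Pb b (j / m)`, `kk v w = (y / m) nm v + O(1)`.
-/

set_option autoImplicit false

namespace Pool.Agent.Lib.MP_d57abb_ntW

open Finset Pool.Agent.Lib.MP_d57abb_nt Pool.Agent.Lib.MP_d57abb_nt.GA.TA Pool.Agent.Lib.MP_d57abb_nt.GA.TS
  Pool.Agent.Lib.MP_d57abb_nt.GA.TZ

attribute [local instance] GT.lab0

noncomputable section

/-- The pairs with `x₁ x₂ = -1` modulo `n` in a box with sides `n / L` and in residue classes modulo `M`. -/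
def Hq (n L M : ℕ) (a b j y : ℤ) : Finset (ℤ × ℤ) :=
  (Ioc (a / L) ((a + n) / L) ×ˢ Ioc (b / L) ((b + n) / L)).filter
    (fun x => (n : ℤ) ∣ x.1 * x.2 + 1 ∧ (M : ℤ) ∣ x.1 - j ∧ (M : ℤ) ∣ x.2 - y)

/-- The sum of the totients in a residue class. -/
def Ph (M m0 : ℕ) (Y : ℝ) : ℝ := ∑ m ∈ (Icc 1 ⌊Y⌋₊).filter (fun m => m ≡ m0 [MOD M]), (m.totient : ℝ)

/-- The norm of the vector of slope `u` after the shear. -/
def Pb (b : ℕ) (u : ℝ) : ℝ := (1 - b * u) ^ 2 + 3 * (1 - b * u) * u + u ^ 2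

/-- The triples `(m, (j, y))` of a frame. -/
def tri (b : ℕ) (x : (ℤ × ℤ) × (ℤ × ℤ)) : ℤ × (ℤ × ℤ) := (x.1.1 + b * x.1.2, (x.1.2, x.2.1 + b * x.2.2))

open Classical in
/-- The frames in a residue class (after the shear). -/
def GC (c : ℝ) (N b M : ℕ) (m0 j0 y0 : ℤ) : Finset ((ℤ × ℤ) × (ℤ × ℤ)) :=
  (GG (1 / c) c N).filter (fun x => (M : ℤ) ∣ (tri b x).1 - m0 ∧ (M : ℤ) ∣ (tri b x).2.1 - j0 ∧ (M : ℤ) ∣ (tri b x).2.2 - y0)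

open Classical in
/-- The frames in a residue class. -/
def GD (c : ℝ) (N M : ℕ) (r : (ℤ × ℤ) × (ℤ × ℤ)) : Finset ((ℤ × ℤ) × (ℤ × ℤ)) :=
  (GG (1 / c) c N).filter (fun x => ((M : ℤ) ∣ x.1.1 - r.1.1 ∧ (M : ℤ) ∣ x.1.2 - r.1.2) ∧
    (M : ℤ) ∣ x.2.1 - r.2.1 ∧ (M : ℤ) ∣ x.2.2 - r.2.2)

open Classical in
/-- The cells of the upper bound. -/
def Lu (c : ℝ) (L : ℕ) : Finset ℕ := (Icc 1 (⌊c * L⌋₊ + 1)).filter (fun l => (L : ℝ) ≤ c * (l + 2))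

open Classical in
/-- The cells of the lower bound. -/
def Ll (c : ℝ) (L : ℕ) : Finset ℕ := (Icc 1 ⌊c * L⌋₊).filter (fun l => (L : ℝ) + 1 ≤ c * l ∧ (l : ℝ) + 2 ≤ c * L)

/-- The upper and lower bounds for `s P(u)` in a cell. -/
def Qu (b L i l : ℕ) : ℝ := (l : ℝ) / L * (Pb b ((i : ℝ) / L) - 15 * b / L)

def Ql (b L i l : ℕ) : ℝ := ((l : ℝ) + 1) / L * (Pb b ((i : ℝ) / L) + 15 * b / L)

/-- The upper sum. -/
def Up (b : ℕ) (c : ℝ) (L : ℕ) : ℝ := ∑ i ∈ range (L / b), ∑ l ∈ Lu c L, 1 / ((L : ℝ) ^ 2 * Qu b L i l)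

/-- The lower sum. -/
def Lo (b : ℕ) (c : ℝ) (L : ℕ) : ℝ := ∑ i ∈ range (L / b), ∑ l ∈ Ll c L, 1 / ((L : ℝ) ^ 2 * Ql b L i l)

end

end Pool.Agent.Lib.MP_d57abb_ntW
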