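import Pool.Agent.Lib.MP_d57abb_ntW.EDefs

/-!
# Leaf E1: primitive vectors whose norm is divisible by a prime power
-/

set_option autoImplicit false

namespace Pool.Agent.Lib.MP_d57abb_ntW

open Finset Filter Topology Pool.Agent.Lib.MP_d57abb_nt Pool.Agent.Lib.MP_d57abb_nt.GA.TA Pool.Agent.Lib.MP_d57abb_nt.GA.TS
  Pool.Agent.Lib.MP_d57abb_nt.GA.TZ

attribute [local instance] GT.lab0

private theorem e1_ll {Q : ℕ} {v : ℤ × ℤ} (h : v ∈ Bx Q) (hc : IsCoprime v.1 v.2) :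
    Qd v ∧ (0 : ℝ) < (v.1 : ℝ) + v.2 ∧ (v.1 : ℝ) + v.2 ≤ 2 * Q ∧ (0 : ℝ) ≤ v.1 ∧ (0 : ℝ) ≤ v.2 := by
  unfold Bx at h
  rw [mem_product, mem_Icc, mem_Icc] at h
  obtain ⟨⟨h1, h2⟩, h3, h4⟩ := h
  have h5 : v ≠ 0 := by
    rintro rfl
    exact not_isCoprime_zero_zero (R := ℤ) hc
  have h6 : 0 < v.1 + v.2 := by
    by_contra h7
    apply h5
    apply Prod.ext
    · show v.1 = 0
      omega
    · show v.2 = 0
      omega
  refine ⟨⟨h1, h3, h5⟩, ?_, ?_, ?_, ?_⟩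
  · exact_mod_cast h6
  · have h7 : v.1 + v.2 ≤ 2 * (Q : ℤ) := by omega
    exact_mod_cast h7
  · exact_mod_cast h1
  · exact_mod_cast h3

/-- PROOF. `τ(v) = v₁ / (v₁ + v₂) ∈ [0, 1]` and `τ(v) - τ(v') = dt v v' / (ll v * ll v')`. For different `v, v' ∈ S`: `dt v v' ≠ 0` (`eq_of_dt_zero'`), so `|dt v v'| ≥ q` and `|τ(v) - τ(v')| ≥ δ := q / (4 Q²)`: `v ↦ ⌊τ(v) / δ⌋₊` is injective from `S` to `range (⌊1 / δ⌋₊ + 1)`. -/
theorem sep_card {q Q : ℕ} (hq : 0 < q) (hQ : 0 < Q) (S : Finset (ℤ × ℤ)) (hS : ∀ v ∈ S, v ∈ Bx Q ∧ IsCoprime v.1 v.2)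
    (hd : ∀ v ∈ S, ∀ v' ∈ S, (q : ℤ) ∣ dt v v') : (S.card : ℝ) ≤ 1 + 4 * (Q : ℝ) ^ 2 / q := by
  classical
  have hq' : (0 : ℝ) < q := by exact_mod_cast hq
  have hQ' : (0 : ℝ) < Q := by exact_mod_cast hQ
  have hD : (0 : ℝ) < 4 * (Q : ℝ) ^ 2 / q := by positivity
  set D : ℝ := 4 * (Q : ℝ) ^ 2 / q with hDdef
  have hmaps : ∀ v ∈ S, ⌊((v.1 : ℝ) / ((v.1 : ℝ) + v.2)) * D⌋₊ ∈ range (⌊D⌋₊ + 1) := by
    intro v hv
    obtain ⟨-, h1, -, h3, h4⟩ := e1_ll (hS v hv).1 (hS v hv).2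
    rw [mem_range, Nat.lt_succ_iff]
    apply Nat.floor_le_floor
    have h5 : (v.1 : ℝ) / ((v.1 : ℝ) + v.2) ≤ 1 := by
      rw [div_le_one h1]
      linarith
    calc (v.1 : ℝ) / ((v.1 : ℝ) + v.2) * D ≤ 1 * D := mul_le_mul_of_nonneg_right h5 hD.le
      _ = D := one_mul D
  have hinj : ∀ v ∈ S, ∀ w ∈ S,
      ⌊((v.1 : ℝ) / ((v.1 : ℝ) + v.2)) * D⌋₊ = ⌊((w.1 : ℝ) / ((w.1 : ℝ) + w.2)) * D⌋₊ → v = w := by
    intro v hv w hw hvw
    by_contra hne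
    obtain ⟨q1, h1, h2, h3, h4⟩ := e1_ll (hS v hv).1 (hS v hv).2
    obtain ⟨q2, k1, k2, k3, k4⟩ := e1_ll (hS w hw).1 (hS w hw).2
    have hdt : dt v w ≠ 0 := fun h0 => hne (eq_of_dt_zero' q1 q2 (hS v hv).2 (hS w hw).2 h0)
    have hge : (q : ℤ) ≤ |dt v w| := Int.le_of_dvd (abs_pos.2 hdt) ((dvd_abs _ _).2 (hd v hv w hw))
    have hge' : (q : ℝ) ≤ |(v.1 : ℝ) * w.2 - w.1 * v.2| := by
      have h7 : (q : ℝ) ≤ ((|dt v w| : ℤ) : ℝ) := by exact_mod_cast hge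
      rw [Int.cast_abs] at h7
      unfold dt at h7
      push_cast at h7
      exact h7
    have hsub : (v.1 : ℝ) / ((v.1 : ℝ) + v.2) - (w.1 : ℝ) / ((w.1 : ℝ) + w.2)
        = ((v.1 : ℝ) * w.2 - w.1 * v.2) / (((v.1 : ℝ) + v.2) * ((w.1 : ℝ) + w.2)) := by
      rw [div_sub_div _ _ h1.ne' k1.ne']
      congr 1
      ring
    have hll : ((v.1 : ℝ) + v.2) * ((w.1 : ℝ) + w.2) ≤ 4 * (Q : ℝ) ^ 2 := by
      calc ((v.1 : ℝ) + v.2) * ((w.1 : ℝ) + w.2) ≤ (2 * Q) * (2 * Q) :=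
            mul_le_mul h2 k2 k1.le (by positivity)
        _ = 4 * (Q : ℝ) ^ 2 := by ring
    have hll0 : (0 : ℝ) < ((v.1 : ℝ) + v.2) * ((w.1 : ℝ) + w.2) := mul_pos h1 k1
    have hbig : 1 ≤ |((v.1 : ℝ) / ((v.1 : ℝ) + v.2)) * D - ((w.1 : ℝ) / ((w.1 : ℝ) + w.2)) * D| := by
      rw [← sub_mul, hsub, abs_mul, abs_div, abs_of_pos hll0, abs_of_pos hD, hDdef]
      rw [div_mul_div_comm, le_div_iff₀ (mul_pos hll0 hq'), one_mul]
      calc ((v.1 : ℝ) + v.2) * ((w.1 : ℝ) + w.2) * q ≤ (4 * (Q : ℝ) ^ 2) * q :=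
            mul_le_mul_of_nonneg_right hll hq'.le
        _ ≤ (4 * (Q : ℝ) ^ 2) * |(v.1 : ℝ) * w.2 - w.1 * v.2| :=
            mul_le_mul_of_nonneg_left hge' (by positivity)
        _ = |(v.1 : ℝ) * w.2 - w.1 * v.2| * (4 * (Q : ℝ) ^ 2) := mul_comm _ _
    have n1 : (0 : ℝ) ≤ ((v.1 : ℝ) / ((v.1 : ℝ) + v.2)) * D := by positivity
    have n2 : (0 : ℝ) ≤ ((w.1 : ℝ) / ((w.1 : ℝ) + w.2)) * D := by positivity
    have f1 := Nat.floor_le n1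
    have f2 := Nat.lt_floor_add_one (((v.1 : ℝ) / ((v.1 : ℝ) + v.2)) * D)
    have f3 := Nat.floor_le n2
    have f4 := Nat.lt_floor_add_one (((w.1 : ℝ) / ((w.1 : ℝ) + w.2)) * D)
    rw [hvw] at f1 f2
    have hlt : |((v.1 : ℝ) / ((v.1 : ℝ) + v.2)) * D - ((w.1 : ℝ) / ((w.1 : ℝ) + w.2)) * D| < 1 := by
      rw [abs_lt]
      constructor <;> linarith
    linarith
  have hcard : S.card ≤ ⌊D⌋₊ + 1 := by
    have h1 := Finset.card_le_card_of_injOn (s := S) (t := range (⌊D⌋₊ + 1))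
      (fun v : ℤ × ℤ => ⌊((v.1 : ℝ) / ((v.1 : ℝ) + v.2)) * D⌋₊) (fun v hv => hmaps v hv)
      (fun v hv w hw h => hinj v hv w hw h)
    rwa [card_range] at h1
  have h2 : (S.card : ℝ) ≤ ((⌊D⌋₊ + 1 : ℕ) : ℝ) := by exact_mod_cast hcard
  have h3 := Nat.floor_le hD.le
  push_cast at h2
  linarith

private theorem e1_ndvd {p : ℕ} (hp : p.Prime) {s : ℕ} (hs : 1 ≤ s) {v : ℤ × ℤ} (hc : IsCoprime v.1 v.2)
    (hv : (p : ℤ) ^ s ∣ nm v) : ¬ (p : ℤ) ∣ v.2 := by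
  intro h
  have hp' : Prime (p : ℤ) := Nat.prime_iff_prime_int.1 hp
  have h1 : (p : ℤ) ∣ nm v := (dvd_pow_self _ (by omega)).trans hv
  have h2 : (p : ℤ) ∣ v.1 ^ 2 := by
    have h3 : v.1 ^ 2 = nm v - v.2 * (3 * v.1 + v.2) := by
      unfold nm
      ring
    rw [h3]
    exact dvd_sub h1 (h.mul_right _)
  have h4 : (p : ℤ) ∣ v.1 := hp'.dvd_of_dvd_pow h2
  exact hp'.not_isUnit (hc.isUnit_of_dvd' h4 h)

private theorem e1_split {p : ℕ} (hp : p.Prime) {s : ℕ} (hs : 1 ≤ s) {v w : ℤ × ℤ} (cv : IsCoprime v.1 v.2)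
    (cw : IsCoprime w.1 w.2) (hv : (p : ℤ) ^ s ∣ nm v) (hw : (p : ℤ) ^ s ∣ nm w) :
    (p : ℤ) ^ s ∣ dt v w ∨ (p : ℤ) ^ s ∣ v.1 * w.2 + w.1 * v.2 + 3 * v.2 * w.2 := by
  have hp' : Prime (p : ℤ) := Nat.prime_iff_prime_int.1 hp
  have hmul : (p : ℤ) ^ s ∣ dt v w * (v.1 * w.2 + w.1 * v.2 + 3 * v.2 * w.2) := by
    have h1 : dt v w * (v.1 * w.2 + w.1 * v.2 + 3 * v.2 * w.2) = nm v * w.2 ^ 2 - nm w * v.2 ^ 2 := by
      unfold dt nm
      ring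
    rw [h1]
    exact dvd_sub (hv.mul_right _) (hw.mul_right _)
  by_cases hD : (p : ℤ) ∣ dt v w
  · by_cases hE : (p : ℤ) ∣ v.1 * w.2 + w.1 * v.2 + 3 * v.2 * w.2
    · have h1 : (p : ℤ) ∣ v.2 * (2 * w.1 + 3 * w.2) := by
        have h2 : v.2 * (2 * w.1 + 3 * w.2) = (v.1 * w.2 + w.1 * v.2 + 3 * v.2 * w.2) - dt v w := by
          unfold dt
          ring
        rw [h2]
        exact dvd_sub hE hD
      have h3 : (p : ℤ) ∣ 2 * w.1 + 3 * w.2 :=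
        (hp'.dvd_or_dvd h1).resolve_left (e1_ndvd hp hs cv hv)
      have h4 : 5 * w.2 ^ 2 = (2 * w.1 + 3 * w.2) ^ 2 - 4 * nm w := by
        unfold nm
        ring
      have h5 : (p : ℤ) ∣ 5 * w.2 ^ 2 := by
        rw [h4]
        exact dvd_sub (dvd_pow h3 (by norm_num)) (((dvd_pow_self _ (by omega)).trans hw).mul_left _)
      have h6 : (p : ℤ) ∣ 5 := by
        rcases hp'.dvd_or_dvd h5 with h7 | h7
        · exact h7
        · exact absurd (hp'.dvd_of_dvd_pow h7) (e1_ndvd hp hs cw hw)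
      have h7 : p = 5 := by
        have h8 : p ∣ 5 := by exact_mod_cast h6
        exact (Nat.prime_dvd_prime_iff_eq hp (by norm_num)).1 h8
      have hs1 : s = 1 := by
        by_contra hne
        have h9 : (p : ℤ) ^ 2 ∣ nm w := (pow_dvd_pow _ (by omega)).trans hw
        have h10 : (p : ℤ) ^ 2 ∣ 5 * w.2 ^ 2 := by
          rw [h4]
          exact dvd_sub (pow_dvd_pow_of_dvd h3 2) (h9.mul_left _)
        have h11 : (p : ℤ) ∣ w.2 ^ 2 := by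
          rw [h7] at h10 ⊢
          push_cast at h10 ⊢
          obtain ⟨c, hc⟩ := h10
          exact ⟨c, by linarith⟩
        exact e1_ndvd hp hs cw hw (hp'.dvd_of_dvd_pow h11)
      left
      rw [hs1, pow_one]
      exact hD
    · left
      exact ((((hp'.coprime_iff_not_dvd).2 hE).pow_left (m := s))).dvd_of_dvd_mul_right hmul
  · right
    exact ((((hp'.coprime_iff_not_dvd).2 hD).pow_left (m := s))).dvd_of_dvd_mul_left hmul

open Classical in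
/-- PROOF. Let `q = p ^ s`; if the set `S` is empty it is clear, else let `v₀ ∈ S`, `v₀ = (x₀, y₀)`. For `v = (x, y)`, `v' = (x', y')` in `S`: `(x y' - x' y) (x y' + x' y + 3 y y') = y'² nm v - y² nm v'` is divisible by `q`. `p` does not divide `y` (`v` is primitive and `p ∣ nm v`). If `p` divides both factors, it divides
`y (2 x' + 3 y')`, so `2 x' + 3 y'`, and `4 nm v' = (2 x' + 3 y')² - 5 y'²`, so `p ∣ 5`, `p = 5`; then `s = 1` (for `5 ∣ 2 x + 3 y`: `4 nm v = (2 x + 3 y)² - 5 y²` is divisible by `25` only if `5 ∣ y`). So `q` divides one of the two factors (coprime factors: `IsCoprime.dvd_of_dvd_mul_left`; or `s = 1`).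
`S₁ = {v ∈ S : q ∣ dt v v₀}`, `S₂ = {v ∈ S : q ∣ x y₀ + x₀ y + 3 y y₀}`: in both sets `q ∣ dt v v'` for all `v, v'` (multiply by `y₀`, which is prime to `q`). `sep_card` twice. -/
theorem vec_pp {p : ℕ} (hp : p.Prime) {s Q : ℕ} (hs : 1 ≤ s) (hQ : 0 < Q) :
    (((Bx Q).filter (fun v => IsCoprime v.1 v.2 ∧ (p : ℤ) ^ s ∣ nm v)).card : ℝ) ≤ 2 * (1 + 4 * (Q : ℝ) ^ 2 / (p : ℝ) ^ s) := by
  classical
  have hp' : Prime (p : ℤ) := Nat.prime_iff_prime_int.1 hp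
  have hp0 : 0 < p ^ s := pow_pos hp.pos s
  set T := (Bx Q).filter (fun v => IsCoprime v.1 v.2 ∧ (p : ℤ) ^ s ∣ nm v) with hT
  have hmem : ∀ v, v ∈ T ↔ v ∈ Bx Q ∧ IsCoprime v.1 v.2 ∧ (p : ℤ) ^ s ∣ nm v := by
    intro v
    rw [hT, mem_filter]
  rcases T.eq_empty_or_nonempty with h0 | ⟨v₀, hv₀⟩
  · rw [h0, card_empty]
    push_cast
    positivity
  obtain ⟨-, c0, n0⟩ := (hmem v₀).1 hv₀
  have hcop : IsCoprime ((p : ℤ) ^ s) v₀.2 :=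
    (((hp'.coprime_iff_not_dvd).2 (e1_ndvd hp hs c0 n0)).pow_left (m := s))
  have hcast : ((p ^ s : ℕ) : ℤ) = (p : ℤ) ^ s := by push_cast; rfl
  have b1 := sep_card (q := p ^ s) (Q := Q) hp0 hQ (T.filter (fun v => (p : ℤ) ^ s ∣ dt v v₀))
    (by
      intro v hv
      rw [mem_filter] at hv
      obtain ⟨m1, m2, -⟩ := (hmem v).1 hv.1
      exact ⟨m1, m2⟩)
    (by
      intro v hv w hw
      rw [mem_filter] at hv hw
      rw [hcast]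
      apply hcop.dvd_of_dvd_mul_left
      have h1 : v₀.2 * dt v w = dt v v₀ * w.2 - dt w v₀ * v.2 := by
        unfold dt
        ring
      rw [h1]
      exact dvd_sub (hv.2.mul_right _) (hw.2.mul_right _))
  have b2 := sep_card (q := p ^ s) (Q := Q) hp0 hQ
    (T.filter (fun v => (p : ℤ) ^ s ∣ v.1 * v₀.2 + v₀.1 * v.2 + 3 * v.2 * v₀.2))
    (by
      intro v hv
      rw [mem_filter] at hv
      obtain ⟨m1, m2, -⟩ := (hmem v).1 hv.1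
      exact ⟨m1, m2⟩)
    (by
      intro v hv w hw
      rw [mem_filter] at hv hw
      rw [hcast]
      apply hcop.dvd_of_dvd_mul_left
      have h1 : v₀.2 * dt v w = (v.1 * v₀.2 + v₀.1 * v.2 + 3 * v.2 * v₀.2) * w.2
          - (w.1 * v₀.2 + v₀.1 * w.2 + 3 * w.2 * v₀.2) * v.2 := by
        unfold dt
        ring
      rw [h1]
      exact dvd_sub (hv.2.mul_right _) (hw.2.mul_right _))
  have hsub : T ⊆ (T.filter (fun v => (p : ℤ) ^ s ∣ dt v v₀))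
      ∪ (T.filter (fun v => (p : ℤ) ^ s ∣ v.1 * v₀.2 + v₀.1 * v.2 + 3 * v.2 * v₀.2)) := by
    intro v hv
    obtain ⟨-, cv, nv⟩ := (hmem v).1 hv
    rcases e1_split hp hs cv c0 nv n0 with h | h
    · exact mem_union_left _ (mem_filter.2 ⟨hv, h⟩)
    · exact mem_union_right _ (mem_filter.2 ⟨hv, h⟩)
  have hc := (card_le_card hsub).trans (card_union_le _ _)
  have hc' : (T.card : ℝ) ≤ ((T.filter (fun v => (p : ℤ) ^ s ∣ dt v v₀)).card : ℝ)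
      + ((T.filter (fun v => (p : ℤ) ^ s ∣ v.1 * v₀.2 + v₀.1 * v.2 + 3 * v.2 * v₀.2)).card : ℝ) := by
    exact_mod_cast hc
  have hcast' : ((p ^ s : ℕ) : ℝ) = (p : ℝ) ^ s := by push_cast; rfl
  rw [hcast'] at b1 b2
  linarith

end Pool.Agent.Lib.MP_d57abb_ntW
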