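import Pool.Agent.Lib.MP_d57abb_ntW.E3

/-!
# Leaf E5: the truncated function is periodic
-/

set_option autoImplicit false

namespace Pool.Agent.Lib.MP_d57abb_ntW

open Finset Filter Topology Pool.Agent.Lib.MP_d57abb_nt Pool.Agent.Lib.MP_d57abb_nt.GA.TA Pool.Agent.Lib.MP_d57abb_nt.GA.TS
  Pool.Agent.Lib.MP_d57abb_nt.GA.TZ

attribute [local instance] GT.lab0

private theorem e5_filter (y m : ℕ) : m.primeFactors.filter (fun p => p ≤ y) =
    ((range (y + 1)).filter Nat.Prime).filter (fun p => ¬ m.factorization p = 0) := by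
  ext p
  rw [mem_filter, mem_filter, mem_filter, mem_range]
  constructor
  · rintro ⟨h1, h2⟩
    refine ⟨⟨by omega, Nat.prime_of_mem_primeFactors h1⟩, fun h3 => ?_⟩
    rw [← Nat.support_factorization, Finsupp.mem_support_iff] at h1
    exact h1 h3
  · rintro ⟨⟨h1, _⟩, h3⟩
    refine ⟨?_, by omega⟩
    rw [← Nat.support_factorization, Finsupp.mem_support_iff]
    exact h3

private theorem e5_prod {y m : ℕ} (hm : m ≠ 0) : (∏ p ∈ (range (y + 1)).filter Nat.Prime, p ^ m.factorization p) *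
    ∏ p ∈ m.primeFactors.filter (fun p => ¬ p ≤ y), p ^ m.factorization p = m := by
  have h1 := Nat.prod_factorization_pow_eq_self hm
  unfold Finsupp.prod at h1
  rw [Nat.support_factorization, ← Finset.prod_filter_mul_prod_filter_not m.primeFactors (fun p => p ≤ y)] at h1
  rw [e5_filter, Finset.prod_filter] at h1
  have h2 : ∏ p ∈ (range (y + 1)).filter Nat.Prime, (if ¬ m.factorization p = 0 then p ^ m.factorization p else 1) =
      ∏ p ∈ (range (y + 1)).filter Nat.Prime, p ^ m.factorization p := by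
    refine Finset.prod_congr rfl fun p _ => ?_
    by_cases h : m.factorization p = 0
    · rw [if_neg (not_not.2 h), h, pow_zero]
    · rw [if_pos h]
  rw [h2] at h1
  exact h1

private theorem e5_tw (g : ℕ → ℂ) {W : ℕ} (ψ : DirichletCharacter ℂ W) (y m : ℕ) : tw g (fun n => ψ n) y m =
    (∏ p ∈ (range (y + 1)).filter Nat.Prime, if ¬ m.factorization p = 0 then g (p ^ m.factorization p) else 1) *
      ψ ((∏ p ∈ m.primeFactors.filter (fun p => ¬ p ≤ y), p ^ m.factorization p : ℕ) : ZMod W) := by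
  unfold tw
  rw [← Finset.prod_filter_mul_prod_filter_not m.primeFactors (fun p => p ≤ y)]
  have h1 : ∏ p ∈ m.primeFactors.filter (fun p => p ≤ y),
      (if p ≤ y then g (p ^ m.factorization p) else ψ (p : ZMod W) ^ m.factorization p) =
      ∏ p ∈ m.primeFactors.filter (fun p => p ≤ y), g (p ^ m.factorization p) :=
    Finset.prod_congr rfl fun p hp => if_pos (mem_filter.1 hp).2
  have h2 : ∏ p ∈ m.primeFactors.filter (fun p => ¬ p ≤ y),
      (if p ≤ y then g (p ^ m.factorization p) else ψ (p : ZMod W) ^ m.factorization p) =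
      ψ ((∏ p ∈ m.primeFactors.filter (fun p => ¬ p ≤ y), p ^ m.factorization p : ℕ) : ZMod W) := by
    rw [Nat.cast_prod, map_prod]
    refine Finset.prod_congr rfl fun p hp => ?_
    rw [if_neg (mem_filter.1 hp).2, Nat.cast_pow, map_pow]
  rw [h1, h2, e5_filter, Finset.prod_filter]

private theorem e5_key (g : ℕ → ℂ) {W : ℕ} (ψ : DirichletCharacter ℂ W) {y A m m' : ℕ} (hm : m ≠ 0) (hm' : m' ≠ 0)
    (h : m ≡ m' [MOD W * ∏ p ∈ (range (y + 1)).filter Nat.Prime, p ^ A])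
    (hg : ∀ p : ℕ, p.Prime → p ≤ y → ¬ p ^ A ∣ m) (hg' : ∀ p : ℕ, p.Prime → p ≤ y → ¬ p ^ A ∣ m') :
    tw g (fun n => ψ n) y m = tw g (fun n => ψ n) y m' := by
  have hP : ∀ p ∈ (range (y + 1)).filter Nat.Prime, p.Prime ∧ p ≤ y := by
    intro p hp
    rw [mem_filter, mem_range] at hp
    exact ⟨hp.2, by omega⟩
  have hv : ∀ p ∈ (range (y + 1)).filter Nat.Prime, m.factorization p = m'.factorization p := by
    intro p hp
    obtain ⟨h1, h2⟩ := hP p hp
    have h3 : m ≡ m' [MOD p ^ A] := h.of_dvd ((Finset.dvd_prod_of_mem (fun p => p ^ A) hp).mul_left W)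
    have h4 : ∀ e, p ^ e ∣ m ↔ p ^ e ∣ m' := by
      intro e
      by_cases he : e ≤ A
      · exact (h3.of_dvd (pow_dvd_pow p he)).dvd_iff dvd_rfl
      · have h5 : p ^ A ∣ p ^ e := pow_dvd_pow p (by omega)
        exact ⟨fun h6 => absurd (h5.trans h6) (hg p h1 h2), fun h6 => absurd (h5.trans h6) (hg' p h1 h2)⟩
    refine le_antisymm ?_ ?_
    · exact (h1.pow_dvd_iff_le_factorization hm').1 ((h4 _).1 ((h1.pow_dvd_iff_le_factorization hm).2 le_rfl))
    · exact (h1.pow_dvd_iff_le_factorization hm).1 ((h4 _).2 ((h1.pow_dvd_iff_le_factorization hm').2 le_rfl))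
  have hS : ∏ p ∈ (range (y + 1)).filter Nat.Prime, p ^ m.factorization p =
      ∏ p ∈ (range (y + 1)).filter Nat.Prime, p ^ m'.factorization p :=
    Finset.prod_congr rfl fun p hp => by rw [hv p hp]
  have hS0 : ∏ p ∈ (range (y + 1)).filter Nat.Prime, p ^ m.factorization p ≠ 0 :=
    Finset.prod_ne_zero_iff.2 fun p hp => pow_ne_zero _ (hP p hp).1.ne_zero
  have hSd : (∏ p ∈ (range (y + 1)).filter Nat.Prime, p ^ m.factorization p) ∣
      ∏ p ∈ (range (y + 1)).filter Nat.Prime, p ^ A := by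
    refine Finset.prod_dvd_prod_of_dvd _ _ fun p hp => pow_dvd_pow p ?_
    by_contra h1
    exact hg p (hP p hp).1 (hP p hp).2 (((hP p hp).1.pow_dvd_iff_le_factorization hm).2 (by omega))
  have e1 := e5_prod (y := y) hm
  have e2 := e5_prod (y := y) hm'
  rw [← hS] at e2
  have hn : (∏ p ∈ m.primeFactors.filter (fun p => ¬ p ≤ y), p ^ m.factorization p) ≡
      (∏ p ∈ m'.primeFactors.filter (fun p => ¬ p ≤ y), p ^ m'.factorization p) [MOD W] := by
    refine Nat.ModEq.mul_left_cancel' hS0 ?_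
    rw [e1, e2]
    refine h.of_dvd ?_
    rw [mul_comm]
    exact mul_dvd_mul_left W hSd
  rw [e5_tw, e5_tw, (ZMod.natCast_eq_natCast_iff _ _ _).2 hn]
  refine congrArg (fun z => z * _) (Finset.prod_congr rfl fun p hp => ?_)
  rw [hv p hp]

/-- PROOF. `M = W * ∏ p ∈ (range (y + 1)).filter Nat.Prime, p ^ A`. Call `k` good if no `p ^ A`, `p ≤ y`, divides `ff k`. CLAIM: if `k ≡ k' [MOD M]` are good then `tw (ff k) = tw (ff k')`. Indeed `ff k ≡ ff k'` modulo `M`, so `v_p(ff k) = v_p(ff k') < A` for `p ≤ y`; let `S = ∏_(p ≤ y) p ^ v_p`, `ff k = S n`, `ff k' = S n'`;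
`S * W ∣ M` and `S (n - n') ≡ 0` modulo `S W`: `n ≡ n' [MOD W]`. `tw (ff k) = ∏_(p ≤ y, p ∣ ff k) g (p ^ v_p) * ψ n` (the prime factors of `n` are the prime factors `> y` of `ff k`, with the same exponents; `ψ` is completely multiplicative). `F a` is the value `tw (ff k)` for a good `k ≡ a [MOD M]`, if there is one, else `0` (`Classical.choose`); `tw_le`-like bound. -/
theorem tw_per {g : ℕ → ℂ} (hle : ∀ n : ℕ, 0 < n → ‖g n‖ ≤ 1) {W : ℕ} (hW : 0 < W) (ψ : DirichletCharacter ℂ W) {y A : ℕ}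
    (hy : W ≤ y) (hA : 1 ≤ A) : ∃ M : ℕ, 0 < M ∧ ∃ F : ℕ → ℂ, (∀ a, ‖F a‖ ≤ 1) ∧ (∀ a b, a ≡ b [MOD M] → F a = F b) ∧
      ∀ k : ℕ, (∀ p : ℕ, p.Prime → p ≤ y → ¬ p ^ A ∣ ff k) → F k = tw g (fun n => ψ n) y (ff k) := by
  classical
  let P : Finset ℕ := (range (y + 1)).filter Nat.Prime
  let M : ℕ := W * ∏ p ∈ P, p ^ A
  let good : ℕ → Prop := fun k => ∀ p : ℕ, p.Prime → p ≤ y → ¬ p ^ A ∣ ff k
  have hM : 0 < M := Nat.mul_pos hW (Finset.prod_pos fun p hp => pow_pos (mem_filter.1 hp).2.pos A)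
  have hff : ∀ k, ff k ≠ 0 := fun k => by
    unfold ff
    omega
  have hmod : ∀ k k', k ≡ k' [MOD M] → ff k ≡ ff k' [MOD M] := by
    intro k k' h
    unfold ff
    exact ((h.pow 2).add (h.mul_left 3)).add_right 1
  have hkey : ∀ k k', good k → good k' → k ≡ k' [MOD M] → tw g (fun n => ψ n) y (ff k) = tw g (fun n => ψ n) y (ff k') :=
    fun k k' h h' hk => e5_key g ψ (hff k) (hff k') (hmod k k' hk) h h'
  let F : ℕ → ℂ := fun a => if h : ∃ k, good k ∧ k ≡ a [MOD M] then tw g (fun n => ψ n) y (ff h.choose) else 0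
  have hF : ∀ a k, good k → k ≡ a [MOD M] → F a = tw g (fun n => ψ n) y (ff k) := by
    intro a k hk hka
    have h : ∃ k, good k ∧ k ≡ a [MOD M] := ⟨k, hk, hka⟩
    change (if h : ∃ k, good k ∧ k ≡ a [MOD M] then tw g (fun n => ψ n) y (ff h.choose) else 0) = _
    rw [dif_pos h]
    exact hkey _ _ h.choose_spec.1 hk (h.choose_spec.2.trans hka.symm)
  have hF0 : ∀ a, (¬ ∃ k, good k ∧ k ≡ a [MOD M]) → F a = 0 := fun a h => dif_neg h
  refine ⟨M, hM, F, fun a => ?_, fun a b hab => ?_, fun k hk => hF k k hk (Nat.ModEq.refl k)⟩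
  · by_cases h : ∃ k, good k ∧ k ≡ a [MOD M]
    · obtain ⟨k, hk, hka⟩ := h
      rw [hF a k hk hka]
      exact tw_le hle (fun n => ψ.norm_le_one _) y (ff k)
    · rw [hF0 a h, norm_zero]
      exact zero_le_one
  · by_cases h : ∃ k, good k ∧ k ≡ a [MOD M]
    · obtain ⟨k, hk, hka⟩ := h
      rw [hF a k hk hka, hF b k hk (hka.trans hab)]
    · rw [hF0 a h, hF0 b fun ⟨k, hk, hkb⟩ => h ⟨k, hk, hkb.trans hab.symm⟩]

end Pool.Agent.Lib.MP_d57abb_ntW
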