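import Pool.Agent.Lib.MP_d57abb_ntW.DDefs

/-!
# Pretentious functions: definitions
-/

set_option autoImplicit false

namespace Pool.Agent.Lib.MP_d57abb_ntW

open Finset

noncomputable section

/-- The split primes. -/
def Spl (p : ℕ) : Prop := p.Prime ∧ (p % 5 = 1 ∨ p % 5 = 4)

instance : DecidablePred Spl := fun p => inferInstanceAs (Decidable (p.Prime ∧ (p % 5 = 1 ∨ p % 5 = 4)))

/-- The function which is `g` at the powers of the primes `p ≤ y` and `ψ` at the other primes. -/
def tw (g ψ : ℕ → ℂ) (y n : ℕ) : ℂ :=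
  ∏ p ∈ n.primeFactors, if p ≤ y then g (p ^ n.factorization p) else ψ p ^ n.factorization p

end

end Pool.Agent.Lib.MP_d57abb_ntW
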