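import Pool.Agent.Lib.MP_d57abb_ntW.D12
import Pool.Agent.Lib.MP_d57abb_ntW.EDefs

/-!
# Leaf E6: periodic functions
-/

set_option autoImplicit false

namespace Pool.Agent.Lib.MP_d57abb_ntW

open Finset Filter Topology Pool.Agent.Lib.MP_d57abb_nt Pool.Agent.Lib.MP_d57abb_nt.GA.TA Pool.Agent.Lib.MP_d57abb_nt.GA.TS
  Pool.Agent.Lib.MP_d57abb_nt.GA.TZ

attribute [local instance] GT.lab0

/-- PROOF. `F k = ∑ a ∈ range M, F a * (if k ≡ a [MOD M] then 1 else 0)`; `dens` for `M` and each `a < M` gives `K a`; `m = ∑ a ∈ range M, F a * K a`. -/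
theorem per_lim {M : ℕ} (hM : 0 < M) (F : ℕ → ℂ) (hF : ∀ a b, a ≡ b [MOD M] → F a = F b) : ∃ m : ℂ, ∀ c : ℝ, 1 < c →
    Tendsto (fun N : ℕ => (∑ k ∈ Icc 1 N, (tc c k : ℂ) * F k) / N) atTop (𝓝 (m * Real.log c)) := by
  choose K hK0 hK using fun a => dens M hM a
  refine ⟨∑ a ∈ range M, F a * (K a : ℂ), fun c hc => ?_⟩
  have h1 : ∀ N : ℕ, (∑ k ∈ Icc 1 N, (tc c k : ℂ) * F k) / N = ∑ a ∈ range M, F a *
      (((∑ k ∈ (Icc 1 N).filter (fun k => k ≡ a [MOD M]), (tc c k : ℝ)) / N : ℝ) : ℂ) := by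
    intro N
    have h2 : ∀ k ∈ Icc 1 N, (tc c k : ℂ) * F k =
        ∑ a ∈ range M, if k ≡ a [MOD M] then (tc c k : ℂ) * F a else 0 := by
      intro k _
      rw [sum_eq_single (k % M)]
      · rw [if_pos (Nat.mod_modEq k M).symm, hF k (k % M) (Nat.mod_modEq k M).symm]
      · intro b hb hbk
        rw [if_neg]
        intro h
        apply hbk
        have h3 : k % M = b % M := h
        rw [h3, Nat.mod_eq_of_lt (mem_range.1 hb)]
      · intro h
        exact absurd (mem_range.2 (Nat.mod_lt _ hM)) h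
    rw [sum_congr rfl h2, sum_comm, Finset.sum_div]
    refine sum_congr rfl fun a _ => ?_
    rw [← sum_filter, ← sum_mul]
    push_cast
    ring
  have h4 : (∑ a ∈ range M, F a * (K a : ℂ)) * (Real.log c : ℂ) =
      ∑ a ∈ range M, F a * ((K a * Real.log c : ℝ) : ℂ) := by
    rw [sum_mul]
    refine sum_congr rfl fun a _ => ?_
    push_cast
    ring
  rw [h4]
  simp only [h1]
  refine tendsto_finsetSum _ fun a _ => ?_
  exact ((Complex.continuous_ofReal.tendsto _).comp (hK a c hc)).const_mul (F a)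

end Pool.Agent.Lib.MP_d57abb_ntW
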