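import Pool.Agent.Lib.MP_d57abb_ntW.EDefs

/-!
# Leaf E7: exchange of limits
-/

set_option autoImplicit false

namespace Pool.Agent.Lib.MP_d57abb_ntW

open Finset Filter Topology Pool.Agent.Lib.MP_d57abb_nt Pool.Agent.Lib.MP_d57abb_nt.GA.TA Pool.Agent.Lib.MP_d57abb_nt.GA.TS
  Pool.Agent.Lib.MP_d57abb_nt.GA.TZ

attribute [local instance] GT.lab0

/-- PROOF. For `c = exp 1` (`log c = 1`): `‖m n - m k‖ ≤ 4 ε` for `n, k ≥ n0` (compare at a large `N`), so `m` is a Cauchy sequence with a limit `m₀`. For every `c`: `‖S c N - m₀ log c‖ ≤ ‖S c N - R n c N‖ + ‖R n c N - m n log c‖ + ‖m n - m₀‖ log c`, each `≤ ε` for a fixed large `n` and large `N`. -/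
theorem exch (S : ℝ → ℕ → ℂ) (R : ℕ → ℝ → ℕ → ℂ) (m : ℕ → ℂ)
    (h1 : ∀ n : ℕ, ∀ c : ℝ, 1 < c → Tendsto (fun N : ℕ => R n c N) atTop (𝓝 (m n * Real.log c)))
    (h2 : ∀ c : ℝ, 1 < c → ∀ ε : ℝ, 0 < ε → ∃ n0 : ℕ, ∀ n : ℕ, n0 ≤ n → ∀ᶠ N : ℕ in atTop, ‖S c N - R n c N‖ ≤ ε) :
    ∃ m₀ : ℂ, ∀ c : ℝ, 1 < c → Tendsto (fun N : ℕ => S c N) atTop (𝓝 (m₀ * Real.log c)) := by
  have hlog : Real.log (Real.exp 1) = 1 := Real.log_exp 1
  have he1 : (1 : ℝ) < Real.exp 1 := Real.one_lt_exp_iff.2 one_pos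
  have hC : ∀ ε : ℝ, 0 < ε → ∃ n0 : ℕ, ∀ n, n0 ≤ n → ∀ k, n0 ≤ k → ‖m n - m k‖ ≤ 4 * ε := by
    intro ε hε
    obtain ⟨n0, hn0⟩ := h2 (Real.exp 1) he1 ε hε
    refine ⟨n0, fun n hn k hk => ?_⟩
    have t1 : ∀ j, ∀ᶠ N : ℕ in atTop, ‖R j (Real.exp 1) N - m j‖ ≤ ε := by
      intro j
      have h := h1 j (Real.exp 1) he1
      rw [hlog, Complex.ofReal_one, mul_one] at h
      have h' := (Metric.tendsto_nhds.1 h) ε hε
      filter_upwards [h'] with N hN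
      rw [dist_eq_norm] at hN
      exact hN.le
    obtain ⟨N, a1, a2, a3, a4⟩ := ((hn0 n hn).and ((hn0 k hk).and ((t1 n).and (t1 k)))).exists
    have e1 : m n - m k = -(R n (Real.exp 1) N - m n) - (S (Real.exp 1) N - R n (Real.exp 1) N) +
        (S (Real.exp 1) N - R k (Real.exp 1) N) + (R k (Real.exp 1) N - m k) := by ring
    rw [e1]
    refine (norm_add_le _ _).trans ?_
    have b1 := norm_add_le (-(R n (Real.exp 1) N - m n) - (S (Real.exp 1) N - R n (Real.exp 1) N))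
      (S (Real.exp 1) N - R k (Real.exp 1) N)
    have b2 := norm_sub_le (-(R n (Real.exp 1) N - m n)) (S (Real.exp 1) N - R n (Real.exp 1) N)
    rw [norm_neg] at b2
    linarith
  have hCau : CauchySeq m := by
    rw [Metric.cauchySeq_iff]
    intro ε hε
    obtain ⟨n0, hn0⟩ := hC (ε / 8) (by positivity)
    refine ⟨n0, fun n hn k hk => ?_⟩
    rw [dist_eq_norm]
    have h := hn0 n hn k hk
    linarith
  obtain ⟨m₀, hm₀⟩ := cauchySeq_tendsto_of_complete hCau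
  refine ⟨m₀, fun c hc => ?_⟩
  have hL : 0 < Real.log c := Real.log_pos hc
  rw [Metric.tendsto_nhds]
  intro ε hε
  obtain ⟨n0, hn0⟩ := h2 c hc (ε / 4) (by positivity)
  have hd : 0 < ε / (4 * Real.log c) := by positivity
  have hm1 : ∀ᶠ n in atTop, dist (m n) m₀ < ε / (4 * Real.log c) := (Metric.tendsto_nhds.1 hm₀) _ hd
  obtain ⟨n, hn1, hn2⟩ := (hm1.and (eventually_ge_atTop n0)).exists
  have t1 := (Metric.tendsto_nhds.1 (h1 n c hc)) (ε / 4) (by positivity)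
  filter_upwards [hn0 n hn2, t1] with N g1 g2
  rw [dist_eq_norm] at g2 hn1 ⊢
  have e1 : S c N - m₀ * Real.log c = (S c N - R n c N) + (R n c N - m n * Real.log c) +
      (m n - m₀) * Real.log c := by ring
  rw [e1]
  have b1 := norm_add_le ((S c N - R n c N) + (R n c N - m n * Real.log c)) ((m n - m₀) * Real.log c)
  have b2 := norm_add_le (S c N - R n c N) (R n c N - m n * Real.log c)
  have b3 : ‖(m n - m₀) * (Real.log c : ℂ)‖ ≤ ε / 4 := by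
    rw [norm_mul, Complex.norm_real, Real.norm_eq_abs, abs_of_pos hL]
    have h5 := mul_le_mul_of_nonneg_right hn1.le hL.le
    refine h5.trans (le_of_eq ?_)
    field_simp
  linarith

private theorem E7_log (X : ℕ) (hX : 1 ≤ X) : 1 / ((X : ℝ) + 1) ≤ Real.log (X + 1) - Real.log X ∧
    Real.log (X + 1) - Real.log X ≤ 1 / (X : ℝ) := by
  have h0 : (0 : ℝ) < X := by exact_mod_cast hX
  have h1 : (0 : ℝ) < X + 1 := by linarith
  have h2 : (0 : ℝ) < (X + 1) / X := div_pos h1 h0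
  rw [← Real.log_div h1.ne' h0.ne']
  constructor
  · refine le_trans (le_of_eq ?_) (Real.one_sub_inv_le_log_of_pos h2)
    rw [inv_div]
    field_simp
    ring
  · refine (Real.log_le_sub_one_of_pos h2).trans (le_of_eq ?_)
    field_simp
    ring

private theorem E7_harm {A : ℕ} (hA : 1 ≤ A) (n : ℕ) :
    ‖(∑ k ∈ Ioc A (A + n), (1 : ℂ) / k) - ((Real.log ((A + n : ℕ) : ℝ) - Real.log A : ℝ) : ℂ)‖ ≤
      1 / (A : ℝ) - 1 / ((A + n : ℕ) : ℝ) := by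
  induction n with
  | zero => simp
  | succ n ih =>
    have hX : 1 ≤ A + n := by omega
    obtain ⟨X, hXe⟩ : ∃ X, X = A + n := ⟨_, rfl⟩
    have h3 : A + (n + 1) = X + 1 := by omega
    rw [h3, Finset.sum_Ioc_succ_top (by omega : A ≤ X)]
    rw [← hXe] at ih hX
    obtain ⟨h1, h2⟩ := E7_log X hX
    have h0 : (0 : ℝ) < X := by exact_mod_cast hX
    have h4 : ((((X + 1 : ℕ) : ℝ))) = (X : ℝ) + 1 := by push_cast; ring
    have e1 : (∑ k ∈ Ioc A X, (1 : ℂ) / k) + 1 / ((X + 1 : ℕ) : ℂ) -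
        ((Real.log ((X + 1 : ℕ) : ℝ) - Real.log A : ℝ) : ℂ) =
        ((∑ k ∈ Ioc A X, (1 : ℂ) / k) - ((Real.log (X : ℝ) - Real.log A : ℝ) : ℂ)) +
          ((1 / ((X : ℝ) + 1) - (Real.log ((X : ℝ) + 1) - Real.log X) : ℝ) : ℂ) := by
      rw [h4]
      push_cast
      ring
    rw [e1]
    refine (norm_add_le _ _).trans ?_
    rw [Complex.norm_real, Real.norm_eq_abs, abs_of_nonpos (by linarith), h4]
    have h5 := ih
    linarith

private theorem E7_sum {b e : ℕ → ℂ} (he : ∀ N, e (N + 1) = e N + b (N + 1)) {ε K : ℝ} (hε : 0 ≤ ε)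
    (hb : ∀ N, ‖e N‖ ≤ ε * N + K) {A : ℕ} (hA : 1 ≤ A) (n : ℕ) :
    ‖(∑ k ∈ Ioc A (A + n), b k / k) - e (A + n) / ((A + n : ℕ) : ℂ)‖ ≤
      ε * (Real.log ((A + n : ℕ) : ℝ) - Real.log A) + K * (1 / (A : ℝ) - 1 / ((A + n : ℕ) : ℝ)) + (ε + K) := by
  have hK : 0 ≤ K := by
    have h := (norm_nonneg _).trans (hb 0)
    simpa using h
  have hA0 : (0 : ℝ) < A := by exact_mod_cast hA
  have hA1 : (1 : ℝ) ≤ A := by exact_mod_cast hA
  induction n with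
  | zero =>
    rw [Nat.add_zero, Finset.Ioc_self, Finset.sum_empty, zero_sub, norm_neg, norm_div, Complex.norm_natCast,
      sub_self, sub_self, mul_zero, mul_zero, zero_add, zero_add, div_le_iff₀ hA0]
    refine (hb A).trans ?_
    nlinarith
  | succ n ih =>
    have hX : 1 ≤ A + n := by omega
    obtain ⟨X, hXe⟩ : ∃ X, X = A + n := ⟨_, rfl⟩
    have h3 : A + (n + 1) = X + 1 := by omega
    rw [h3, Finset.sum_Ioc_succ_top (by omega : A ≤ X)]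
    rw [← hXe] at ih hX
    obtain ⟨h1, h2⟩ := E7_log X hX
    have h0 : (0 : ℝ) < X := by exact_mod_cast hX
    have h0c : (X : ℂ) ≠ 0 := by
      have : X ≠ 0 := by omega
      exact_mod_cast this
    have h1c : (X : ℂ) + 1 ≠ 0 := by
      have : X + 1 ≠ 0 := by omega
      exact_mod_cast this
    have h4 : ((((X + 1 : ℕ) : ℝ))) = (X : ℝ) + 1 := by push_cast; ring
    have e1 : (∑ k ∈ Ioc A X, b k / k) + b (X + 1) / ((X + 1 : ℕ) : ℂ) - e (X + 1) / ((X + 1 : ℕ) : ℂ) =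
        ((∑ k ∈ Ioc A X, b k / k) - e X / (X : ℂ)) + e X / ((X : ℂ) * ((X : ℂ) + 1)) := by
      rw [he X]
      push_cast
      field_simp
      ring
    rw [e1]
    refine (norm_add_le _ _).trans ?_
    have h5 : ‖e X / ((X : ℂ) * ((X : ℂ) + 1))‖ ≤ ε * (1 / ((X : ℝ) + 1)) + K * (1 / (X : ℝ) - 1 / ((X : ℝ) + 1)) := by
      have h6 : ‖(X : ℂ) * ((X : ℂ) + 1)‖ = (X : ℝ) * ((X : ℝ) + 1) := by
        rw [norm_mul, Complex.norm_natCast]
        congr 1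
        have h7 : (X : ℂ) + 1 = ((X + 1 : ℕ) : ℂ) := by push_cast; ring
        rw [h7, Complex.norm_natCast, h4]
      have h8 : (0 : ℝ) < (X : ℝ) * ((X : ℝ) + 1) := by positivity
      rw [norm_div, h6, div_le_iff₀ h8]
      refine (hb X).trans (le_of_eq ?_)
      field_simp
      ring
    have h9 : ε * (1 / ((X : ℝ) + 1)) ≤ ε * (Real.log ((X : ℝ) + 1) - Real.log X) :=
      mul_le_mul_of_nonneg_left h1 hε
    rw [h4]
    have h10 := ih
    linarith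

/-- From natural means to windows. PROOF. `s N = ∑_(k ≤ N) a k = m N + e N`, `‖e N‖ ≤ (ε / 3) N + K₀` for all `N`. `∑_(A < k ≤ X) a k / k = ∑ (s k - s (k - 1)) / k`: the part of `m N` is `m ∑ 1 / k = m log (X / A) + O(|m|)`, the part of `e` is `e X / X - e A / (A + 1) + ∑_(A < k < X) e k / (k (k + 1))` (summation by parts), at most
`(ε / 3) (2 + 1 + log (X / A)) + 4 K₀`. MODEL: `tail_win` in `GV/TailS.lean`. -/
theorem win_of_nat {a : ℕ → ℂ} {m : ℂ} (h : Tendsto (fun N : ℕ => (∑ k ∈ Icc 1 N, a k) / N) atTop (𝓝 m)) {ε : ℝ} (hε : 0 < ε) :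
    ∃ K : ℝ, ∀ A X : ℕ, 1 ≤ A → A ≤ X →
      ‖(∑ k ∈ Ioc A X, a k / k) - m * Real.log (X / A)‖ ≤ ε * Real.log (X / A) + K := by
  obtain ⟨e, he⟩ : ∃ e : ℕ → ℂ, e = fun N => (∑ k ∈ Icc 1 N, a k) - m * N := ⟨_, rfl⟩
  have h1 : ∀ᶠ N : ℕ in atTop, ‖e N‖ ≤ ε * N := by
    have h2 := (Metric.tendsto_nhds.1 h) ε hε
    filter_upwards [h2, eventually_ge_atTop 1] with N hN hN1
    rw [dist_eq_norm] at hN
    have h0 : (0 : ℝ) < N := by exact_mod_cast hN1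
    have h0c : (N : ℂ) ≠ 0 := by
      have : N ≠ 0 := by omega
      exact_mod_cast this
    have h3 : e N = ((∑ k ∈ Icc 1 N, a k) / N - m) * N := by
      rw [he]
      show (∑ k ∈ Icc 1 N, a k) - m * N = _
      field_simp
    rw [h3, norm_mul, Complex.norm_natCast]
    exact mul_le_mul_of_nonneg_right hN.le h0.le
  obtain ⟨N0, hN0⟩ := eventually_atTop.1 h1
  obtain ⟨K, hK⟩ : ∃ K : ℝ, K = ∑ N ∈ Finset.range N0, ‖e N‖ := ⟨_, rfl⟩
  have hK0 : 0 ≤ K := by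
    rw [hK]
    exact Finset.sum_nonneg fun _ _ => norm_nonneg _
  have hb : ∀ N, ‖e N‖ ≤ ε * N + K := by
    intro N
    have hN : (0 : ℝ) ≤ ε * N := by positivity
    by_cases hNN : N0 ≤ N
    · have h2 := hN0 N hNN
      linarith
    · have h2 : ‖e N‖ ≤ K := by
        rw [hK]
        exact Finset.single_le_sum (f := fun N => ‖e N‖) (fun _ _ => norm_nonneg _)
          (Finset.mem_range.2 (not_le.1 hNN))
      linarith
  refine ⟨‖m‖ + K + 2 * (ε + K), fun A X hA hX => ?_⟩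
  obtain ⟨n, rfl⟩ := Nat.exists_eq_add_of_le hX
  have hes : ∀ N, e (N + 1) = e N + (fun k => a k - m) (N + 1) := by
    intro N
    rw [he]
    show (∑ k ∈ Icc 1 (N + 1), a k) - m * ((N + 1 : ℕ) : ℂ) = (∑ k ∈ Icc 1 N, a k) - m * N + (a (N + 1) - m)
    rw [Finset.sum_Icc_succ_top (by omega)]
    push_cast
    ring
  have k1 := E7_sum (b := fun k => a k - m) hes hε.le hb hA n
  have k2 := E7_harm hA n
  obtain ⟨Y, hY⟩ : ∃ Y, Y = A + n := ⟨_, rfl⟩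
  rw [← hY] at k1 k2 ⊢
  have hY1 : 1 ≤ Y := by omega
  have hA0 : (0 : ℝ) < A := by exact_mod_cast hA
  have hA1 : (1 : ℝ) ≤ A := by exact_mod_cast hA
  have hY0 : (0 : ℝ) < Y := by exact_mod_cast hY1
  have hY2 : (1 : ℝ) ≤ Y := by exact_mod_cast hY1
  have i1 : 1 / (A : ℝ) - 1 / (Y : ℝ) ≤ 1 := by
    have h3 : 1 / (A : ℝ) ≤ 1 := by
      rw [div_le_one hA0]
      exact hA1
    have h4 : 0 ≤ 1 / (Y : ℝ) := by positivity
    linarith
  have i2 : ‖e Y / (Y : ℂ)‖ ≤ ε + K := by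
    rw [norm_div, Complex.norm_natCast, div_le_iff₀ hY0]
    refine (hb Y).trans ?_
    nlinarith
  have i3 : K * (1 / (A : ℝ) - 1 / (Y : ℝ)) ≤ K := by
    refine (mul_le_mul_of_nonneg_left i1 hK0).trans (le_of_eq (mul_one K))
  have i4 : ‖m * ((∑ k ∈ Ioc A Y, (1 : ℂ) / k) - ((Real.log (Y : ℝ) - Real.log A : ℝ) : ℂ))‖ ≤ ‖m‖ := by
    rw [norm_mul]
    refine (mul_le_mul_of_nonneg_left (k2.trans i1) (norm_nonneg m)).trans (le_of_eq (mul_one _))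
  rw [Real.log_div hY0.ne' hA0.ne']
  have e1 : (∑ k ∈ Ioc A Y, a k / (k : ℂ)) - m * ((Real.log (Y : ℝ) - Real.log A : ℝ) : ℂ) =
      m * ((∑ k ∈ Ioc A Y, (1 : ℂ) / k) - ((Real.log (Y : ℝ) - Real.log A : ℝ) : ℂ)) +
        ((∑ k ∈ Ioc A Y, (fun k => a k - m) k / (k : ℂ)) - e Y / (Y : ℂ)) + e Y / (Y : ℂ) := by
    have e2 : ∑ k ∈ Ioc A Y, a k / (k : ℂ) = m * (∑ k ∈ Ioc A Y, (1 : ℂ) / k) +
        ∑ k ∈ Ioc A Y, (fun k => a k - m) k / (k : ℂ) := by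
      rw [Finset.mul_sum, ← Finset.sum_add_distrib]
      refine Finset.sum_congr rfl fun k _ => ?_
      show a k / (k : ℂ) = m * (1 / k) + (a k - m) / k
      ring
    rw [e2]
    ring
  rw [e1]
  have b1 := norm_add_le (m * ((∑ k ∈ Ioc A Y, (1 : ℂ) / k) - ((Real.log (Y : ℝ) - Real.log A : ℝ) : ℂ)) +
        ((∑ k ∈ Ioc A Y, (fun k => a k - m) k / (k : ℂ)) - e Y / (Y : ℂ))) (e Y / (Y : ℂ))
  have b2 := norm_add_le (m * ((∑ k ∈ Ioc A Y, (1 : ℂ) / k) - ((Real.log (Y : ℝ) - Real.log A : ℝ) : ℂ)))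
        ((∑ k ∈ Ioc A Y, (fun k => a k - m) k / (k : ℂ)) - e Y / (Y : ℂ))
  linarith

end Pool.Agent.Lib.MP_d57abb_ntW
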