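import Pool.Agent.Lib.MP_d57abb_ntW.E4
import Pool.Agent.Lib.MP_d57abb_ntW.E5
import Pool.Agent.Lib.MP_d57abb_ntW.E6
import Pool.Agent.Lib.MP_d57abb_ntW.E7
import Pool.Agent.Lib.MP_d57abb_nt.GV.TailS

/-!
# Leaf E9: PRETENTIOUS FUNCTIONS HAVE A MEAN VALUE
-/

set_option autoImplicit false

namespace Pool.Agent.Lib.MP_d57abb_ntW

open Finset Filter Topology Pool.Agent.Lib.MP_d57abb_nt Pool.Agent.Lib.MP_d57abb_nt.GA.TA Pool.Agent.Lib.MP_d57abb_nt.GA.TS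
  Pool.Agent.Lib.MP_d57abb_nt.GA.TZ

attribute [local instance] GT.lab0

private theorem e9_pos (k : ℕ) : 0 < ff k := Nat.succ_pos _

/-- The mass of a union. -/
private theorem e9_union (s T : Finset ℕ) (a : ℕ → ℝ) (ha : ∀ k, 0 ≤ a k) (Q : ℕ → ℕ → Prop)
    [∀ p, DecidablePred (Q p)] [DecidablePred fun k => ∃ p ∈ T, Q p k] :
    ∑ k ∈ s.filter (fun k => ∃ p ∈ T, Q p k), a k ≤ ∑ p ∈ T, ∑ k ∈ s.filter (fun k => Q p k), a k := by
  have h1 : ∑ p ∈ T, ∑ k ∈ s.filter (fun k => Q p k), a k = ∑ k ∈ s, ∑ p ∈ T, if Q p k then a k else 0 := by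
    rw [sum_comm]
    exact sum_congr rfl fun p _ => sum_filter _ _
  rw [h1, sum_filter]
  refine sum_le_sum fun k _ => ?_
  have h0 : ∀ p ∈ T, 0 ≤ if Q p k then a k else 0 := fun p _ => by
    split_ifs
    · exact ha k
    · exact le_rfl
  by_cases h : ∃ p ∈ T, Q p k
  · rw [if_pos h]
    obtain ⟨p, hp, hq⟩ := h
    refine le_trans (le_of_eq ?_) (single_le_sum h0 hp)
    rw [if_pos hq]
  · rw [if_neg h]
    exact sum_nonneg h0

open Classical in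
/-- The mass of the values divisible by a high power of a small prime. -/
private theorem e9_high {c C : ℝ} (hC : 0 ≤ C) (h : ∀ N A p : ℕ, p.Prime → 1 ≤ A →
    ∑ k ∈ (Icc 1 N).filter (fun k => p ^ (2 * A) ∣ ff k), (tc c k : ℝ) ≤ C * (N / (p : ℝ) ^ A + 1)) (N y : ℕ)
    (hy : 1 ≤ y) :
    ∑ k ∈ (Icc 1 N).filter (fun k => ∃ p ∈ (Icc 1 y).filter Nat.Prime, p ^ (2 * y) ∣ ff k), (tc c k : ℝ) ≤
      C * ((y : ℝ) / 2 ^ y) * N + C * y := by
  have h1 := e9_union (Icc 1 N) ((Icc 1 y).filter Nat.Prime) (fun k => (tc c k : ℝ)) (fun k => Nat.cast_nonneg _)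
    (fun p k => p ^ (2 * y) ∣ ff k)
  refine h1.trans ?_
  have h2 : ∀ p ∈ (Icc 1 y).filter Nat.Prime,
      ∑ k ∈ (Icc 1 N).filter (fun k => p ^ (2 * y) ∣ ff k), (tc c k : ℝ) ≤ C * (N / (2 : ℝ) ^ y + 1) := by
    intro p hp
    have hp1 := (mem_filter.1 hp).2
    refine (h N y p hp1 hy).trans (mul_le_mul_of_nonneg_left ?_ hC)
    have h3 : (2 : ℝ) ^ y ≤ (p : ℝ) ^ y := pow_le_pow_left₀ (by norm_num) (by exact_mod_cast hp1.two_le) _
    have h4 : (N : ℝ) / (p : ℝ) ^ y ≤ N / (2 : ℝ) ^ y :=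
      div_le_div_of_nonneg_left (Nat.cast_nonneg _) (by positivity) h3
    linarith
  refine (sum_le_card_nsmul _ _ _ h2).trans ?_
  rw [nsmul_eq_mul]
  have h3 : (((Icc 1 y).filter Nat.Prime).card : ℝ) ≤ y := by
    have h4 := card_filter_le (Icc 1 y) Nat.Prime
    rw [Nat.card_Icc] at h4
    exact_mod_cast (by omega : ((Icc 1 y).filter Nat.Prime).card ≤ y)
  have h5 : 0 ≤ C * (N / (2 : ℝ) ^ y + 1) := by positivity
  refine (mul_le_mul_of_nonneg_right h3 h5).trans (le_of_eq ?_)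
  ring

private theorem e9_van {f : ℕ → ℝ} (hf : Summable f) {ε : ℝ} (hε : 0 < ε) :
    ∃ Y : ℕ, ∀ S : Finset ℕ, (∀ p ∈ S, Y < p) → ∑ p ∈ S, f p ≤ ε := by
  obtain ⟨s, hs⟩ := summable_iff_vanishing_norm.1 hf ε hε
  refine ⟨s.sup id, fun S hS => ?_⟩
  have h1 := hs S (disjoint_left.2 fun p hp hp' => absurd (le_sup (f := id) hp') (not_le.2 (hS p hp)))
  exact (le_abs_self _).trans h1.le

private theorem e9_two (C : ℝ) {ε : ℝ} (hε : 0 < ε) : ∃ Y : ℕ, ∀ y : ℕ, Y ≤ y → C * ((y : ℝ) / 2 ^ y) ≤ ε := by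
  have h1 : Tendsto (fun y : ℕ => C * ((y : ℝ) ^ 1 / 2 ^ y)) atTop (𝓝 (C * 0)) :=
    (tendsto_pow_const_div_const_pow_of_one_lt 1 (by norm_num : (1 : ℝ) < 2)).const_mul C
  rw [mul_zero] at h1
  obtain ⟨Y, hY⟩ := eventually_atTop.1 (h1.eventually (gt_mem_nhds hε))
  refine ⟨Y, fun y hy => ?_⟩
  have h2 := hY y hy
  rw [pow_one] at h2
  exact h2.le

open Classical in
/-- The replacement of `tw` by `F`. -/
private theorem e9_rep {c : ℝ} {g ψ F : ℕ → ℂ} (hle : ∀ n : ℕ, 0 < n → ‖g n‖ ≤ 1) (hψ : ∀ n : ℕ, ‖ψ n‖ ≤ 1)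
    {y A : ℕ} (hF1 : ∀ a, ‖F a‖ ≤ 1)
    (hF3 : ∀ k : ℕ, (∀ p : ℕ, p.Prime → p ≤ y → ¬ p ^ A ∣ ff k) → F k = tw g ψ y (ff k)) (N : ℕ)
    (P : ℕ → Prop) [DecidablePred P] :
    ‖∑ k ∈ (Icc 1 N).filter P, (tc c k : ℂ) * (tw g ψ y (ff k) - F k)‖ ≤
      2 * ∑ k ∈ (Icc 1 N).filter (fun k => ∃ p ∈ (Icc 1 y).filter Nat.Prime, p ^ A ∣ ff k), (tc c k : ℝ) := by
  have h1 : ∀ k : ℕ, ‖(tc c k : ℂ) * (tw g ψ y (ff k) - F k)‖ ≤
      if ∃ p ∈ (Icc 1 y).filter Nat.Prime, p ^ A ∣ ff k then 2 * (tc c k : ℝ) else 0 := by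
    intro k
    split_ifs with h
    · rw [norm_mul, Complex.norm_natCast, mul_comm]
      have h2 : ‖tw g ψ y (ff k) - F k‖ ≤ 2 := by
        have h3 := norm_sub_le (tw g ψ y (ff k)) (F k)
        have h4 := tw_le hle hψ y (ff k)
        have h5 := hF1 k
        linarith
      exact mul_le_mul_of_nonneg_right h2 (Nat.cast_nonneg _)
    · have h2 : F k = tw g ψ y (ff k) := hF3 k fun p hp hpy hd =>
        h ⟨p, mem_filter.2 ⟨mem_Icc.2 ⟨hp.one_le, hpy⟩, hp⟩, hd⟩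
      rw [h2, sub_self, mul_zero, norm_zero]
  calc ‖∑ k ∈ (Icc 1 N).filter P, (tc c k : ℂ) * (tw g ψ y (ff k) - F k)‖
      ≤ ∑ k ∈ (Icc 1 N).filter P, ‖(tc c k : ℂ) * (tw g ψ y (ff k) - F k)‖ := norm_sum_le _ _
    _ ≤ ∑ k ∈ Icc 1 N, ‖(tc c k : ℂ) * (tw g ψ y (ff k) - F k)‖ :=
        sum_le_sum_of_subset_of_nonneg (filter_subset _ _) fun _ _ _ => norm_nonneg _
    _ ≤ ∑ k ∈ Icc 1 N, (if ∃ p ∈ (Icc 1 y).filter Nat.Prime, p ^ A ∣ ff k then 2 * (tc c k : ℝ) else 0) :=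
        sum_le_sum fun k _ => h1 k
    _ = 2 * ∑ k ∈ (Icc 1 N).filter (fun k => ∃ p ∈ (Icc 1 y).filter Nat.Prime, p ^ A ∣ ff k), (tc c k : ℝ) := by
        rw [mul_sum, sum_filter]

open Classical in
/-- PROOF. If `g 1 = 0` then `g n = g n * g 1 = 0` for all `n > 0`: `m = 0`. Else `g 1 = 1` (`g 1 = g 1 ^ 2`). `exch` with `S c N = (∑_(k ≤ N, ff k ≡ r [MOD D]) tc c k * g (ff k)) / N`; for `n` let `y = n + W + 5`, `A = 2 y`, `M_n`, `F_n` from `tw_per`; `R n c N = (∑_(k ≤ N) tc c k * F'_n k) / N` with `F'_n k = F_n k` if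
`ff k ≡ r [MOD D]`, else `0`: periodic modulo `M_n D`; `per_lim` gives `m n`. `h2`: `‖S c N - R n c N‖ * N` is at most: (1) `tail_tw` with `B = ∑'_(p > y)` (the tail of the summable series, `→ 0` as `n → ∞`), (2) twice the mass of the `k` with `l ^ 2 ∣ ff k`, `l > y` (`tail_nat` in `GV/TailS.lean`: for `y ≥ Y(ε)` at most `ε N + K`), (3) twice the mass of the `k` for which
some `p ^ (2 y)`, `p ≤ y`, divides `ff k`: `≤ 2 ∑_(p ≤ y) C (N / 2 ^ y + 1)` (`mass_pp` for the exponent `A := y`), `y / 2 ^ y → 0`. (The values at the `k` of (3) are bounded by one: `tw_le`.) -/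
theorem pret {g : ℕ → ℂ} (hmul : ∀ a b : ℕ, 0 < a → 0 < b → a.Coprime b → g (a * b) = g a * g b)
    (hle : ∀ n : ℕ, 0 < n → ‖g n‖ ≤ 1) {W : ℕ} (hW : 0 < W) (ψ : DirichletCharacter ℂ W)
    (hs : Summable (fun p : ℕ => if Spl p then ‖g p - ψ p‖ / (p : ℝ) else 0)) {D : ℕ} (hD : 0 < D) (r : ℕ) :
    ∃ m : ℂ, ∀ c : ℝ, 1 < c → Tendsto (fun N : ℕ => (∑ k ∈ (Icc 1 N).filter (fun k => ff k ≡ r [MOD D]),
      (tc c k : ℂ) * g (ff k)) / N) atTop (𝓝 (m * Real.log c)) := by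
  by_cases hg1 : g 1 = 0
  · refine ⟨0, fun c hc => ?_⟩
    have h1 : ∀ n : ℕ, 0 < n → g n = 0 := fun n hn => by
      have h2 := hmul n 1 hn one_pos (Nat.coprime_one_right n)
      rw [mul_one, hg1, mul_zero] at h2
      exact h2
    have h2 : (fun N : ℕ => (∑ k ∈ (Icc 1 N).filter (fun k => ff k ≡ r [MOD D]), (tc c k : ℂ) * g (ff k)) / N) =
        fun _ => (0 : ℂ) := by
      funext N
      have h3 : ∑ k ∈ (Icc 1 N).filter (fun k => ff k ≡ r [MOD D]), (tc c k : ℂ) * g (ff k) = 0 :=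
        sum_eq_zero fun k _ => by rw [h1 _ (e9_pos k), mul_zero]
      rw [h3, zero_div]
    rw [h2, zero_mul]
    exact tendsto_const_nhds
  · have hg : g 1 = 1 := by
      have h2 := hmul 1 1 one_pos one_pos (Nat.coprime_one_right 1)
      rw [mul_one] at h2
      exact (mul_left_cancel₀ hg1 (by rw [mul_one]; exact h2)).symm
    have hψ : ∀ n : ℕ, ‖ψ n‖ ≤ 1 := fun n => DirichletCharacter.norm_le_one ψ _
    have hy : ∀ n : ℕ, W ≤ n + W + 5 := fun n => by omega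
    have hA : ∀ n : ℕ, 1 ≤ 2 * (n + W + 5) := fun n => by omega
    choose M hM F hF1 hF2 hF3 using fun n : ℕ => tw_per hle hW ψ (hy n) (hA n)
    have hper : ∀ n : ℕ, ∀ a b, a ≡ b [MOD M n * D] →
        (if ff a ≡ r [MOD D] then F n a else 0) = (if ff b ≡ r [MOD D] then F n b else 0) := by
      intro n a b hab
      have h1 : a ≡ b [MOD M n] := Nat.ModEq.of_mul_right D hab
      have h2 : a ≡ b [MOD D] := Nat.ModEq.of_mul_left (M n) hab
      have h3 : ff a ≡ ff b [MOD D] := by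
        unfold ff
        exact ((h2.pow 2).add (h2.mul_left 3)).add_right 1
      rw [hF2 n a b h1]
      by_cases h4 : ff a ≡ r [MOD D]
      · rw [if_pos h4, if_pos (h3.symm.trans h4)]
      · rw [if_neg h4, if_neg fun h5 => h4 (h3.trans h5)]
    choose m hm using fun n : ℕ => per_lim (Nat.mul_pos (hM n) hD)
      (fun k => if ff k ≡ r [MOD D] then F n k else 0) (hper n)
    refine exch (fun c N => (∑ k ∈ (Icc 1 N).filter (fun k => ff k ≡ r [MOD D]), (tc c k : ℂ) * g (ff k)) / N)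
      (fun n c N => (∑ k ∈ Icc 1 N, (tc c k : ℂ) * (if ff k ≡ r [MOD D] then F n k else 0)) / N) m hm ?_
    intro c hc ε hε
    obtain ⟨C1, hC1, ht⟩ := tail_tw hc.le
    obtain ⟨C2, hC2, hp⟩ := mass_pp hc.le
    obtain ⟨Y, K, hK, htn⟩ := GV.tail_nat hc.le (ε := ε / 8) (by positivity)
    obtain ⟨Y2, hv⟩ := e9_van hs (ε := ε / (4 * (C1 + 1))) (by positivity)
    obtain ⟨Y3, hY3⟩ := e9_two (2 * C2) (ε := ε / 4) (by positivity)
    refine ⟨max Y (max Y2 Y3), fun n hn => ?_⟩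
    obtain ⟨y, hyn⟩ : ∃ y, y = n + W + 5 := ⟨_, rfl⟩
    have hyY : Y ≤ y := by
      have := (le_max_left _ _).trans hn
      omega
    have hyY2 : Y2 ≤ y := by
      have := ((le_max_left _ _).trans (le_max_right _ _)).trans hn
      omega
    have hyY3 : Y3 ≤ y := by
      have := ((le_max_right _ _).trans (le_max_right _ _)).trans hn
      omega
    obtain ⟨N0, hN0⟩ := exists_nat_gt ((2 * K + 2 * C2 * y) * 4 / ε)
    filter_upwards [eventually_ge_atTop (max 1 N0)] with N hN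
    have hN1 : 1 ≤ N := (le_max_left _ _).trans hN
    have hN2 : N0 ≤ N := (le_max_right _ _).trans hN
    have hNr : (0 : ℝ) < N := by exact_mod_cast hN1
    have hB : ∀ S : Finset ℕ, (∀ p ∈ S, Spl p ∧ y < p) →
        ∑ p ∈ S, ‖g p - ψ p‖ / (p : ℝ) ≤ ε / (4 * (C1 + 1)) := by
      intro S hS
      refine le_trans (le_of_eq ?_) (hv S fun p hp => lt_of_le_of_lt hyY2 (hS p hp).2)
      exact sum_congr rfl fun p hp => (if_pos (hS p hp).1).symm
    have e1 := ht g (fun n => ψ n) hmul hg hle hψ y (by omega) _ hB N (fun k => ff k ≡ r [MOD D])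
    have e2 := htn N
    have e3 : ∑ k ∈ (Icc 1 N).filter (fun k => ∃ l : ℕ, l.Prime ∧ y < l ∧ l ^ 2 ∣ k ^ 2 + 3 * k + 1), (tc c k : ℝ) ≤
        ∑ k ∈ (Icc 1 N).filter (fun k => ∃ l : ℕ, l.Prime ∧ Y < l ∧ l ^ 2 ∣ k ^ 2 + 3 * k + 1), (tc c k : ℝ) := by
      refine sum_le_sum_of_subset_of_nonneg (fun k hk => ?_) fun _ _ _ => Nat.cast_nonneg _
      obtain ⟨h1, l, hl, hyl, hd⟩ := mem_filter.1 hk
      exact mem_filter.2 ⟨h1, l, hl, lt_of_le_of_lt hyY hyl, hd⟩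
    have hF3' : ∀ k : ℕ, (∀ p : ℕ, p.Prime → p ≤ y → ¬ p ^ (2 * y) ∣ ff k) →
        F n k = tw g (fun n => ψ n) y (ff k) := by
      rw [hyn]
      exact hF3 n
    have e4 := e9_rep (c := c) hle hψ (hF1 n) hF3' N (fun k => ff k ≡ r [MOD D])
    have e5 := e9_high hC2 hp N y (by omega)
    have e6 := hY3 y hyY3
    have e7 : C1 * (ε / (4 * (C1 + 1))) ≤ ε / 4 := by
      rw [mul_div_assoc', div_le_div_iff₀ (by positivity) (by norm_num)]
      nlinarith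
    have e8 : (2 * K + 2 * C2 * y) * 4 ≤ ε * N := by
      rw [div_lt_iff₀ hε] at hN0
      have h1 : (N0 : ℝ) ≤ N := by exact_mod_cast hN2
      have h2 : (N0 : ℝ) * ε ≤ N * ε := mul_le_mul_of_nonneg_right h1 hε.le
      linarith
    have e9 : C1 * (ε / (4 * (C1 + 1))) * N ≤ ε / 4 * N := mul_le_mul_of_nonneg_right e7 hNr.le
    have e10 : 2 * C2 * ((y : ℝ) / 2 ^ y) * N ≤ ε / 4 * N := mul_le_mul_of_nonneg_right e6 hNr.le
    have e11 : (∑ k ∈ (Icc 1 N).filter (fun k => ff k ≡ r [MOD D]), (tc c k : ℂ) * g (ff k)) / N -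
        (∑ k ∈ Icc 1 N, (tc c k : ℂ) * (if ff k ≡ r [MOD D] then F n k else 0)) / N =
        (∑ k ∈ (Icc 1 N).filter (fun k => ff k ≡ r [MOD D]), (tc c k : ℂ) * (g (ff k) - tw g (fun n => ψ n) y (ff k)) +
          ∑ k ∈ (Icc 1 N).filter (fun k => ff k ≡ r [MOD D]), (tc c k : ℂ) * (tw g (fun n => ψ n) y (ff k) - F n k)) /
          N := by
      rw [← sub_div, ← sum_add_distrib]
      have h1 : ∑ k ∈ Icc 1 N, (tc c k : ℂ) * (if ff k ≡ r [MOD D] then F n k else 0) =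
          ∑ k ∈ (Icc 1 N).filter (fun k => ff k ≡ r [MOD D]), (tc c k : ℂ) * F n k := by
        rw [sum_filter]
        refine sum_congr rfl fun k _ => ?_
        rw [mul_ite, mul_zero]
      rw [h1, ← sum_sub_distrib]
      refine congrArg (fun z : ℂ => z / N) (sum_congr rfl fun k _ => ?_)
      ring
    show ‖(∑ k ∈ (Icc 1 N).filter (fun k => ff k ≡ r [MOD D]), (tc c k : ℂ) * g (ff k)) / N -
        (∑ k ∈ Icc 1 N, (tc c k : ℂ) * (if ff k ≡ r [MOD D] then F n k else 0)) / N‖ ≤ ε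
    rw [e11, norm_div, Complex.norm_natCast, div_le_iff₀ hNr]
    refine (norm_add_le _ _).trans ?_
    linarith

end Pool.Agent.Lib.MP_d57abb_ntW
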