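import Pool.Agent.Lib.MP_d57abb_ntW.E8
import Pool.Agent.Lib.MP_d57abb_ntW.E9

/-!
# E10: functions with values in a polygon
-/

set_option autoImplicit false

namespace Pool.Agent.Lib.MP_d57abb_ntW

open Finset Filter Topology Pool.Agent.Lib.MP_d57abb_nt Pool.Agent.Lib.MP_d57abb_nt.GA.TA Pool.Agent.Lib.MP_d57abb_nt.GA.TS
  Pool.Agent.Lib.MP_d57abb_nt.GA.TZ

/-- The mean value of a pretentious function with values in a polygon at the split primes. -/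
theorem pret_log {q : ℕ} (hq : 0 < q) {g : ℕ → ℂ} (hmul : ∀ a b : ℕ, 0 < a → 0 < b → a.Coprime b → g (a * b) = g a * g b)
    (hle : ∀ n : ℕ, 0 < n → ‖g n‖ ≤ 1)
    (hh : ∀ p : ℕ, p.Prime → (p % 5 = 1 ∨ p % 5 = 4) → g p ∈ convexHull ℝ {z : ℂ | z ^ q = 1})
    {W : ℕ} (hW : 0 < W) (ψ : DirichletCharacter ℂ W)
    (hs : Summable (fun p : ℕ => if p.Prime ∧ (p % 5 = 1 ∨ p % 5 = 4) then (1 - (g p * (starRingEnd ℂ) (ψ p)).re) / (p : ℝ) else 0))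
    {D : ℕ} (hD : 0 < D) (r : ℕ) :
    ∃ m : ℂ, ∀ c : ℝ, 1 < c → Tendsto (fun X : ℕ => (∑ k ∈ (Icc 1 X).filter (fun k => k ^ 2 + 3 * k + 1 ≡ r [MOD D]),
      (tc c k : ℂ) * g (k ^ 2 + 3 * k + 1)) / X) atTop (𝓝 (m * Real.log c)) := by
  have h1 : Summable (fun p : ℕ => if Spl p then ‖g p - ψ p‖ / (p : ℝ) else 0) := by
    refine hull_sum hq (fun p hp => hh p hp.1 hp.2) hW ψ ?_
    refine hs.congr (fun p => ?_)
    by_cases h : p.Prime ∧ (p % 5 = 1 ∨ p % 5 = 4)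
    · rw [if_pos h, if_pos (show Spl p from h)]
    · rw [if_neg h, if_neg (show ¬ Spl p from h)]
  exact pret hmul hle hW ψ h1 hD r

open Classical in
/-- The form of the interface. -/
theorem pret_mean {q : ℕ} (hq : 0 < q) {g : ℕ → ℂ} (hmul : ∀ a b : ℕ, 0 < a → 0 < b → a.Coprime b → g (a * b) = g a * g b)
    (hle : ∀ n : ℕ, 0 < n → ‖g n‖ ≤ 1)
    (hh : ∀ p : ℕ, p.Prime → (p % 5 = 1 ∨ p % 5 = 4) → g p ∈ convexHull ℝ {z : ℂ | z ^ q = 1})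
    {W : ℕ} (hW : 0 < W) (ψ : DirichletCharacter ℂ W)
    (hs : Summable (fun p : ℕ => if p.Prime ∧ (p % 5 = 1 ∨ p % 5 = 4) then (1 - (g p * (starRingEnd ℂ) (ψ p)).re) / (p : ℝ) else 0)) :
    ∀ c : ℝ, 1 < c → ∀ D : ℕ, 0 < D → ∀ r : ℕ, ∃ M : ℂ, Tendsto (fun X : ℕ =>
      (∑ k ∈ (Icc 1 X).filter (fun k => k ^ 2 + 3 * k + 1 ≡ r [MOD D]), (tc c k : ℂ) * g (k ^ 2 + 3 * k + 1)) / X) atTop (𝓝 M) := by
  intro c hc D hD r
  have hs' : Summable (fun p : ℕ => if p.Prime ∧ (p % 5 = 1 ∨ p % 5 = 4) then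
      (1 - (g p * (starRingEnd ℂ) (ψ p)).re) / (p : ℝ) else 0) := by
    refine hs.congr (fun p => ?_)
    by_cases h : p.Prime ∧ (p % 5 = 1 ∨ p % 5 = 4)
    · simp only [h, if_true]
    · simp only [h, if_false]
  obtain ⟨m, hm⟩ := pret_log hq hmul hle hh hW ψ hs' hD r
  exact ⟨_, hm c hc⟩

end Pool.Agent.Lib.MP_d57abb_ntW
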