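import Pool.Agent.Lib.MP_d57abb_ntW.D12
import Pool.Agent.Lib.MP_d57abb_nt.GV.PvS

/-!
# E11: the densities are positive
-/

set_option autoImplicit false

namespace Pool.Agent.Lib.MP_d57abb_ntW

open Finset Filter Topology Pool.Agent.Lib.MP_d57abb_nt Pool.Agent.Lib.MP_d57abb_nt.GA.TA Pool.Agent.Lib.MP_d57abb_nt.GA.TS
  Pool.Agent.Lib.MP_d57abb_nt.GA.TZ

attribute [local instance] GT.lab0

/-- The density theorem, with positive densities. -/
theorem dens_pos (M : ℕ) (hM : 0 < M) (a : ℕ) : ∃ K : ℝ, 0 < K ∧ ∀ c : ℝ, 1 < c →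
    Tendsto (fun N : ℕ => (∑ k ∈ (Icc 1 N).filter (fun k => k ≡ a [MOD M]), (tc c k : ℝ)) / N) atTop (𝓝 (K * Real.log c)) := by
  classical
  obtain ⟨K, hK0, hK⟩ := dens M hM a
  obtain ⟨κ, hκ, X₁, hX₁⟩ := GV.pvS (ι := Empty) (g := fun i => i.elim) (fun i => i.elim) (fun i => i.elim)
    (D := M * (a ^ 2 + 3 * a + 1)) (Nat.mul_pos hM (by positivity)) a (Dvd.intro_left _ rfl)
  refine ⟨K, ?_, hK⟩
  have h1 : κ ≤ K * Real.log 32 := by
    refine ge_of_tendsto (hK 32 (by norm_num)) ?_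
    filter_upwards [eventually_ge_atTop (X₁ + 1)] with N hN
    have hN0 : (0 : ℝ) < N := by exact_mod_cast (by omega : 0 < N)
    rw [le_div_iff₀ hN0]
    refine (hX₁ N (by omega)).trans (Finset.sum_le_sum_of_subset_of_nonneg (fun k hk => ?_) (fun _ _ _ => Nat.cast_nonneg _))
    rw [mem_filter] at hk ⊢
    exact ⟨hk.1, hk.2.1.of_dvd ((Dvd.intro _ rfl : M ∣ M * (a ^ 2 + 3 * a + 1)).mul_right _)⟩
  have h2 : K ≠ 0 := by
    rintro rfl
    rw [zero_mul] at h1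
    linarith
  exact lt_of_le_of_ne hK0 (Ne.symm h2)

end Pool.Agent.Lib.MP_d57abb_ntW
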