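import Pool.Agent.Lib.MP_d57abb_ntW.E1
import Pool.Agent.Lib.MP_d57abb_nt.GA.TS.Mk
import Pool.Agent.Lib.MP_d57abb_nt.GA.TS.Geo

/-!
# Leaf E2: the mass of the values divisible by a prime power
-/

set_option autoImplicit false

namespace Pool.Agent.Lib.MP_d57abb_ntW

open Finset Filter Topology Pool.Agent.Lib.MP_d57abb_nt Pool.Agent.Lib.MP_d57abb_nt.GA.TA Pool.Agent.Lib.MP_d57abb_nt.GA.TS
  Pool.Agent.Lib.MP_d57abb_nt.GA.TZ

attribute [local instance] GT.lab0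

private theorem e2_nm {Q : ℕ} {v : ℤ × ℤ} (hv : v ∈ Bx Q) (hc : IsCoprime v.1 v.2) :
    0 < nm v ∧ nm v ≤ 5 * (Q : ℤ) ^ 2 := by
  unfold Bx at hv
  rw [mem_product, mem_Icc, mem_Icc] at hv
  obtain ⟨⟨h1, h2⟩, h3, h4⟩ := hv
  have h5 : nm v = v.1 ^ 2 + 3 * v.1 * v.2 + v.2 ^ 2 := rfl
  have h6 : 0 ≤ v.1 * v.2 := mul_nonneg h1 h3
  refine ⟨?_, ?_⟩
  · have h8 : v.1 ≠ 0 ∨ v.2 ≠ 0 := by
      by_contra hn
      push Not at hn
      rw [hn.1, hn.2] at hc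
      exact not_isCoprime_zero_zero hc
    rw [h5]
    rcases h8 with h8 | h8
    · have := sq_pos_of_ne_zero h8
      nlinarith [sq_nonneg v.2]
    · have := sq_pos_of_ne_zero h8
      nlinarith [sq_nonneg v.1]
  · rw [h5]
    have k1 : v.1 ^ 2 ≤ (Q : ℤ) ^ 2 := by nlinarith
    have k2 : v.2 ^ 2 ≤ (Q : ℤ) ^ 2 := by nlinarith
    have k3 : v.1 * v.2 ≤ (Q : ℤ) * Q := mul_le_mul h2 h4 h3 (h1.trans h2)
    nlinarith

open Classical in
private theorem e2_side {c : ℝ} (N : ℕ) (Q : ℕ) (hQ : √(5 * c * N) ≤ Q) (q : ℤ)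
    (f : (ℤ × ℤ) × (ℤ × ℤ) → ℤ × ℤ)
    (hq : ∀ x ∈ GG (1 / c) c N, Qd (f x) ∧ IsCoprime (f x).1 (f x).2 ∧ (ll (f x) : ℝ) ^ 2 ≤ 5 * c * N)
    (hf : ∀ v, (((GG (1 / c) c N).filter (fun x => f x = v)).card : ℝ) ≤ 4 * c) :
    (((GG (1 / c) c N).filter (fun x => q ∣ nm (f x))).card : ℝ) ≤
      4 * c * (((Bx Q).filter (fun v => IsCoprime v.1 v.2 ∧ q ∣ nm v)).card : ℝ) := by
  have hmaps : ∀ x ∈ (GG (1 / c) c N).filter (fun x => q ∣ nm (f x)),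
      f x ∈ (Bx Q).filter (fun v => IsCoprime v.1 v.2 ∧ q ∣ nm v) := by
    intro x hx
    rw [mem_filter] at hx
    obtain ⟨h1, h2, h3⟩ := hq x hx.1
    rw [mem_filter]
    refine ⟨?_, h2, hx.2⟩
    have h4 : (ll (f x) : ℝ) ≤ Q := (Real.le_sqrt_of_sq_le h3).trans hQ
    have h5 : ll (f x) ≤ (Q : ℤ) := by exact_mod_cast h4
    obtain ⟨g1, g2, -⟩ := h1
    unfold ll at h5
    unfold Bx
    rw [mem_product, mem_Icc, mem_Icc]
    exact ⟨⟨g1, by linarith⟩, g2, by linarith⟩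
  rw [Finset.card_eq_sum_card_fiberwise (f := f) (t := (Bx Q).filter (fun v => IsCoprime v.1 v.2 ∧ q ∣ nm v))
    (fun x hx => mem_coe.2 (hmaps x (mem_coe.1 hx))), Nat.cast_sum]
  have h1 : ∀ v ∈ (Bx Q).filter (fun v => IsCoprime v.1 v.2 ∧ q ∣ nm v),
      ((((GG (1 / c) c N).filter (fun x => q ∣ nm (f x))).filter (fun x => f x = v)).card : ℝ) ≤ 4 * c := by
    intro v _
    refine le_trans ?_ (hf v)
    have h3 : ((GG (1 / c) c N).filter (fun x => q ∣ nm (f x))).filter (fun x => f x = v) ⊆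
        (GG (1 / c) c N).filter (fun x => f x = v) := by
      intro x hx
      rw [mem_filter, mem_filter] at hx
      rw [mem_filter]
      exact ⟨hx.1.1, hx.2⟩
    exact_mod_cast Finset.card_le_card h3
  refine (Finset.sum_le_sum h1).trans (le_of_eq ?_)
  rw [Finset.sum_const, nsmul_eq_mul, mul_comm]

open Classical in
/-- the sum over the values with a property which gives a divisor of one of the two norms -/
private theorem e2_main {c : ℝ} (hc : 1 ≤ c) (N : ℕ) (q : ℤ) (P : ℕ → Prop) [DecidablePred P]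
    (hP : ∀ v w : ℤ × ℤ, dt v w = 1 → 1 ≤ kk v w → P (kk v w).toNat → q ∣ nm v ∨ q ∣ nm w) :
    ∑ k ∈ (Icc 1 N).filter P, (tc c k : ℝ) ≤
      8 * c * (((Bx ⌈√(5 * c * N)⌉₊).filter (fun v => IsCoprime v.1 v.2 ∧ q ∣ nm v)).card : ℝ) := by
  have hc0 : 0 < c := by linarith
  have hQ1 : √(5 * c * N) ≤ (⌈√(5 * c * N)⌉₊ : ℕ) := Nat.le_ceil _
  generalize ⌈√(5 * c * N)⌉₊ = Q at hQ1
  have hcN : (0 : ℝ) ≤ c * N := by positivity
  have hq1 : ∀ x ∈ GG (1 / c) c N, Qd x.1 ∧ IsCoprime x.1.1 x.1.2 ∧ (ll x.1 : ℝ) ^ 2 ≤ 5 * c * N := by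
    intro x hx
    obtain ⟨g1, g2, g3, -⟩ := mem_GG.1 hx
    obtain ⟨k1, -, -, -⟩ := geo hc hx
    refine ⟨g1, (cop_of_dt g3).1, k1.trans ?_⟩
    nlinarith
  have hq2 : ∀ x ∈ GG (1 / c) c N, Qd x.2 ∧ IsCoprime x.2.1 x.2.2 ∧ (ll x.2 : ℝ) ^ 2 ≤ 5 * c * N := by
    intro x hx
    obtain ⟨g1, g2, g3, -⟩ := mem_GG.1 hx
    obtain ⟨-, k1, -, -⟩ := geo hc hx
    exact ⟨g2, (cop_of_dt g3).2, k1⟩
  have hcard : (∑ k ∈ (Icc 1 N).filter P, (tc c k : ℝ)) =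
      (((GG (1 / c) c N).filter (fun x => P (kk x.1 x.2).toNat)).card : ℝ) := by
    rw [← sum_wn (1 / c) c N P, Nat.cast_sum]
    refine Finset.sum_congr rfl fun k _ => ?_
    rw [tc_wn c (by linarith) k]
  rw [hcard]
  have h6 : (GG (1 / c) c N).filter (fun x => P (kk x.1 x.2).toNat) ⊆
      (GG (1 / c) c N).filter (fun x => q ∣ nm x.1) ∪ (GG (1 / c) c N).filter (fun x => q ∣ nm x.2) := by
    intro x hx
    rw [mem_filter] at hx
    obtain ⟨g1, g2, g3, g4, -⟩ := mem_GG.1 hx.1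
    rw [mem_union, mem_filter, mem_filter]
    rcases hP x.1 x.2 g3 g4 hx.2 with h | h
    · exact Or.inl ⟨hx.1, h⟩
    · exact Or.inr ⟨hx.1, h⟩
  have h7 : (((GG (1 / c) c N).filter (fun x => P (kk x.1 x.2).toNat)).card : ℝ) ≤
      (((GG (1 / c) c N).filter (fun x => q ∣ nm x.1)).card : ℝ) +
        (((GG (1 / c) c N).filter (fun x => q ∣ nm x.2)).card : ℝ) := by
    exact_mod_cast (Finset.card_le_card h6).trans (Finset.card_union_le _ _)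
  have h8 := e2_side N Q hQ1 q (fun x => x.1) hq1 (fun v => per_v hc N v)
  have h9 := e2_side N Q hQ1 q (fun x => x.2) hq2 (fun v => per_w hc N v)
  linarith

private theorem e2_Q {c : ℝ} (hc : 1 ≤ c) {N : ℕ} (hN : 1 ≤ N) :
    0 < ⌈√(5 * c * N)⌉₊ ∧ ((⌈√(5 * c * N)⌉₊ : ℕ) : ℝ) ^ 2 ≤ 20 * c * N := by
  have hN1 : (1 : ℝ) ≤ N := by exact_mod_cast hN
  have h5 : (1 : ℝ) ≤ 5 * c * N := by nlinarith
  have hs1 : 1 ≤ √(5 * c * N) := by
    rw [Real.one_le_sqrt]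
    exact h5
  have hQ2 : ((⌈√(5 * c * N)⌉₊ : ℕ) : ℝ) ≤ 2 * √(5 * c * N) := by
    have := Nat.ceil_lt_add_one (Real.sqrt_nonneg (5 * c * N))
    linarith
  refine ⟨Nat.ceil_pos.2 (by linarith), ?_⟩
  calc ((⌈√(5 * c * N)⌉₊ : ℕ) : ℝ) ^ 2 ≤ (2 * √(5 * c * N)) ^ 2 := pow_le_pow_left₀ (Nat.cast_nonneg _) hQ2 2
    _ = 4 * (√(5 * c * N) ^ 2) := by ring
    _ = 4 * (5 * c * N) := by rw [Real.sq_sqrt (by linarith)]
    _ = 20 * c * N := by ring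

private theorem e2_ff {v w : ℤ × ℤ} (h : dt v w = 1) (hk : 1 ≤ kk v w) :
    ((ff (kk v w).toNat : ℕ) : ℤ) = nm v * nm w := by
  have e1 : (((kk v w).toNat : ℕ) : ℤ) = kk v w := Int.toNat_of_nonneg (by omega)
  unfold ff
  push_cast
  rw [e1, kk_eq h]

open Classical in
/-- PROOF. `N = 0` is clear. By `sum_wn`, `tc_wn` (with `P k = (p ∣ ff k)`) the sum is the number of the `x ∈ GG (1 / c) c N` with `p ∣ ff (kk v w).toNat`; `ff kk = nm v * nm w` (`kk_eq`), so `p ∣ nm v` or `p ∣ nm w`. With `Q = ⌈√(5 c N)⌉₊`, `Q² ≤ 12 c N`: `v, w ∈ Bx Q` (`geo`, `ll`), primitive (`cop_of_dt`, file `GA/TS/Mk.lean`);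
every `v` belongs to at most `4 c` frames (`per_v`), every `w` too (`per_w`). `vec_pp` for `s = 1`: `≤ 4 c * 2 * (2 + 8 Q² / p)`. If `5 Q² < p` there is no such vector (`0 < nm v ≤ 5 Q²`), else `2 ≤ 10 Q² / p`. MODEL: `CntF_side` in `GV/CntF.lean`. -/
theorem mass_p {c : ℝ} (hc : 1 ≤ c) : ∃ C : ℝ, 0 ≤ C ∧ ∀ N p : ℕ, p.Prime →
    ∑ k ∈ (Icc 1 N).filter (fun k => p ∣ ff k), (tc c k : ℝ) ≤ C * N / p := by
  have hc0 : 0 < c := by linarith
  refine ⟨2880 * c ^ 2, by positivity, fun N p hp => ?_⟩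
  rcases Nat.eq_zero_or_pos N with hN | hN
  · rw [hN]
    simp
  have hpR : (0 : ℝ) < p := by exact_mod_cast hp.pos
  obtain ⟨hQ0, hQsq⟩ := e2_Q hc hN
  have h1 := e2_main hc N (p : ℤ) (fun k => p ∣ ff k) (by
    intro v w hd hk hdv
    have h2 : (p : ℤ) ∣ nm v * nm w := by
      rw [← e2_ff hd hk]
      exact_mod_cast hdv
    exact (Nat.prime_iff_prime_int.1 hp).dvd_or_dvd h2)
  generalize ⌈√(5 * c * N)⌉₊ = Q at hQ0 hQsq h1
  refine le_trans h1 ?_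
  by_cases hcase : 5 * Q ^ 2 < p
  · have h2 : (Bx Q).filter (fun v => IsCoprime v.1 v.2 ∧ (p : ℤ) ∣ nm v) = ∅ := by
      rw [Finset.filter_eq_empty_iff]
      rintro v hv ⟨h3, h4⟩
      obtain ⟨h5, h6⟩ := e2_nm hv h3
      have h7 := Int.le_of_dvd h5 h4
      have h8 : (5 * (Q : ℤ) ^ 2) < p := by exact_mod_cast hcase
      linarith
    rw [h2, card_empty, Nat.cast_zero, mul_zero]
    positivity
  · have h2 := vec_pp hp (s := 1) (Q := Q) le_rfl hQ0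
    rw [pow_one, pow_one] at h2
    have h3 : (p : ℝ) ≤ 5 * (Q : ℝ) ^ 2 := by exact_mod_cast not_lt.1 hcase
    have h4 : 1 + 4 * (Q : ℝ) ^ 2 / p ≤ 9 * (Q : ℝ) ^ 2 / p := by
      rw [le_div_iff₀ hpR, add_mul, div_mul_cancel₀ _ hpR.ne']
      linarith
    have h5 : 9 * (Q : ℝ) ^ 2 / p ≤ 9 * (20 * c * N) / p :=
      div_le_div_of_nonneg_right (by linarith) hpR.le
    calc 8 * c * (((Bx Q).filter (fun v => IsCoprime v.1 v.2 ∧ (p : ℤ) ∣ nm v)).card : ℝ)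
        ≤ 8 * c * (2 * (9 * (20 * c * N) / p)) := by
          refine mul_le_mul_of_nonneg_left (h2.trans ?_) (by positivity)
          linarith
      _ = 2880 * c ^ 2 * N / p := by ring

open Classical in
/-- PROOF. As `mass_p`: `p ^ (2 A) ∣ nm v * nm w`, so `p ^ A ∣ nm v` or `p ^ A ∣ nm w`; `vec_pp` for `s = A`. -/
theorem mass_pp {c : ℝ} (hc : 1 ≤ c) : ∃ C : ℝ, 0 ≤ C ∧ ∀ N A p : ℕ, p.Prime → 1 ≤ A →
    ∑ k ∈ (Icc 1 N).filter (fun k => p ^ (2 * A) ∣ ff k), (tc c k : ℝ) ≤ C * (N / (p : ℝ) ^ A + 1) := by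
  have hc0 : 0 < c := by linarith
  refine ⟨1280 * c ^ 2, by positivity, fun N A p hp hA => ?_⟩
  rcases Nat.eq_zero_or_pos N with hN | hN
  · rw [hN]
    simp
    positivity
  have hpR : (0 : ℝ) < (p : ℝ) ^ A := pow_pos (by exact_mod_cast hp.pos) A
  obtain ⟨hQ0, hQsq⟩ := e2_Q hc hN
  have h1 := e2_main hc N ((p : ℤ) ^ A) (fun k => p ^ (2 * A) ∣ ff k) (by
    intro v w hd hk hdv
    have e1 := e2_ff hd hk
    have e2 : ff (kk v w).toNat = (nm v).natAbs * (nm w).natAbs := by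
      have e3 := congrArg Int.natAbs e1
      rw [Int.natAbs_natCast, Int.natAbs_mul] at e3
      exact e3
    have e4 : 0 < ff (kk v w).toNat := by
      unfold ff
      omega
    rw [e2] at e4 hdv
    have ha : (nm v).natAbs ≠ 0 := (Nat.pos_of_mul_pos_right e4).ne'
    have hb : (nm w).natAbs ≠ 0 := (Nat.pos_of_mul_pos_left e4).ne'
    rw [hp.pow_dvd_iff_le_factorization (mul_ne_zero ha hb), Nat.factorization_mul ha hb,
      Finsupp.add_apply] at hdv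
    have key : ∀ z : ℤ, z.natAbs ≠ 0 → A ≤ z.natAbs.factorization p → (p : ℤ) ^ A ∣ z := by
      intro z hz h
      have h2 : p ^ A ∣ z.natAbs := (hp.pow_dvd_iff_le_factorization hz).2 h
      have h3 : ((p ^ A : ℕ) : ℤ) ∣ z := Int.natCast_dvd.2 h2
      rw [Nat.cast_pow] at h3
      exact h3
    rcases le_total A ((nm v).natAbs.factorization p) with h | h
    · exact Or.inl (key _ ha h)
    · exact Or.inr (key _ hb (by omega)))
  generalize ⌈√(5 * c * N)⌉₊ = Q at hQ0 hQsq h1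
  refine le_trans h1 ?_
  have h2 := vec_pp hp (s := A) (Q := Q) hA hQ0
  have h5 : 4 * (Q : ℝ) ^ 2 / (p : ℝ) ^ A ≤ 4 * (20 * c * N) / (p : ℝ) ^ A :=
    div_le_div_of_nonneg_right (by linarith) hpR.le
  calc 8 * c * (((Bx Q).filter (fun v => IsCoprime v.1 v.2 ∧ (p : ℤ) ^ A ∣ nm v)).card : ℝ)
      ≤ 8 * c * (2 * (1 + 4 * (20 * c * N) / (p : ℝ) ^ A)) := by
        refine mul_le_mul_of_nonneg_left (h2.trans ?_) (by positivity)
        linarith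
    _ = 1280 * c ^ 2 * (N / (p : ℝ) ^ A) + 16 * c := by ring
    _ ≤ 1280 * c ^ 2 * (N / (p : ℝ) ^ A + 1) := by nlinarith

end Pool.Agent.Lib.MP_d57abb_ntW
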