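import Pool.Agent.Lib.MP_d57abb_ntW.EDefs

/-!
# Leaf E3: the large primes
-/

set_option autoImplicit false

namespace Pool.Agent.Lib.MP_d57abb_ntW

open Finset Filter Topology Pool.Agent.Lib.MP_d57abb_nt Pool.Agent.Lib.MP_d57abb_nt.GA.TA Pool.Agent.Lib.MP_d57abb_nt.GA.TS
  Pool.Agent.Lib.MP_d57abb_nt.GA.TZ

attribute [local instance] GT.lab0

private theorem e3_tele {ι : Type*} [DecidableEq ι] (s : Finset ι) (a b : ι → ℂ) (ha : ∀ i ∈ s, ‖a i‖ ≤ 1) (hb : ∀ i ∈ s, ‖b i‖ ≤ 1) :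
    ‖∏ i ∈ s, a i - ∏ i ∈ s, b i‖ ≤ ∑ i ∈ s, ‖a i - b i‖ := by
  induction s using Finset.induction_on with
  | empty => simp
  | insert i s hi ih =>
    rw [prod_insert hi, prod_insert hi, sum_insert hi]
    have h1 : a i * ∏ j ∈ s, a j - b i * ∏ j ∈ s, b j = (a i - b i) * ∏ j ∈ s, a j + b i * (∏ j ∈ s, a j - ∏ j ∈ s, b j) := by ring
    have h2 : ‖∏ j ∈ s, a j‖ ≤ 1 := by
      rw [norm_prod]
      exact prod_le_one (fun j _ => norm_nonneg _) fun j hj => ha j (mem_insert_of_mem hj)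
    have h3 := ih (fun j hj => ha j (mem_insert_of_mem hj)) fun j hj => hb j (mem_insert_of_mem hj)
    have h4 := hb i (mem_insert_self i s)
    rw [h1]
    calc ‖(a i - b i) * ∏ j ∈ s, a j + b i * (∏ j ∈ s, a j - ∏ j ∈ s, b j)‖
        ≤ ‖(a i - b i) * ∏ j ∈ s, a j‖ + ‖b i * (∏ j ∈ s, a j - ∏ j ∈ s, b j)‖ := norm_add_le _ _
      _ = ‖a i - b i‖ * ‖∏ j ∈ s, a j‖ + ‖b i‖ * ‖∏ j ∈ s, a j - ∏ j ∈ s, b j‖ := by rw [norm_mul, norm_mul]
      _ ≤ ‖a i - b i‖ * 1 + 1 * ‖∏ j ∈ s, a j - ∏ j ∈ s, b j‖ :=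
          add_le_add (mul_le_mul_of_nonneg_left h2 (norm_nonneg _)) (mul_le_mul_of_nonneg_right h4 (norm_nonneg _))
      _ ≤ ‖a i - b i‖ + ∑ i ∈ s, ‖a i - b i‖ := by
          rw [mul_one, one_mul]
          exact add_le_add le_rfl h3

private theorem e3_fac {g : ℕ → ℂ} (hmul : ∀ a b : ℕ, 0 < a → 0 < b → a.Coprime b → g (a * b) = g a * g b) (h1 : g 1 = 1) {n : ℕ}
    (hn : 0 < n) : g n = ∏ p ∈ n.primeFactors, g (p ^ n.factorization p) := by
  have h := Nat.multiplicative_factorization g (fun x y hxy => ?_) h1 hn.ne'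
  · rw [h]
    rfl
  · rcases Nat.eq_zero_or_pos x with hx | hx
    · subst hx
      rw [Nat.coprime_zero_left] at hxy
      rw [hxy, mul_one, h1, mul_one]
    · rcases Nat.eq_zero_or_pos y with hy | hy
      · subst hy
        rw [Nat.coprime_zero_right] at hxy
        rw [hxy, one_mul, h1, one_mul]
      · exact hmul x y hx hy hxy

private theorem e3_sq (r : ℕ) (h6 : r < 5) (h5 : r ≠ 0) (h3 : IsSquare ((r : ℕ) : ZMod 5)) : r = 1 ∨ r = 4 := by
  interval_cases r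
  · exact absurd rfl h5
  · exact Or.inl rfl
  · exfalso
    revert h3
    decide
  · exfalso
    revert h3
    decide
  · exact Or.inr rfl

private theorem e3_one {g ψ : ℕ → ℂ} (hle : ∀ n : ℕ, 0 < n → ‖g n‖ ≤ 1) (hψ : ∀ n : ℕ, ‖ψ n‖ ≤ 1) (y n p : ℕ) (hp : p ∈ n.primeFactors) :
    ‖if p ≤ y then g (p ^ n.factorization p) else ψ p ^ n.factorization p‖ ≤ 1 := by
  have hp' := (Nat.prime_of_mem_primeFactors hp).pos
  split_ifs
  · exact hle _ (pow_pos hp' _)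
  · rw [norm_pow]
    exact pow_le_one₀ (norm_nonneg _) (hψ p)

/-- PROOF. `g n = ∏ p ∈ n.primeFactors, g (p ^ n.factorization p)` (`n > 0`, `g 1 = 1`: `Nat.multiplicative_factorization` or `Nat.recOnPosPrimePosCoprime`). The factors of `tw` are the same for `p ≤ y`; for `p > y` the exponent is one (`hsq`), the factors are `g p` and `ψ p`. All factors have absolute value at most one: telescoping
`‖∏ a - ∏ b‖ ≤ ∑ ‖a - b‖` (induction over the finite set). -/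
theorem diff_tw {g ψ : ℕ → ℂ} (hmul : ∀ a b : ℕ, 0 < a → 0 < b → a.Coprime b → g (a * b) = g a * g b) (h1 : g 1 = 1)
    (hle : ∀ n : ℕ, 0 < n → ‖g n‖ ≤ 1) (hψ : ∀ n : ℕ, ‖ψ n‖ ≤ 1) {y n : ℕ} (hn : 0 < n)
    (hsq : ∀ p : ℕ, p.Prime → y < p → ¬ p ^ 2 ∣ n) :
    ‖g n - tw g ψ y n‖ ≤ ∑ p ∈ n.primeFactors.filter (fun p => y < p), ‖g p - ψ p‖ := by
  classical
  rw [e3_fac hmul h1 hn]
  unfold tw
  refine (e3_tele n.primeFactors _ _ (fun p hp => hle _ (pow_pos (Nat.prime_of_mem_primeFactors hp).pos _))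
    fun p hp => e3_one hle hψ y n p hp).trans (le_of_eq ?_)
  rw [sum_filter]
  refine sum_congr rfl fun p hp => ?_
  by_cases hpy : p ≤ y
  · rw [if_pos hpy, if_neg (not_lt.2 hpy), sub_self, norm_zero]
  · have hpy' : y < p := not_le.1 hpy
    have hpp := Nat.prime_of_mem_primeFactors hp
    have hk : n.factorization p = 1 := by
      have h2 : 0 < n.factorization p := hpp.factorization_pos_of_dvd hn.ne' (Nat.dvd_of_mem_primeFactors hp)
      have h3 : ¬ 2 ≤ n.factorization p := fun h => hsq p hpp hpy' ((hpp.pow_dvd_iff_le_factorization hn.ne').2 h)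
      omega
    rw [if_neg hpy, if_pos hpy', hk, pow_one, pow_one]

/-- PROOF. All factors have absolute value at most one. -/
theorem tw_le {g ψ : ℕ → ℂ} (hle : ∀ n : ℕ, 0 < n → ‖g n‖ ≤ 1) (hψ : ∀ n : ℕ, ‖ψ n‖ ≤ 1) (y n : ℕ) : ‖tw g ψ y n‖ ≤ 1 := by
  classical
  unfold tw
  rw [norm_prod]
  exact prod_le_one (fun p _ => norm_nonneg _) fun p hp => e3_one hle hψ y n p hp

/-- PROOF. `4 (k² + 3 k + 1) = (2 k + 3)² - 5`: `5` is a square modulo `p`, `p ≠ 2` (the value is odd); quadratic reciprocity (`ZMod.exists_sq_eq_prime_iff_of_mod_four_eq_one` for `5`, or see `GV/SqT.lean`, `GV/Cls.lean`: `Sp`), `p % 5` is a square modulo `5`. -/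
theorem spl_of_dvd {p k : ℕ} (hp : p.Prime) (h : p ∣ ff k) (h5 : 5 < p) : Spl p := by
  haveI : Fact p.Prime := ⟨hp⟩
  haveI : Fact (Nat.Prime 5) := ⟨by norm_num⟩
  have h1 : (2 * (k : ZMod p) + 3) ^ 2 = ((5 : ℕ) : ZMod p) := by
    have h2 : ((ff k : ℕ) : ZMod p) = 0 := (ZMod.natCast_eq_zero_iff _ _).2 h
    have h3 : ((k : ZMod p)) ^ 2 + 3 * (k : ZMod p) + 1 = 0 := by
      rw [← h2]
      unfold ff
      push_cast
      ring
    have h4 : (2 * (k : ZMod p) + 3) ^ 2 = 4 * ((k : ZMod p) ^ 2 + 3 * (k : ZMod p) + 1) + 5 := by ring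
    rw [h4, h3]
    push_cast
    ring
  have h2 : IsSquare ((5 : ℕ) : ZMod p) := ⟨2 * (k : ZMod p) + 3, by rw [← h1]; ring⟩
  have h3 := (ZMod.exists_sq_eq_prime_iff_of_mod_four_eq_one (p := 5) (q := p) (by norm_num) (by omega)).2 h2
  refine ⟨hp, ?_⟩
  have h4 : ((p : ℕ) : ZMod 5) = ((p % 5 : ℕ) : ZMod 5) := (ZMod.natCast_mod p 5).symm
  rw [h4] at h3
  have h5 : p % 5 ≠ 0 := by
    intro h6
    have h7 := (Nat.prime_dvd_prime_iff_eq (by norm_num : Nat.Prime 5) hp).1 (Nat.dvd_of_mod_eq_zero h6)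
    omega
  have h6 : p % 5 < 5 := Nat.mod_lt _ (by norm_num)
  exact e3_sq _ h6 h5 h3

end Pool.Agent.Lib.MP_d57abb_ntW
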