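import Pool.Agent.Lib.MP_d57abb_ntW.E2
import Pool.Agent.Lib.MP_d57abb_ntW.E3

/-!
# Leaf E4: truncation
-/

set_option autoImplicit false

namespace Pool.Agent.Lib.MP_d57abb_ntW

open Finset Filter Topology Pool.Agent.Lib.MP_d57abb_nt Pool.Agent.Lib.MP_d57abb_nt.GA.TA Pool.Agent.Lib.MP_d57abb_nt.GA.TS
  Pool.Agent.Lib.MP_d57abb_nt.GA.TZ

attribute [local instance] GT.lab0

open Classical in
/-- PROOF. `C` from `mass_p`. The `k` for which `ff k` is divisible by the square of a prime `> y` contribute at most `2 tc c k` each. For the other `k` `diff_tw` (with `ψ` replaced by the function `n ↦ ψ n` of norm at most one); the sum is at most `∑_k tc c k ∑_(p ∣ ff k, y < p) ‖g p - ψ p‖ = ∑_p ‖g p - ψ p‖ ∑_(k, p ∣ ff k) tc c k`, the sum over the set `S` of the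
primes `p > y` which divide some `ff k`, `k ≤ N` (they are split primes, `spl_of_dvd`), which is at most `C N ∑_(p ∈ S) ‖g p - ψ p‖ / p ≤ C N B`. -/
theorem tail_tw {c : ℝ} (hc : 1 ≤ c) : ∃ C : ℝ, 0 ≤ C ∧ ∀ g ψ : ℕ → ℂ,
    (∀ a b : ℕ, 0 < a → 0 < b → a.Coprime b → g (a * b) = g a * g b) → g 1 = 1 → (∀ n : ℕ, 0 < n → ‖g n‖ ≤ 1) →
    (∀ n : ℕ, ‖ψ n‖ ≤ 1) → ∀ y : ℕ, 5 ≤ y → ∀ B : ℝ,
    (∀ S : Finset ℕ, (∀ p ∈ S, Spl p ∧ y < p) → ∑ p ∈ S, ‖g p - ψ p‖ / (p : ℝ) ≤ B) → ∀ (N : ℕ) (P : ℕ → Prop) [DecidablePred P],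
    ‖∑ k ∈ (Icc 1 N).filter P, (tc c k : ℂ) * (g (ff k) - tw g ψ y (ff k))‖ ≤
      C * B * N + 2 * ∑ k ∈ (Icc 1 N).filter (fun k => ∃ l : ℕ, l.Prime ∧ y < l ∧ l ^ 2 ∣ k ^ 2 + 3 * k + 1), (tc c k : ℝ) := by
  obtain ⟨C, hC0, hC⟩ := mass_p hc
  refine ⟨C, hC0, fun g ψ hmul h1 hle hψ y hy B hB N P _ => ?_⟩
  obtain ⟨d, hd⟩ : ∃ d : ℕ → ℝ, ∀ p, d p = ‖g p - ψ p‖ := ⟨_, fun _ => rfl⟩
  have hd0 : ∀ p, 0 ≤ d p := fun p => by
    rw [hd]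
    exact norm_nonneg _
  have hff : ∀ k, 0 < ff k := fun k => Nat.succ_pos _
  obtain ⟨S, hS⟩ : ∃ S : Finset ℕ, S = (Icc 1 N).biUnion
    (fun k => (ff k).primeFactors.filter (fun p => y < p)) := ⟨_, rfl⟩
  have hSm : ∀ p ∈ S, p.Prime ∧ y < p ∧ ∃ k, p ∣ ff k := by
    intro p hp
    rw [hS, mem_biUnion] at hp
    obtain ⟨k, _, hk⟩ := hp
    rw [mem_filter, Nat.mem_primeFactors] at hk
    exact ⟨hk.1.1, hk.2, k, hk.1.2.1⟩
  have hSp : ∀ p ∈ S, Spl p ∧ y < p := by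
    intro p hp
    obtain ⟨h2, h3, k, h4⟩ := hSm p hp
    exact ⟨spl_of_dvd h2 h4 (by omega), h3⟩
  have hin : ∀ k ∈ Icc 1 N, ∑ p ∈ (ff k).primeFactors.filter (fun p => y < p), ‖g p - ψ p‖ =
      ∑ p ∈ S, if p ∣ ff k then d p else 0 := by
    intro k hk
    rw [← sum_filter]
    refine sum_congr ?_ fun p _ => (hd p).symm
    ext p
    rw [mem_filter, mem_filter, Nat.mem_primeFactors]
    constructor
    · rintro ⟨⟨h2, h3, h4⟩, h5⟩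
      refine ⟨?_, h3⟩
      rw [hS, mem_biUnion]
      exact ⟨k, hk, mem_filter.2 ⟨Nat.mem_primeFactors.2 ⟨h2, h3, h4⟩, h5⟩⟩
    · rintro ⟨h2, h3⟩
      obtain ⟨h4, h5, _⟩ := hSm p h2
      exact ⟨⟨h4, h3, (hff k).ne'⟩, h5⟩
  have hin0 : ∀ k, 0 ≤ ∑ p ∈ S, if p ∣ ff k then d p else 0 := by
    intro k
    refine sum_nonneg fun p _ => ?_
    split_ifs
    · exact hd0 p
    · exact le_rfl
  have key : ∀ k ∈ Icc 1 N, ‖(tc c k : ℂ) * (g (ff k) - tw g ψ y (ff k))‖ ≤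
      (tc c k : ℝ) * (∑ p ∈ S, if p ∣ ff k then d p else 0) +
        2 * (if (∃ l : ℕ, l.Prime ∧ y < l ∧ l ^ 2 ∣ k ^ 2 + 3 * k + 1) then (tc c k : ℝ) else 0) := by
    intro k hk
    rw [norm_mul, Complex.norm_natCast]
    by_cases hb : ∃ l : ℕ, l.Prime ∧ y < l ∧ l ^ 2 ∣ k ^ 2 + 3 * k + 1
    · rw [if_pos hb]
      have h2 : ‖g (ff k) - tw g ψ y (ff k)‖ ≤ 2 := by
        refine (norm_sub_le _ _).trans ?_
        have h3 := hle (ff k) (hff k)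
        have h4 := tw_le hle hψ y (ff k)
        linarith
      have h3 : (0 : ℝ) ≤ (tc c k : ℝ) := Nat.cast_nonneg _
      have h4 := mul_nonneg h3 (hin0 k)
      have h5 := mul_le_mul_of_nonneg_left h2 h3
      linarith
    · rw [if_neg hb, mul_zero, add_zero, ← hin k hk]
      refine mul_le_mul_of_nonneg_left ?_ (Nat.cast_nonneg _)
      exact diff_tw hmul h1 hle hψ (hff k) fun p hp hyp hd2 => hb ⟨p, hp, hyp, hd2⟩
  have hmain : ∑ k ∈ Icc 1 N, (tc c k : ℝ) * (∑ p ∈ S, if p ∣ ff k then d p else 0) ≤ C * B * N := by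
    have h2 : ∑ k ∈ Icc 1 N, (tc c k : ℝ) * (∑ p ∈ S, if p ∣ ff k then d p else 0) =
        ∑ p ∈ S, d p * ∑ k ∈ (Icc 1 N).filter (fun k => p ∣ ff k), (tc c k : ℝ) := by
      simp only [mul_sum]
      rw [sum_comm]
      refine sum_congr rfl fun p _ => ?_
      rw [sum_filter]
      refine sum_congr rfl fun k _ => ?_
      by_cases h3 : p ∣ ff k
      · rw [if_pos h3, if_pos h3, mul_comm]
      · rw [if_neg h3, if_neg h3, mul_zero]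
    rw [h2]
    have h3 : ∑ p ∈ S, d p * ∑ k ∈ (Icc 1 N).filter (fun k => p ∣ ff k), (tc c k : ℝ) ≤
        ∑ p ∈ S, C * N * (‖g p - ψ p‖ / (p : ℝ)) := by
      refine sum_le_sum fun p hp => ?_
      have h4 := mul_le_mul_of_nonneg_left (hC N p (hSm p hp).1) (hd0 p)
      refine h4.trans (le_of_eq ?_)
      rw [hd]
      ring
    refine h3.trans ?_
    rw [← mul_sum]
    calc C * N * ∑ p ∈ S, ‖g p - ψ p‖ / (p : ℝ) ≤ C * N * B :=
          mul_le_mul_of_nonneg_left (hB S hSp) (mul_nonneg hC0 (Nat.cast_nonneg _))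
      _ = C * B * N := by ring
  calc ‖∑ k ∈ (Icc 1 N).filter P, (tc c k : ℂ) * (g (ff k) - tw g ψ y (ff k))‖
      ≤ ∑ k ∈ (Icc 1 N).filter P, ‖(tc c k : ℂ) * (g (ff k) - tw g ψ y (ff k))‖ := norm_sum_le _ _
    _ ≤ ∑ k ∈ Icc 1 N, ‖(tc c k : ℂ) * (g (ff k) - tw g ψ y (ff k))‖ :=
        sum_le_sum_of_subset_of_nonneg (filter_subset _ _) fun _ _ _ => norm_nonneg _
    _ ≤ ∑ k ∈ Icc 1 N, ((tc c k : ℝ) * (∑ p ∈ S, if p ∣ ff k then d p else 0) +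
        2 * (if (∃ l : ℕ, l.Prime ∧ y < l ∧ l ^ 2 ∣ k ^ 2 + 3 * k + 1) then (tc c k : ℝ) else 0)) := sum_le_sum key
    _ ≤ _ := by
        rw [sum_add_distrib, ← mul_sum, ← sum_filter]
        exact add_le_add hmain le_rfl

end Pool.Agent.Lib.MP_d57abb_ntW
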