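import Pool.Agent.Lib.MP_d57abb_ntW.EDefs

/-!
# Leaf E8: polygons
-/

set_option autoImplicit false

namespace Pool.Agent.Lib.MP_d57abb_ntW

open Finset Filter Topology Pool.Agent.Lib.MP_d57abb_nt Pool.Agent.Lib.MP_d57abb_nt.GA.TA Pool.Agent.Lib.MP_d57abb_nt.GA.TS
  Pool.Agent.Lib.MP_d57abb_nt.GA.TZ

attribute [local instance] GT.lab0

/-- PROOF. The vertices of the polygon are the `ω` with `ω ^ q = 1`. If `ζ ^ q = 1`: `z ζ⁻¹` is a convex combination of the `ω` with `ω ^ q = 1` (finitely many), and `‖ω - 1‖ ≤ 2 ≤ C (1 - Re ω)` for `ω ≠ 1` with `C = 2 / min_(ω ≠ 1) (1 - Re ω)` (`1 - Re ω > 0` for `ω ≠ 1`, `‖ω‖ = 1`), trivial for `ω = 1`: the inequality passes to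
convex combinations (the set of the `z` with `‖z - ζ‖ ≤ C (1 - Re (z conj ζ))` is convex, `convexHull_min`). If `ζ ^ q ≠ 1` the same: `1 - Re (ω conj ζ) > 0` for all vertices `ω`. -/
theorem poly_lip {q : ℕ} (hq : 0 < q) {ζ : ℂ} (hζ : ‖ζ‖ = 1) : ∃ C : ℝ, 1 ≤ C ∧ ∀ z ∈ convexHull ℝ {z : ℂ | z ^ q = 1},
    ‖z - ζ‖ ≤ C * (1 - (z * (starRingEnd ℂ) ζ).re) := by
  obtain ⟨C, hC⟩ : ∃ C : ℝ, C = 1 + ∑ ω ∈ Polynomial.nthRootsFinset q (1 : ℂ), 2 / ‖ω - ζ‖ := ⟨_, rfl⟩
  have hS0 : ∀ ω ∈ Polynomial.nthRootsFinset q (1 : ℂ), 0 ≤ 2 / ‖ω - ζ‖ := fun ω _ => by positivity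
  have hC1 : 1 ≤ C := by
    have := Finset.sum_nonneg hS0
    linarith
  have hζ2 : Complex.normSq ζ = 1 := by rw [Complex.normSq_eq_norm_sq, hζ]; norm_num
  refine ⟨C, hC1, ?_⟩
  have hconv : Convex ℝ {z : ℂ | ‖z - ζ‖ ≤ C * (1 - (z * (starRingEnd ℂ) ζ).re)} := by
    intro x hx y hy a b ha hb hab
    simp only [Set.mem_ofPred_eq] at hx hy ⊢
    have e1 : a • x + b • y - ζ = a • (x - ζ) + b • (y - ζ) := by
      have : ζ = a • ζ + b • ζ := by rw [← add_smul, hab, one_smul]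
      calc a • x + b • y - ζ = a • x + b • y - (a • ζ + b • ζ) := by rw [← this]
        _ = a • (x - ζ) + b • (y - ζ) := by rw [smul_sub, smul_sub]; ring
    have e2 : ((a • x + b • y) * (starRingEnd ℂ) ζ).re = a * (x * (starRingEnd ℂ) ζ).re + b * (y * (starRingEnd ℂ) ζ).re := by
      rw [add_mul, smul_mul_assoc, smul_mul_assoc, Complex.add_re, Complex.smul_re, Complex.smul_re, smul_eq_mul, smul_eq_mul]
    have h3 : ‖a • x + b • y - ζ‖ ≤ a * ‖x - ζ‖ + b * ‖y - ζ‖ := by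
      rw [e1]
      refine (norm_add_le _ _).trans ?_
      rw [norm_smul, norm_smul, Real.norm_of_nonneg ha, Real.norm_of_nonneg hb]
    rw [e2]
    have h4 := mul_le_mul_of_nonneg_left hx ha
    have h5 := mul_le_mul_of_nonneg_left hy hb
    have h6 : C * (1 - (a * (x * (starRingEnd ℂ) ζ).re + b * (y * (starRingEnd ℂ) ζ).re)) =
        a * (C * (1 - (x * (starRingEnd ℂ) ζ).re)) + b * (C * (1 - (y * (starRingEnd ℂ) ζ).re)) := by
      have hb' : b = 1 - a := by linarith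
      rw [hb']; ring
    rw [h6]
    linarith
  have hsub : convexHull ℝ {z : ℂ | z ^ q = 1} ⊆ {z : ℂ | ‖z - ζ‖ ≤ C * (1 - (z * (starRingEnd ℂ) ζ).re)} := by
    refine convexHull_min ?_ hconv
    intro ω hω
    simp only [Set.mem_ofPred_eq] at hω ⊢
    have hn : ‖ω‖ = 1 := by
      have h1 : ‖ω‖ ^ q = 1 := by rw [← norm_pow, hω, norm_one]
      exact (pow_eq_one_iff_of_nonneg (norm_nonneg _) hq.ne').1 h1
    have hω2 : Complex.normSq ω = 1 := by rw [Complex.normSq_eq_norm_sq, hn]; norm_num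
    have hk : ‖ω - ζ‖ ^ 2 = 2 * (1 - (ω * (starRingEnd ℂ) ζ).re) := by
      rw [← Complex.normSq_eq_norm_sq, Complex.normSq_sub, hω2, hζ2]; ring
    by_cases h0 : ω = ζ
    · subst h0
      rw [sub_self, norm_zero]
      rw [sub_self, norm_zero] at hk
      have : 1 - (ω * (starRingEnd ℂ) ω).re = 0 := by nlinarith
      rw [this, mul_zero]
    · have hpos : 0 < ‖ω - ζ‖ := norm_pos_iff.2 (sub_ne_zero.2 h0)
      have hmem : ω ∈ Polynomial.nthRootsFinset q (1 : ℂ) := (Polynomial.mem_nthRootsFinset hq 1).2 hω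
      have hle : 2 / ‖ω - ζ‖ ≤ C := by
        have := Finset.single_le_sum hS0 hmem
        linarith
      have h7 : 2 ≤ C * ‖ω - ζ‖ := by rwa [div_le_iff₀ hpos] at hle
      have h8 : 1 - (ω * (starRingEnd ℂ) ζ).re = ‖ω - ζ‖ ^ 2 / 2 := by linarith
      rw [h8]
      nlinarith
  exact fun z hz => hsub hz

/-- PROOF. `ψ` has finitely many values (`ZMod W` is finite), of absolute value one at the `p` prime to `W` (`DirichletCharacter.unit_norm_eq_one`-like) and `0` at the others; `C` = the maximum of the constants of `poly_lip`, `≥ 1`. For `ψ p = 0`: `‖g p‖ ≤ 1 = 1 - 0` (the hull is in the unit disc). `Summable.of_nonneg_of_le` with `C *` the given series. -/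
theorem hull_sum {q : ℕ} (hq : 0 < q) {g : ℕ → ℂ} (hh : ∀ p : ℕ, Spl p → g p ∈ convexHull ℝ {z : ℂ | z ^ q = 1}) {W : ℕ}
    (hW : 0 < W) (ψ : DirichletCharacter ℂ W)
    (hs : Summable (fun p : ℕ => if Spl p then (1 - (g p * (starRingEnd ℂ) (ψ p)).re) / (p : ℝ) else 0)) :
    Summable (fun p : ℕ => if Spl p then ‖g p - ψ p‖ / (p : ℝ) else 0) := by
  have : NeZero W := ⟨hW.ne'⟩
  have hex : ∀ x : ZMod W, ∃ C : ℝ, 1 ≤ C ∧ ∀ z ∈ convexHull ℝ {z : ℂ | z ^ q = 1},
      ‖z - ψ x‖ ≤ C * (1 - (z * (starRingEnd ℂ) (ψ x)).re) := by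
    intro x
    by_cases hx : IsUnit x
    · obtain ⟨u, rfl⟩ := hx
      exact poly_lip hq (DirichletCharacter.unit_norm_eq_one ψ u)
    · refine ⟨1, le_rfl, ?_⟩
      intro z hz
      rw [MulChar.map_nonunit ψ hx, sub_zero, map_zero, mul_zero, Complex.zero_re, sub_zero, mul_one]
      have hsub : convexHull ℝ {z : ℂ | z ^ q = 1} ⊆ Metric.closedBall (0 : ℂ) 1 := by
        refine convexHull_min ?_ (convex_closedBall _ _)
        intro ω hω
        have h1 : ‖ω‖ ^ q = 1 := by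
          rw [← norm_pow, show ω ^ q = 1 from hω, norm_one]
        rw [mem_closedBall_zero_iff]
        exact ((pow_eq_one_iff_of_nonneg (norm_nonneg _) hq.ne').1 h1).le
      exact mem_closedBall_zero_iff.1 (hsub hz)
  choose C hC1 hC using hex
  have hle : ∀ x : ZMod W, C x ≤ ∑ y : ZMod W, C y := fun x =>
    Finset.single_le_sum (f := C) (fun y _ => zero_le_one.trans (hC1 y)) (Finset.mem_univ x)
  refine Summable.of_nonneg_of_le (f := fun p : ℕ => (∑ y : ZMod W, C y) * (if Spl p then (1 - (g p * (starRingEnd ℂ) (ψ p)).re) / (p : ℝ) else 0))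
    ?_ ?_ (hs.mul_left _)
  · intro p
    split_ifs
    · positivity
    · exact le_rfl
  · intro p
    split_ifs with hp
    · have h1 := hC (p : ZMod W) (g p) (hh p hp)
      have h0 : 0 ≤ 1 - (g p * (starRingEnd ℂ) (ψ (p : ZMod W))).re := by
        by_contra hneg
        rw [not_le] at hneg
        have h2 := norm_nonneg (g p - ψ (p : ZMod W))
        have h3 := hC1 (p : ZMod W)
        nlinarith
      rw [← mul_div_assoc]
      have hp0 : (0 : ℝ) ≤ p := Nat.cast_nonneg p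
      refine div_le_div_of_nonneg_right (h1.trans ?_) hp0
      exact mul_le_mul_of_nonneg_right (hle _) h0
    · rw [mul_zero]

end Pool.Agent.Lib.MP_d57abb_ntW
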