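import Pool.Agent.Lib.MP_d57abb_ntR.R14
import Pool.Agent.Lib.MP_d57abb_ntW.E7
import Pool.Agent.Lib.MP_d57abb_ntW.E10

/-!
# F1: the theorem of Wirsing at `k² + 3 k + 1`, over the law for roots of unity
-/

set_option autoImplicit false

namespace Pool.Agent.Lib.MP_d57abb_ntW

open Finset Filter Topology
open Pool.Agent.Lib.MP_d57abb_nt.GA.TZ (tc)
open Pool.Agent.Lib.MP_d57abb_ntR (Lz Win Sca)

open Classical in
private theorem f1_lz' {E : Set ℕ} (hE : ∀ k, k ∉ E) : Lz E := by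
  unfold Lz
  refine (tendsto_const_nhds (x := (0 : ℝ))).congr fun N => ?_
  refine (div_eq_zero_iff.2 (Or.inl (Finset.sum_eq_zero fun k hk => ?_))).symm
  exact absurd (Finset.mem_filter.1 hk).2 (hE k)

theorem lz_empty : Lz (∅ : Set ℕ) := f1_lz' fun k => Set.notMem_empty k

open Classical in
/-- Every multiplicative function of the class has a mean value in windows and at almost all scales. -/
theorem wirsing {q : ℕ} (hq : 0 < q)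
    (hbb : ∀ G : ℕ → ℂ, (∀ a b : ℕ, 0 < a → 0 < b → a.Coprime b → G (a * b) = G a * G b) → (∀ n : ℕ, 0 < n → ‖G n‖ ≤ 1) →
      (∀ p : ℕ, p.Prime → (p % 5 = 1 ∨ p % 5 = 4) → G p ^ q = 1) →
      (∀ W : ℕ, 0 < W → ∀ ψ : DirichletCharacter ℂ W,
        ¬ Summable (fun p : ℕ => if (p.Prime ∧ (p % 5 = 1 ∨ p % 5 = 4)) ∧ G p ≠ ψ p then 1 / (p : ℝ) else 0)) →
      Win tc G ∧ Sca tc G)
    {g : ℕ → ℂ} (hmul : ∀ a b : ℕ, 0 < a → 0 < b → a.Coprime b → g (a * b) = g a * g b)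
    (hle : ∀ n : ℕ, 0 < n → ‖g n‖ ≤ 1)
    (hh : ∀ p : ℕ, p.Prime → (p % 5 = 1 ∨ p % 5 = 4) → g p ∈ convexHull ℝ {z : ℂ | z ^ q = 1}) :
    ∃ m : ℕ → ℕ → ℂ,
      (∀ D : ℕ, 0 < D → ∀ r : ℕ, ∀ c : ℝ, 1 < c → ∀ ε : ℝ, 0 < ε → ∃ K : ℝ, ∀ A X : ℕ, 1 ≤ A → A ≤ X →
        ‖∑ k ∈ (Ioc A X).filter (fun k => k ^ 2 + 3 * k + 1 ≡ r [MOD D]), ((tc c k / k : ℝ) : ℂ) * g (k ^ 2 + 3 * k + 1) -
          m D r * Real.log c * Real.log (X / A)‖ ≤ ε * Real.log (X / A) + K) ∧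
      (∃ E : Set ℕ, Lz E ∧ ∀ c : ℝ, 1 < c → ∀ D : ℕ, 0 < D → ∀ r : ℕ,
        Tendsto (fun X : ℕ => (∑ k ∈ (Icc 1 X).filter (fun k => k ^ 2 + 3 * k + 1 ≡ r [MOD D]),
          (tc c k : ℂ) * g (k ^ 2 + 3 * k + 1)) / X) (atTop ⊓ 𝓟 Eᶜ) (𝓝 (m D r * Real.log c))) ∧
      ((∃ W : ℕ, 0 < W ∧ ∃ ψ : DirichletCharacter ℂ W, Summable (fun p : ℕ => if p.Prime ∧ (p % 5 = 1 ∨ p % 5 = 4) then
          (1 - (g p * (starRingEnd ℂ) (ψ p)).re) / (p : ℝ) else 0)) →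
        ∀ c : ℝ, 1 < c → ∀ D : ℕ, 0 < D → ∀ r : ℕ,
        Tendsto (fun X : ℕ => (∑ k ∈ (Icc 1 X).filter (fun k => k ^ 2 + 3 * k + 1 ≡ r [MOD D]),
          (tc c k : ℂ) * g (k ^ 2 + 3 * k + 1)) / X) atTop (𝓝 (m D r * Real.log c))) ∧
      ((∀ W : ℕ, 0 < W → ∀ ψ : DirichletCharacter ℂ W, ¬ Summable (fun p : ℕ => if p.Prime ∧ (p % 5 = 1 ∨ p % 5 = 4) then
          (1 - (g p * (starRingEnd ℂ) (ψ p)).re) / (p : ℝ) else 0)) → ∀ D r : ℕ, m D r = 0) := by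
  by_cases hP : ∃ W : ℕ, 0 < W ∧ ∃ ψ : DirichletCharacter ℂ W, Summable (fun p : ℕ => if p.Prime ∧ (p % 5 = 1 ∨ p % 5 = 4) then
      (1 - (g p * (starRingEnd ℂ) (ψ p)).re) / (p : ℝ) else 0)
  · obtain ⟨W, hW, ψ, hs⟩ := hP
    have h1 : ∀ D : ℕ, 0 < D → ∀ r : ℕ, ∃ m : ℂ, ∀ c : ℝ, 1 < c → Tendsto (fun X : ℕ =>
        (∑ k ∈ (Icc 1 X).filter (fun k => k ^ 2 + 3 * k + 1 ≡ r [MOD D]),
          (tc c k : ℂ) * g (k ^ 2 + 3 * k + 1)) / X) atTop (𝓝 (m * Real.log c)) :=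
      fun D hD r => pret_log hq hmul hle hh hW ψ hs hD r
    have h2 : ∀ D r : ℕ, ∃ m : ℂ, 0 < D → ∀ c : ℝ, 1 < c → Tendsto (fun X : ℕ =>
        (∑ k ∈ (Icc 1 X).filter (fun k => k ^ 2 + 3 * k + 1 ≡ r [MOD D]),
          (tc c k : ℂ) * g (k ^ 2 + 3 * k + 1)) / X) atTop (𝓝 (m * Real.log c)) := by
      intro D r
      rcases Nat.eq_zero_or_pos D with h | h
      · exact ⟨0, fun h' => absurd h' (by omega)⟩
      · obtain ⟨m, hm⟩ := h1 D h r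
        exact ⟨m, fun _ => hm⟩
    choose m hm using h2
    refine ⟨m, fun D hD r c hc ε hε => ?_, ⟨∅, lz_empty, fun c hc D hD r => ?_⟩, fun _ c hc D hD r => hm D r hD c hc,
      fun h => absurd hs (h W hW ψ)⟩
    · obtain ⟨a, ha⟩ : ∃ a : ℕ → ℂ, ∀ k, a k = if k ^ 2 + 3 * k + 1 ≡ r [MOD D] then
          (tc c k : ℂ) * g (k ^ 2 + 3 * k + 1) else 0 := ⟨_, fun _ => rfl⟩
      have h3 : Tendsto (fun N : ℕ => (∑ k ∈ Icc 1 N, a k) / N) atTop (𝓝 (m D r * Real.log c)) := by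
        refine (hm D r hD c hc).congr fun N => ?_
        rw [Finset.sum_filter]
        exact congrArg (· / (N : ℂ)) (Finset.sum_congr rfl fun k _ => (ha k).symm)
      obtain ⟨K, hK⟩ := win_of_nat h3 hε
      refine ⟨K, fun A X hA hX => le_trans (le_of_eq ?_) (hK A X hA hX)⟩
      refine congrArg (fun z : ℂ => ‖z - m D r * Real.log c * Real.log (X / A)‖) ?_
      rw [Finset.sum_filter]
      refine Finset.sum_congr rfl fun k _ => ?_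
      rw [ha]
      split_ifs
      · push_cast
        ring
      · rw [zero_div]
    · have h4 : (atTop ⊓ 𝓟 (∅ᶜ : Set ℕ)) = (atTop : Filter ℕ) := by
        rw [Set.compl_empty, Filter.principal_univ, inf_top_eq]
      rw [h4]
      exact hm D r hD c hc
  · have hD : ∀ W : ℕ, 0 < W → ∀ ψ : DirichletCharacter ℂ W, ¬ Summable (fun p : ℕ => if p.Prime ∧ (p % 5 = 1 ∨ p % 5 = 4) then
        (1 - (g p * (starRingEnd ℂ) (ψ p)).re) / (p : ℝ) else 0) := fun W hW ψ hs => hP ⟨W, hW, ψ, hs⟩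
    obtain ⟨h1, E, hE, h2⟩ := Pool.Agent.Lib.MP_d57abb_ntR.hull hq hbb hmul hle hh hD
    refine ⟨fun _ _ => 0, fun D hD r c hc ε hε => ?_, ⟨E, hE, fun c hc D hD r => ?_⟩, fun h => absurd h hP, fun _ _ _ => rfl⟩
    · obtain ⟨K, hK⟩ := h1 D hD r c hc ε hε
      refine ⟨K, fun A X hA hX => ?_⟩
      rw [zero_mul, zero_mul, sub_zero]
      exact hK A X hA hX
    · rw [zero_mul]
      exact h2 c hc D hD r

end Pool.Agent.Lib.MP_d57abb_ntW
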