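import Pool.Agent.Lib.MP_d57abb_ntR.Bb
import Pool.Agent.Lib.MP_d57abb_ntW.F1

/-!
# F2: the distribution of additive functions with values in a finite abelian group at `k² + 3 k + 1`
-/

set_option autoImplicit false

namespace Pool.Agent.Lib.MP_d57abb_ntW

open Finset Filter Topology
open Pool.Agent.Lib.MP_d57abb_nt.GA.TZ (tc)
open Pool.Agent.Lib.MP_d57abb_ntR (Lz)

open Classical in
private theorem f2_empty {E : Set ℕ} (hE : ∀ k, k ∉ E) : Lz E := by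
  unfold Lz
  refine (tendsto_const_nhds (x := (0 : ℝ))).congr fun N => ?_
  refine (div_eq_zero_iff.2 (Or.inl (Finset.sum_eq_zero fun k hk => ?_))).symm
  exact absurd (Finset.mem_filter.1 hk).2 (hE k)

open Classical in
private theorem f2_union {E F : Set ℕ} (hE : Lz E) (hF : Lz F) : Lz (E ∪ F) := by
  unfold Lz at hE hF ⊢
  have h := hE.add hF
  rw [add_zero] at h
  refine squeeze_zero (fun N => ?_) (fun N => ?_) h
  · exact div_nonneg (Finset.sum_nonneg fun k _ => by positivity) (Real.log_natCast_nonneg N)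
  · rw [← add_div]
    refine div_le_div_of_nonneg_right ?_ (Real.log_natCast_nonneg N)
    rw [Finset.sum_filter, Finset.sum_filter, Finset.sum_filter, ← Finset.sum_add_distrib]
    refine Finset.sum_le_sum fun k _ => ?_
    have h0 : (0 : ℝ) ≤ 1 / k := by positivity
    by_cases h3 : k ∈ E ∪ F
    · rw [if_pos h3]
      rcases h3 with h3 | h3
      · rw [if_pos h3]
        have : (0 : ℝ) ≤ if k ∈ F then 1 / (k : ℝ) else 0 := by split_ifs <;> linarith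
        linarith
      · rw [if_pos h3]
        have : (0 : ℝ) ≤ if k ∈ E then 1 / (k : ℝ) else 0 := by split_ifs <;> linarith
        linarith
    · rw [if_neg h3]
      have h4 : (0 : ℝ) ≤ if k ∈ E then 1 / (k : ℝ) else 0 := by split_ifs <;> linarith
      have h5 : (0 : ℝ) ≤ if k ∈ F then 1 / (k : ℝ) else 0 := by split_ifs <;> linarith
      linarith

open Classical in
private theorem f2_iUnion {ι : Type*} (s : Finset ι) (E : ι → Set ℕ) (h : ∀ i, Lz (E i)) :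
    ∃ F : Set ℕ, Lz F ∧ ∀ i ∈ s, E i ⊆ F := by
  induction s using Finset.induction_on with
  | empty =>
    exact ⟨∅, f2_empty fun k => Set.notMem_empty k, fun i hi => absurd hi (Finset.notMem_empty i)⟩
  | insert a s ha ih =>
    obtain ⟨F, hF, h1⟩ := ih
    refine ⟨F ∪ E a, f2_union hF (h a), fun i hi => ?_⟩
    rcases Finset.mem_insert.1 hi with rfl | hi
    · exact Set.subset_union_right
    · exact (h1 i hi).trans Set.subset_union_left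

open Classical in
private theorem f2_fin {S : Set ℝ} (hS : S.Finite) : ∃ δ : ℝ, 0 < δ ∧ ∀ x ∈ S, 0 < x → δ ≤ x := by
  obtain ⟨T, hT⟩ : ∃ T : Finset ℝ, ∀ x, x ∈ T ↔ x ∈ S ∧ 0 < x :=
    ⟨hS.toFinset.filter (fun x => 0 < x), fun x => by rw [Finset.mem_filter, hS.mem_toFinset]⟩
  rcases T.eq_empty_or_nonempty with h | h
  · refine ⟨1, one_pos, fun x hx hx0 => ?_⟩
    have h1 := (hT x).2 ⟨hx, hx0⟩
    rw [h] at h1
    exact absurd h1 (Finset.notMem_empty x)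
  · exact ⟨T.min' h, ((hT _).1 (T.min'_mem h)).2, fun x hx hx0 => T.min'_le x ((hT x).2 ⟨hx, hx0⟩)⟩

open Classical in
private theorem f2_ne {q : ℕ} (hq : 0 < q) {g : ℕ → ℂ} (hr : ∀ n : ℕ, g n ^ q = 1) {W : ℕ} (hW : 0 < W)
    (ψ : DirichletCharacter ℂ W)
    (hs : Summable (fun p : ℕ => if p.Prime ∧ (p % 5 = 1 ∨ p % 5 = 4) then
      (1 - (g p * (starRingEnd ℂ) (ψ p)).re) / (p : ℝ) else 0)) :
    Summable (fun p : ℕ => if (p.Prime ∧ (p % 5 = 1 ∨ p % 5 = 4)) ∧ g p ≠ ψ p then 1 / (p : ℝ) else 0) := by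
  have : NeZero W := ⟨hW.ne'⟩
  have h1 : Summable (fun p : ℕ => if Spl p then ‖g p - ψ p‖ / (p : ℝ) else 0) := by
    refine hull_sum hq (fun p _ => subset_convexHull ℝ _ (hr p)) hW ψ (hs.congr fun p => ?_)
    by_cases h : p.Prime ∧ (p % 5 = 1 ∨ p % 5 = 4)
    · rw [if_pos h, if_pos (show Spl p from h)]
    · rw [if_neg h, if_neg (show ¬ Spl p from h)]
  have hf1 : (Set.range g).Finite := by
    refine Set.Finite.subset ((Polynomial.nthRootsFinset q (1 : ℂ)).finite_toSet) ?_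
    rintro z ⟨n, rfl⟩
    rw [Finset.mem_coe, Polynomial.mem_nthRootsFinset hq]
    exact hr n
  have hf2 : (Set.range (fun x : ZMod W => ψ x)).Finite := Set.finite_range _
  have hf3 : (Set.range (fun p : ℕ => ‖g p - ψ p‖)).Finite := by
    refine Set.Finite.subset (Set.Finite.image2 (fun z w : ℂ => ‖z - w‖) hf1 hf2) ?_
    rintro z ⟨p, rfl⟩
    exact ⟨g p, ⟨p, rfl⟩, ψ p, ⟨(p : ZMod W), rfl⟩, rfl⟩
  obtain ⟨δ, hδ, h2⟩ := f2_fin hf3
  refine Summable.of_nonneg_of_le (fun p => ?_) (fun p => ?_) (h1.mul_left δ⁻¹)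
  · split_ifs
    · positivity
    · exact le_rfl
  · by_cases h : Spl p
    · rw [if_pos h]
      by_cases h3 : g p = ψ p
      · rw [if_neg (fun h4 => h4.2 h3)]
        positivity
      · rw [if_pos ⟨h, h3⟩]
        have h5 : δ ≤ ‖g p - ψ p‖ := h2 _ ⟨p, rfl⟩ (norm_pos_iff.2 (sub_ne_zero.2 h3))
        rw [← mul_div_assoc]
        refine div_le_div_of_nonneg_right ?_ (Nat.cast_nonneg p)
        rw [← inv_mul_cancel₀ hδ.ne']
        exact mul_le_mul_of_nonneg_left h5 (inv_nonneg.2 hδ.le)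
    · rw [if_neg h, if_neg (fun h4 => h h4.1), mul_zero]

open Classical in
/-- The distribution of an additive function with values in a finite abelian group. -/
theorem add_law {A : Type*} [AddCommGroup A] [Finite A]
    {h : ℕ → A} (hadd : ∀ a b : ℕ, 0 < a → 0 < b → a.Coprime b → h (a * b) = h a + h b) :
    ∃ μ : ℕ → ℕ → A → ℝ, (∀ D : ℕ, 0 < D → ∀ (r : ℕ) (a : A), 0 ≤ μ D r a) ∧
      (∀ x : A, (∀ ξ : AddChar A ℂ, (∃ (W : ℕ) (ψ : DirichletCharacter ℂ W), 0 < W ∧ Summable (fun p : ℕ =>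
        if (p.Prime ∧ (p % 5 = 1 ∨ p % 5 = 4)) ∧ ξ (h p) ≠ ψ p then 1 / (p : ℝ) else 0)) → ξ x = 1) →
        ∀ (D r : ℕ) (a : A), μ D r (a + x) = μ D r a) ∧
      (∀ D : ℕ, 0 < D → ∀ (r : ℕ) (a : A), ∀ c : ℝ, 1 < c → ∀ ε : ℝ, 0 < ε → ∃ K : ℝ, ∀ B X : ℕ, 1 ≤ B → B ≤ X →
        |∑ k ∈ (Ioc B X).filter (fun k => k ^ 2 + 3 * k + 1 ≡ r [MOD D] ∧ h (k ^ 2 + 3 * k + 1) = a), (tc c k : ℝ) / k -
          μ D r a * Real.log c * Real.log (X / B)| ≤ ε * Real.log (X / B) + K) ∧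
      ∃ E : Set ℕ, Lz E ∧ ∀ c : ℝ, 1 < c → ∀ D : ℕ, 0 < D → ∀ (r : ℕ) (a : A),
        Tendsto (fun X : ℕ => (∑ k ∈ (Icc 1 X).filter (fun k => k ^ 2 + 3 * k + 1 ≡ r [MOD D] ∧ h (k ^ 2 + 3 * k + 1) = a),
          (tc c k : ℝ)) / X) (atTop ⊓ 𝓟 Eᶜ) (𝓝 (μ D r a * Real.log c)) := by
  have := Fintype.ofFinite A
  have hA : 0 < Nat.card A := Nat.card_pos
  have hAc : (Nat.card A : ℂ) ≠ 0 := Nat.cast_ne_zero.2 hA.ne'
  have hroot : ∀ (ψ : AddChar A ℂ) (x : A), ψ x ^ Nat.card A = 1 := by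
    intro ψ x
    rw [← AddChar.map_nsmul_eq_pow, card_nsmul_eq_zero', AddChar.map_zero_eq_one]
  have h0 : ∀ ψ : AddChar A ℂ, ∃ m : ℕ → ℕ → ℂ,
      (∀ D : ℕ, 0 < D → ∀ r : ℕ, ∀ c : ℝ, 1 < c → ∀ ε : ℝ, 0 < ε → ∃ K : ℝ, ∀ A X : ℕ, 1 ≤ A → A ≤ X →
        ‖∑ k ∈ (Ioc A X).filter (fun k => k ^ 2 + 3 * k + 1 ≡ r [MOD D]), ((tc c k / k : ℝ) : ℂ) * ψ (h (k ^ 2 + 3 * k + 1)) -
          m D r * Real.log c * Real.log (X / A)‖ ≤ ε * Real.log (X / A) + K) ∧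
      (∃ E : Set ℕ, Lz E ∧ ∀ c : ℝ, 1 < c → ∀ D : ℕ, 0 < D → ∀ r : ℕ,
        Tendsto (fun X : ℕ => (∑ k ∈ (Icc 1 X).filter (fun k => k ^ 2 + 3 * k + 1 ≡ r [MOD D]),
          (tc c k : ℂ) * ψ (h (k ^ 2 + 3 * k + 1))) / X) (atTop ⊓ 𝓟 Eᶜ) (𝓝 (m D r * Real.log c))) ∧
      ((¬ ∃ (W : ℕ) (φ : DirichletCharacter ℂ W), 0 < W ∧ Summable (fun p : ℕ =>
        if (p.Prime ∧ (p % 5 = 1 ∨ p % 5 = 4)) ∧ ψ (h p) ≠ φ p then 1 / (p : ℝ) else 0)) → ∀ D r : ℕ, m D r = 0) := by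
    intro ψ
    obtain ⟨m, h3, ⟨E, h1, h2⟩, -, h4⟩ := wirsing hA (fun G a1 a2 a3 a4 => Pool.Agent.Lib.MP_d57abb_ntR.bb hA a1 a2 a3 a4)
      (g := fun n => ψ (h n))
      (fun a b ha hb hab => by rw [hadd a b ha hb hab, AddChar.map_add_eq_mul])
      (fun n _ => (ψ.norm_apply _).le)
      (fun p _ _ => subset_convexHull ℝ _ (hroot ψ _))
    exact ⟨m, h3, ⟨E, h1, h2⟩, fun h5 => h4 fun W hW φ hs => h5 ⟨W, φ, hW, f2_ne hA (fun n => hroot ψ (h n)) hW φ hs⟩⟩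
  choose m hw hE hz using h0
  choose E hE0 hE1 using hE
  obtain ⟨F, hF, hEF⟩ := f2_iUnion (Finset.univ : Finset (AddChar A ℂ)) E hE0
  have hid : ∀ (a : A) (n : ℕ), (if h n = a then (1 : ℂ) else 0) =
      (Nat.card A : ℂ)⁻¹ * ∑ ψ : AddChar A ℂ, ψ (-a) * ψ (h n) := by
    intro a n
    have h1 := AddChar.sum_apply_eq_ite (h n - a)
    have h2 : ∀ ψ : AddChar A ℂ, ψ (-a) * ψ (h n) = ψ (h n - a) := by
      intro ψ
      rw [← AddChar.map_add_eq_mul, sub_eq_add_neg, add_comm]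
    rw [Finset.sum_congr rfl (fun ψ _ => h2 ψ), h1]
    by_cases h3 : h n = a
    · rw [if_pos h3, if_pos (sub_eq_zero.2 h3), ← Nat.card_eq_fintype_card, inv_mul_cancel₀ hAc]
    · rw [if_neg h3, if_neg (fun h4 => h3 (sub_eq_zero.1 h4)), mul_zero]
  obtain ⟨M, hM⟩ : ∃ M : ℕ → ℕ → A → ℂ, ∀ D r a, M D r a = (Nat.card A : ℂ)⁻¹ * ∑ ψ : AddChar A ℂ, ψ (-a) * m ψ D r :=
    ⟨_, fun _ _ _ => rfl⟩
  have hcard : ((Finset.univ : Finset (AddChar A ℂ)).card : ℝ) = (Nat.card A : ℝ) := by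
    rw [Finset.card_univ, AddChar.card_eq, Nat.card_eq_fintype_card]
  have hinv : ‖(Nat.card A : ℂ)⁻¹‖ = (Nat.card A : ℝ)⁻¹ := by rw [norm_inv, Complex.norm_natCast]
  have hAr : (0 : ℝ) < (Nat.card A : ℝ) := by exact_mod_cast hA
  -- sums over the values
  have hsum : ∀ (S : Finset ℕ) (t : ℕ → ℝ) (D r : ℕ) (a : A),
      ((∑ k ∈ S.filter (fun k => k ^ 2 + 3 * k + 1 ≡ r [MOD D] ∧ h (k ^ 2 + 3 * k + 1) = a), t k : ℝ) : ℂ) =
      (Nat.card A : ℂ)⁻¹ * ∑ ψ : AddChar A ℂ, ψ (-a) *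
        ∑ k ∈ S.filter (fun k => k ^ 2 + 3 * k + 1 ≡ r [MOD D]), (t k : ℂ) * ψ (h (k ^ 2 + 3 * k + 1)) := by
    intro S t D r a
    have e1 : ∀ ψ : AddChar A ℂ, ψ (-a) *
        ∑ k ∈ S.filter (fun k => k ^ 2 + 3 * k + 1 ≡ r [MOD D]), (t k : ℂ) * ψ (h (k ^ 2 + 3 * k + 1)) =
        ∑ k ∈ S.filter (fun k => k ^ 2 + 3 * k + 1 ≡ r [MOD D]), (t k : ℂ) * (ψ (-a) * ψ (h (k ^ 2 + 3 * k + 1))) := by
      intro ψ
      rw [Finset.mul_sum]
      exact Finset.sum_congr rfl fun k _ => by ring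
    rw [Finset.sum_congr rfl (fun ψ _ => e1 ψ), Finset.sum_comm, Finset.mul_sum, Complex.ofReal_sum, ← Finset.filter_filter,
      Finset.sum_filter (fun k => h (k ^ 2 + 3 * k + 1) = a)]
    refine Finset.sum_congr rfl fun k _ => ?_
    rw [← Finset.mul_sum, mul_left_comm, ← hid]
    split_ifs
    · rw [mul_one]
    · rw [mul_zero]
  -- the windows
  have hwin : ∀ D : ℕ, 0 < D → ∀ (r : ℕ) (a : A), ∀ c : ℝ, 1 < c → ∀ ε : ℝ, 0 < ε → ∃ K : ℝ, ∀ B X : ℕ, 1 ≤ B → B ≤ X →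
        |∑ k ∈ (Ioc B X).filter (fun k => k ^ 2 + 3 * k + 1 ≡ r [MOD D] ∧ h (k ^ 2 + 3 * k + 1) = a), (tc c k : ℝ) / k -
          (M D r a).re * Real.log c * Real.log (X / B)| ≤ ε * Real.log (X / B) + K := by
    intro D hD r a c hc ε hε
    choose K hK using fun ψ : AddChar A ℂ => hw ψ D hD r c hc ε hε
    refine ⟨(Nat.card A : ℝ)⁻¹ * ∑ ψ : AddChar A ℂ, K ψ, fun B X hB hX => ?_⟩
    obtain ⟨S, hS⟩ : ∃ S : ℝ, S = ∑ k ∈ (Ioc B X).filter
      (fun k => k ^ 2 + 3 * k + 1 ≡ r [MOD D] ∧ h (k ^ 2 + 3 * k + 1) = a), (tc c k : ℝ) / k := ⟨_, rfl⟩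
    have e1 : (S : ℂ) - M D r a * Real.log c * Real.log (X / B) = (Nat.card A : ℂ)⁻¹ * ∑ ψ : AddChar A ℂ, ψ (-a) *
        (∑ k ∈ (Ioc B X).filter (fun k => k ^ 2 + 3 * k + 1 ≡ r [MOD D]), ((tc c k / k : ℝ) : ℂ) * ψ (h (k ^ 2 + 3 * k + 1)) -
          m ψ D r * Real.log c * Real.log (X / B)) := by
      rw [hS, hsum (Ioc B X) (fun k => (tc c k : ℝ) / k) D r a, hM]
      simp only [mul_sub, Finset.sum_sub_distrib, Finset.mul_sum, Finset.sum_mul]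
      congr 1
      refine Finset.sum_congr rfl fun ψ _ => ?_
      ring
    have e2 : ‖(S : ℂ) - M D r a * Real.log c * Real.log (X / B)‖ ≤
        ε * Real.log (X / B) + (Nat.card A : ℝ)⁻¹ * ∑ ψ : AddChar A ℂ, K ψ := by
      rw [e1, norm_mul, hinv]
      have e3 : ‖∑ ψ : AddChar A ℂ, ψ (-a) *
        (∑ k ∈ (Ioc B X).filter (fun k => k ^ 2 + 3 * k + 1 ≡ r [MOD D]), ((tc c k / k : ℝ) : ℂ) * ψ (h (k ^ 2 + 3 * k + 1)) -
          m ψ D r * Real.log c * Real.log (X / B))‖ ≤ ∑ ψ : AddChar A ℂ, (ε * Real.log (X / B) + K ψ) := by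
        refine (norm_sum_le _ _).trans (Finset.sum_le_sum fun ψ _ => ?_)
        rw [norm_mul, ψ.norm_apply, one_mul]
        exact hK ψ B X hB hX
      refine (mul_le_mul_of_nonneg_left e3 (inv_nonneg.2 hAr.le)).trans (le_of_eq ?_)
      rw [Finset.sum_add_distrib, Finset.sum_const, nsmul_eq_mul, hcard, mul_add, ← mul_assoc, inv_mul_cancel₀ hAr.ne', one_mul]
    refine le_trans ?_ e2
    rw [← hS]
    have e4 := Complex.abs_re_le_norm ((S : ℂ) - M D r a * Real.log c * Real.log (X / B))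
    have e5 : ((S : ℂ) - M D r a * Real.log c * Real.log (X / B)).re = S - (M D r a).re * Real.log c * Real.log (X / B) := by
      rw [Complex.sub_re, Complex.ofReal_re, Complex.re_mul_ofReal, Complex.re_mul_ofReal]
    rwa [e5] at e4
  refine ⟨fun D r a => (M D r a).re, fun D hD r a => ?_, fun x hx D r a => ?_, hwin, F, hF, fun c hc D hD r a => ?_⟩
  · -- nonnegative
    by_contra hneg
    rw [not_le] at hneg
    obtain ⟨K, hK⟩ := hwin D hD r a (Real.exp 1) (by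
      have := Real.add_one_lt_exp (one_ne_zero)
      linarith) (-(M D r a).re / 2) (by linarith)
    have h1 : Tendsto (fun X : ℕ => Real.log X) atTop atTop := Real.tendsto_log_atTop.comp tendsto_natCast_atTop_atTop
    obtain ⟨X, hX1, hX2⟩ := ((h1.eventually_gt_atTop (2 * K / (-(M D r a).re))).and (eventually_ge_atTop 1)).exists
    have h2 := hK 1 X le_rfl hX2
    rw [Nat.cast_one, div_one, Real.log_exp, mul_one] at h2
    have h3 : 0 ≤ ∑ k ∈ (Ioc 1 X).filter (fun k => k ^ 2 + 3 * k + 1 ≡ r [MOD D] ∧ h (k ^ 2 + 3 * k + 1) = a),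
      (tc (Real.exp 1) k : ℝ) / k := Finset.sum_nonneg fun k _ => by positivity
    have h4 := (abs_le.1 h2).2
    rw [div_lt_iff₀ (by linarith)] at hX1
    nlinarith
  · -- cosets
    show (M D r (a + x)).re = (M D r a).re
    rw [hM, hM]
    congr 2
    refine Finset.sum_congr rfl fun ψ _ => ?_
    by_cases h5 : ∃ (W : ℕ) (φ : DirichletCharacter ℂ W), 0 < W ∧ Summable (fun p : ℕ =>
        if (p.Prime ∧ (p % 5 = 1 ∨ p % 5 = 4)) ∧ ψ (h p) ≠ φ p then 1 / (p : ℝ) else 0)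
    · have h6 := hx ψ h5
      have h7 : ψ (-x) = 1 := by
        rw [AddChar.map_neg_eq_inv, h6, inv_one]
      rw [neg_add, AddChar.map_add_eq_mul, h7, mul_one]
    · rw [hz ψ h5 D r, mul_zero, mul_zero]
  · -- almost all scales
    have h1 : Tendsto (fun X : ℕ => (Nat.card A : ℂ)⁻¹ * ∑ ψ : AddChar A ℂ, ψ (-a) *
        ((∑ k ∈ (Icc 1 X).filter (fun k => k ^ 2 + 3 * k + 1 ≡ r [MOD D]), (tc c k : ℂ) * ψ (h (k ^ 2 + 3 * k + 1))) / X))
        (atTop ⊓ 𝓟 Fᶜ) (𝓝 ((Nat.card A : ℂ)⁻¹ * ∑ ψ : AddChar A ℂ, ψ (-a) * (m ψ D r * Real.log c))) := by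
      refine Tendsto.const_mul _ (tendsto_finsetSum _ fun ψ hψ => Tendsto.const_mul _ ?_)
      refine (hE1 ψ c hc D hD r).mono_left (inf_le_inf_left _ (Filter.principal_mono.2 ?_))
      exact Set.compl_subset_compl.2 (hEF ψ hψ)
    have h2 := (Complex.continuous_re.tendsto _).comp h1
    have h3 : ((Nat.card A : ℂ)⁻¹ * ∑ ψ : AddChar A ℂ, ψ (-a) * (m ψ D r * Real.log c)).re = (M D r a).re * Real.log c := by
      rw [← Complex.re_mul_ofReal, hM]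
      congr 1
      rw [mul_assoc, Finset.sum_mul]
      congr 1
      exact Finset.sum_congr rfl fun ψ _ => by ring
    rw [h3] at h2
    refine h2.congr fun X => ?_
    have h4 := hsum (Icc 1 X) (fun k => (tc c k : ℝ)) D r a
    have h5 : (Nat.card A : ℂ)⁻¹ * ∑ ψ : AddChar A ℂ, ψ (-a) *
        ((∑ k ∈ (Icc 1 X).filter (fun k => k ^ 2 + 3 * k + 1 ≡ r [MOD D]), (tc c k : ℂ) * ψ (h (k ^ 2 + 3 * k + 1))) / X) =
        (((∑ k ∈ (Icc 1 X).filter (fun k => k ^ 2 + 3 * k + 1 ≡ r [MOD D] ∧ h (k ^ 2 + 3 * k + 1) = a), (tc c k : ℝ)) / X : ℝ) : ℂ) := by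
      rw [Complex.ofReal_div, h4, Complex.ofReal_natCast, mul_div_assoc, Finset.sum_div]
      congr 1
      refine Finset.sum_congr rfl fun ψ _ => ?_
      rw [mul_div_assoc]
      simp only [Complex.ofReal_natCast]
    show ((Nat.card A : ℂ)⁻¹ * ∑ ψ : AddChar A ℂ, ψ (-a) *
        ((∑ k ∈ (Icc 1 X).filter (fun k => k ^ 2 + 3 * k + 1 ≡ r [MOD D]), (tc c k : ℂ) * ψ (h (k ^ 2 + 3 * k + 1))) / X)).re = _
    rw [h5, Complex.ofReal_re]

end Pool.Agent.Lib.MP_d57abb_ntW
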