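import Pool.Agent.Lib.MP_d57abb_ntW.F2
import Pool.Agent.Lib.MP_d57abb_nt.GV.LawS
import Pool.Agent.Lib.MP_d57abb_nt.GV.Ext
import Pool.Agent.Lib.MP_d57abb_nt.GV.Card

/-!
# F3: the law of an additive function: values which occur have positive density
-/

set_option autoImplicit false

namespace Pool.Agent.Lib.MP_d57abb_ntW

open Finset Filter Topology
open Pool.Agent.Lib.MP_d57abb_nt.GA.TZ (tc)
open Pool.Agent.Lib.MP_d57abb_ntR (Lz)
open Pool.Agent.Lib.MP_d57abb_nt (GT.lab0)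

open Classical in
/-- A value which occurs has positive mass. -/
private theorem f3_mass {A : Type*} [AddCommGroup A] [Finite A] {h : ℕ → A}
    (hadd : ∀ a b : ℕ, 0 < a → 0 < b → a.Coprime b → h (a * b) = h a + h b) {D : ℕ} (hD : 0 < D) (k₀ : ℕ) :
    ∃ κ : ℝ, 0 < κ ∧ ∃ X₀ : ℕ, ∀ X : ℕ, X₀ ≤ X → κ * X ≤
      ∑ k ∈ (Icc 1 X).filter (fun k => k ^ 2 + 3 * k + 1 ≡ k₀ ^ 2 + 3 * k₀ + 1 [MOD D] ∧
        h (k ^ 2 + 3 * k + 1) = h (k₀ ^ 2 + 3 * k₀ + 1)), (tc 32 k : ℝ) := by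
  have := Fintype.ofFinite A
  obtain ⟨h₁, e1, -, e3⟩ := Pool.Agent.Lib.MP_d57abb_nt.GV.ext_add h hadd
  obtain ⟨κ, hκ, X₀, hX₀⟩ := Pool.Agent.Lib.MP_d57abb_nt.GV.lawS e1 (D := D * (k₀ ^ 2 + 3 * k₀ + 1))
    (Nat.mul_pos hD (by positivity)) k₀
  refine ⟨κ, hκ, X₀, fun X hX => ((hX₀ 0 (fun ψ _ => AddChar.map_zero_eq_one ψ) X hX).1).trans
    (Finset.sum_le_sum_of_subset_of_nonneg (fun k hk => ?_) (fun _ _ _ => Nat.cast_nonneg _))⟩
  rw [Finset.mem_filter] at hk ⊢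
  obtain ⟨a1, m, a2, a3, a4, a5⟩ := hk
  have hc : (k₀ ^ 2 + 3 * k₀ + 1).Coprime m := by
    have b1 : m ≡ 1 [MOD k₀ ^ 2 + 3 * k₀ + 1] := a4.of_mul_left D
    have b2 : Nat.gcd m (k₀ ^ 2 + 3 * k₀ + 1) = Nat.gcd 1 (k₀ ^ 2 + 3 * k₀ + 1) := b1.gcd_eq
    rw [Nat.gcd_one_left] at b2
    exact (Nat.coprime_iff_gcd_eq_one.2 b2).symm
  refine ⟨a1, ?_, ?_⟩
  · have b1 : m ≡ 1 [MOD D] := a4.of_mul_right _
    have b2 := Nat.ModEq.mul_left (k₀ ^ 2 + 3 * k₀ + 1) b1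
    rw [mul_one] at b2
    rwa [a2]
  · rw [a2, hadd _ _ (by positivity) (Nat.pos_of_ne_zero a3.ne_zero) hc, e3 m a3, a5, add_zero]

/-- A number which is squeezed by all windows. -/
private theorem f3_win {m : ℝ} {S : ℕ → ℝ} (h : ∀ ε : ℝ, 0 < ε → ∃ K : ℝ, ∀ X : ℕ, 1 ≤ X → |S X - m * Real.log X| ≤ ε * Real.log X + K)
    {a K' : ℝ} (ha : ∀ X : ℕ, 1 ≤ X → a * Real.log X - K' ≤ S X) : a ≤ m := by
  by_contra hcon
  rw [not_le] at hcon
  obtain ⟨K, hK⟩ := h ((a - m) / 2) (by linarith)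
  have h1 : Tendsto (fun X : ℕ => Real.log X) atTop atTop := Real.tendsto_log_atTop.comp tendsto_natCast_atTop_atTop
  obtain ⟨X, hX1, hX2⟩ := ((h1.eventually_gt_atTop (2 * (K + K') / (a - m))).and (eventually_ge_atTop 1)).exists
  have h2 := (abs_le.1 (hK X hX2)).2
  have h3 := ha X hX2
  rw [div_lt_iff₀ (by linarith)] at hX1
  nlinarith

open Classical in
/-- The law of an additive function with values in a finite abelian group. -/
theorem law {A : Type*} [AddCommGroup A] [Finite A] {h : ℕ → A}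
    (hadd : ∀ a b : ℕ, 0 < a → 0 < b → a.Coprime b → h (a * b) = h a + h b) :
    ∃ μ : ℕ → ℕ → A → ℝ,
      (∀ D : ℕ, 0 < D → ∀ (r : ℕ) (a : A), 0 ≤ μ D r a ∧
        (0 < μ D r a ↔ ∃ k : ℕ, k ^ 2 + 3 * k + 1 ≡ r [MOD D] ∧ h (k ^ 2 + 3 * k + 1) = a)) ∧
      (∀ x : A, (∀ ξ : AddChar A ℂ, (∃ (W : ℕ) (ψ : DirichletCharacter ℂ W), 0 < W ∧ Summable (fun p : ℕ =>
        if (p.Prime ∧ (p % 5 = 1 ∨ p % 5 = 4)) ∧ ξ (h p) ≠ ψ p then 1 / (p : ℝ) else 0)) → ξ x = 1) →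
        ∀ (D r : ℕ) (a : A), μ D r (a + x) = μ D r a) ∧
      (∀ D : ℕ, 0 < D → ∀ (r : ℕ) (a : A), ∀ c : ℝ, 1 < c → ∀ ε : ℝ, 0 < ε → ∃ K : ℝ, ∀ B X : ℕ, 1 ≤ B → B ≤ X →
        |∑ k ∈ (Ioc B X).filter (fun k => k ^ 2 + 3 * k + 1 ≡ r [MOD D] ∧ h (k ^ 2 + 3 * k + 1) = a), (tc c k : ℝ) / k -
          μ D r a * Real.log c * Real.log (X / B)| ≤ ε * Real.log (X / B) + K) ∧
      ∃ E : Set ℕ, Lz E ∧ ∀ c : ℝ, 1 < c → ∀ D : ℕ, 0 < D → ∀ (r : ℕ) (a : A),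
        Tendsto (fun X : ℕ => (∑ k ∈ (Icc 1 X).filter (fun k => k ^ 2 + 3 * k + 1 ≡ r [MOD D] ∧ h (k ^ 2 + 3 * k + 1) = a),
          (tc c k : ℝ)) / X) (atTop ⊓ 𝓟 Eᶜ) (𝓝 (μ D r a * Real.log c)) := by
  obtain ⟨μ, h0, h1, h2, h3⟩ := add_law hadd
  refine ⟨μ, fun D hD r a => ⟨h0 D hD r a, ?_, ?_⟩, h1, h2, h3⟩
  · -- a class without values has density zero
    intro hpos
    by_contra hno
    have h4 : ∀ (c : ℝ) (B X : ℕ), ∑ k ∈ (Ioc B X).filter (fun k => k ^ 2 + 3 * k + 1 ≡ r [MOD D] ∧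
        h (k ^ 2 + 3 * k + 1) = a), (tc c k : ℝ) / k = 0 := by
      intro c B X
      refine Finset.sum_eq_zero fun k hk => ?_
      rw [Finset.mem_filter] at hk
      exact absurd ⟨k, hk.2⟩ hno
    have h5 : (0 : ℝ) ≤ -(μ D r a * Real.log (Real.exp 1)) := by
      refine f3_win (m := -(μ D r a * Real.log (Real.exp 1))) (S := fun _ => 0) (a := 0) (K' := 0) (fun ε hε => ?_)
        (fun X hX => by linarith)
      obtain ⟨K, hK⟩ := h2 D hD r a (Real.exp 1) (by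
        have := Real.add_one_lt_exp (one_ne_zero)
        linarith) ε hε
      refine ⟨K, fun X hX => ?_⟩
      have h6 := hK 1 X le_rfl hX
      rw [h4, Nat.cast_one, div_one] at h6
      refine le_trans (le_of_eq ?_) h6
      rw [← abs_neg]
      congr 1
      ring
    rw [Real.log_exp] at h5
    linarith
  · -- a value which occurs has positive density
    rintro ⟨k₀, hk1, hk2⟩
    obtain ⟨κ, hκ, X₀, hX₀⟩ := f3_mass hadd hD k₀
    obtain ⟨u, hu⟩ : ∃ u : ℕ → ℝ, ∀ k, u k = if k ^ 2 + 3 * k + 1 ≡ r [MOD D] ∧ h (k ^ 2 + 3 * k + 1) = a then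
        (tc 32 k : ℝ) else 0 := ⟨_, fun _ => rfl⟩
    have hu0 : ∀ k, 0 ≤ u k := by
      intro k
      rw [hu]
      split_ifs
      · positivity
      · exact le_rfl
    have hlo : ∀ N : ℕ, X₀ ≤ N → κ * N ≤ ∑ k ∈ Icc 1 N, u k := by
      intro N hN
      refine (hX₀ N hN).trans ?_
      rw [Finset.sum_filter]
      refine Finset.sum_le_sum fun k _ => ?_
      split_ifs with h4
      · rw [hu, if_pos ⟨h4.1.trans hk1, h4.2.trans hk2⟩]
      · exact hu0 k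
    have hhi : ∀ N : ℕ, ∑ k ∈ Icc 1 N, u k ≤ (3 * 32) * N := by
      intro N
      refine le_trans (Finset.sum_le_sum fun k _ => ?_)
        (@Pool.Agent.Lib.MP_d57abb_nt.GA.TS.mass_le Pool.Agent.Lib.MP_d57abb_nt.GT.lab0 32 (by norm_num) N)
      rw [hu]
      split_ifs
      · exact le_rfl
      · positivity
    obtain ⟨b, hb, K', -, hlow⟩ := Pool.Agent.Lib.MP_d57abb_nt.GT.low_abs hu0 hκ (show (0 : ℝ) < 3 * 32 by norm_num) hlo hhi
    have h5 : b ≤ μ D r a * Real.log 32 := by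
      refine f3_win (S := fun X => ∑ k ∈ Ioc 1 X, u k / k) (K' := K') (fun ε hε => ?_) (fun X hX => ?_)
      · obtain ⟨K, hK⟩ := h2 D hD r a 32 (by norm_num) ε hε
        refine ⟨K, fun X hX => ?_⟩
        have h6 := hK 1 X le_rfl hX
        rw [Nat.cast_one, div_one, Finset.sum_filter] at h6
        refine le_trans (le_of_eq ?_) h6
        congr 2
        refine Finset.sum_congr rfl fun k _ => ?_
        rw [hu]
        split_ifs
        · rfl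
        · rw [zero_div]
      · have h6 := hlow 1 X le_rfl hX
        rwa [Nat.cast_one, div_one] at h6
    have h6 : 0 < Real.log 32 := Real.log_pos (by norm_num)
    by_contra h7
    rw [not_lt] at h7
    nlinarith

end Pool.Agent.Lib.MP_d57abb_ntW
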